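import Pool.Agent.GRP.Defs

/-!
# [GRP-A1] basic facts on `Ex`

PROOFS. `Ex ω Q z W` is witnessed by `n` with the sites at times `1..n` in `Q` and the site at time `n+1` in `W`.
`Ex_congr`: if `ω = ω'` on `Q`, `orb_congr_le` with `N = n` gives `orb ω' z i = orb ω z i` for `i ≤ n`, and the site at
time `n + 1` is `(orb z n).1 + dv (orb z n).2` (`orb_base_succ`); the other direction is the same with `ω, ω'` exchanged.
`measurableSet_Ex`: countable union over `n` of finite intersections of `{ω | orb ω z i ∈ {x | x.1 ∈ Q}}`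
(`measurableSet_orb_mem measurable_const`).
`Ex_tr`, `Ex_rot`: `orb_tr`, `orb_rot`; `P_Ex_tr`, `P_Ex_rot`: `mp_shift`, `mp_rotE` (`MeasurePreserving.measure_preimage`).
`P_inter_Ex`: `P_indep` with `A = {ω | Ex ω D z W}` (`Ex_congr`), likewise for the translate.
-/

namespace Pool.Agent.GRP

open Pool.Agent.GRW MeasureTheory Filter Topology

theorem a1_congr_aux {ω ω' : Env} {Q W : Set (ℤ × ℤ)} {z : Dart} (h : ∀ s ∈ Q, ω s = ω' s)
    (hE : Ex ω Q z W) : Ex ω' Q z W := by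
  obtain ⟨n, h1, h2⟩ := hE
  have h3 : ∀ i, i ≤ n → orb ω' z i = orb ω z i :=
    orb_congr_le n fun i hi hin => (h _ (h1 i hi hin)).symm
  refine ⟨n, fun i hi hin => ?_, ?_⟩
  · rw [h3 i hin]
    exact h1 i hi hin
  · rw [orb_base_succ, h3 n le_rfl, ← orb_base_succ]
    exact h2

theorem Ex_congr {ω ω' : Env} {Q W : Set (ℤ × ℤ)} {z : Dart} (h : ∀ s ∈ Q, ω s = ω' s) :
    Ex ω Q z W ↔ Ex ω' Q z W :=
  ⟨a1_congr_aux h, a1_congr_aux fun s hs => (h s hs).symm⟩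

theorem Ex_mono {ω : Env} {Q Q' W W' : Set (ℤ × ℤ)} {z : Dart} (hQ : Q ⊆ Q') (hW : W ⊆ W')
    (h : Ex ω Q z W) : Ex ω Q' z W' := by
  obtain ⟨n, h1, h2⟩ := h
  exact ⟨n, fun i hi hin => hQ (h1 i hi hin), hW h2⟩

theorem measurableSet_Ex (Q W : Set (ℤ × ℤ)) (z : Dart) : MeasurableSet {ω | Ex ω Q z W} := by
  have h0 : ∀ (i : ℕ) (T : Set (ℤ × ℤ)), MeasurableSet {ω : Env | (orb ω z i).1 ∈ T} := fun i T =>
    measurableSet_orb_mem (g := fun _ => z) measurable_const i {x | x.1 ∈ T}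
  have h1 : {ω | Ex ω Q z W} = ⋃ n : ℕ, ((⋂ i : ℕ, {ω : Env | 0 < i → i ≤ n → (orb ω z i).1 ∈ Q}) ∩
      {ω : Env | (orb ω z (n + 1)).1 ∈ W}) := by
    ext ω
    simp only [Ex, Set.mem_ofPred_eq, Set.mem_iUnion, Set.mem_inter_iff, Set.mem_iInter]
  rw [h1]
  refine MeasurableSet.iUnion fun n => (MeasurableSet.iInter fun i => ?_).inter (h0 _ _)
  by_cases hi : 0 < i ∧ i ≤ n
  · have h2 : {ω : Env | 0 < i → i ≤ n → (orb ω z i).1 ∈ Q} = {ω : Env | (orb ω z i).1 ∈ Q} := by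
      ext ω
      simp only [Set.mem_ofPred_eq]
      exact ⟨fun h => h hi.1 hi.2, fun h _ _ => h⟩
    rw [h2]
    exact h0 _ _
  · have h2 : {ω : Env | 0 < i → i ≤ n → (orb ω z i).1 ∈ Q} = Set.univ := by
      ext ω
      simp only [Set.mem_ofPred_eq, Set.mem_univ, iff_true]
      exact fun h3 h4 => absurd ⟨h3, h4⟩ hi
    rw [h2]
    exact MeasurableSet.univ

theorem Ex_tr (ω : Env) (Q W : Set (ℤ × ℤ)) (z : Dart) (v : ℤ × ℤ) :
    Ex ω Q (tr v z) W ↔ Ex (shift v ω) {s | s + v ∈ Q} z {s | s + v ∈ W} := by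
  unfold Ex
  simp only [orb_tr]
  exact Iff.rfl

theorem P_Ex_tr (Q W : Set (ℤ × ℤ)) (z : Dart) (v : ℤ × ℤ) :
    P {ω | Ex ω Q (tr v z) W} = P {ω | Ex ω {s | s + v ∈ Q} z {s | s + v ∈ W}} := by
  have h1 : {ω | Ex ω Q (tr v z) W} = shift v ⁻¹' {ω | Ex ω {s | s + v ∈ Q} z {s | s + v ∈ W}} := by
    ext ω
    exact Ex_tr ω Q W z v
  rw [h1]
  exact (mp_shift v).measure_preimage (measurableSet_Ex _ _ z).nullMeasurableSet

theorem Ex_rot (ω : Env) (Q W : Set (ℤ × ℤ)) (z : Dart) :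
    Ex ω Q (rotD z) W ↔ Ex (rotE ω) {s | rho s ∈ Q} z {s | rho s ∈ W} := by
  unfold Ex
  simp only [orb_rot]
  exact Iff.rfl

theorem P_Ex_rot (Q W : Set (ℤ × ℤ)) (z : Dart) :
    P {ω | Ex ω Q (rotD z) W} = P {ω | Ex ω {s | rho s ∈ Q} z {s | rho s ∈ W}} := by
  have h1 : {ω | Ex ω Q (rotD z) W} = rotE ⁻¹' {ω | Ex ω {s | rho s ∈ Q} z {s | rho s ∈ W}} := by
    ext ω
    exact Ex_rot ω Q W z
  rw [h1]
  exact mp_rotE.measure_preimage (measurableSet_Ex _ _ z).nullMeasurableSet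

/-- independence of `Ex` in a finite box and an event which does not depend on the box -/
theorem P_inter_Ex (D : Finset (ℤ × ℤ)) {J : Set Env} (hJ : MeasurableSet J)
    (hJD : ∀ ω ω' : Env, (∀ s, s ∉ D → ω s = ω' s) → (ω ∈ J ↔ ω' ∈ J)) (z : Dart)
    (W : Set (ℤ × ℤ)) : P (J ∩ {ω | Ex ω D z W}) = P J * P {ω | Ex ω D z W} :=
  P_indep D hJ hJD fun ω ω' h => Ex_congr fun s hs => h s (Finset.mem_coe.1 hs)

/-- the same with a translated environment: `J` does not depend on `D + v` -/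
theorem P_inter_Ex_shift (D : Finset (ℤ × ℤ)) (v : ℤ × ℤ) {J : Set Env} (hJ : MeasurableSet J)
    (hJD : ∀ ω ω' : Env, (∀ s, s - v ∉ D → ω s = ω' s) → (ω ∈ J ↔ ω' ∈ J)) (z : Dart)
    (W : Set (ℤ × ℤ)) :
    P (J ∩ {ω | Ex (shift v ω) D z W}) = P J * P {ω | Ex ω D z W} := by
  have hm : ∀ s : ℤ × ℤ, s ∈ D.image (fun s => s + v) ↔ s - v ∈ D := by
    intro s
    rw [Finset.mem_image]
    constructor
    · rintro ⟨t, ht, rfl⟩
      rwa [add_sub_cancel_right]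
    · intro h
      exact ⟨s - v, h, sub_add_cancel s v⟩
  have h1 : P {ω | Ex (shift v ω) D z W} = P {ω | Ex ω D z W} := by
    have h2 : {ω | Ex (shift v ω) D z W} = shift v ⁻¹' {ω | Ex ω D z W} := rfl
    rw [h2]
    exact (mp_shift v).measure_preimage (measurableSet_Ex _ _ z).nullMeasurableSet
  rw [← h1]
  refine P_indep (D.image fun s => s + v) hJ (fun ω ω' h => hJD ω ω' fun s hs => h s fun h3 => ?_)
    fun ω ω' h => Ex_congr fun s hs => h (s + v) ?_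
  · exact hs ((hm s).1 h3)
  · rw [hm, add_sub_cancel_right]
    exact Finset.mem_coe.1 hs

end Pool.Agent.GRP
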