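import Pool.Agent.GRP.A1

/-!
# [GRP-A2] reflection in the vertical axis, and three symmetries of the square

PROOFS. `refl` is an involution of the sites, `sw` exchanges the pairings 1 and 2; check by `decide` that
`dv (2 - d) = refl (dv d)` and `pr (sw p) (2 - d) = 2 - pr p d`, and `2 - d + 2 = 2 - (d + 2)` in `Fin 4`.
`mp_refE`: as `mp_rotE` (row C3 of GRW): `mp_perm` composed with `c3_reindex`.
`orb_ref`: induction on `n` from the case of one step `F ω (refD x) = refD (F (refE ω) x)`.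
`P_Ex_ref`: as `P_Ex_rot`.
`pS_left`: `refD (up 0) = up 0`, the reflection maps `Sq k` to itself and column `k+1` to column `-k-1`.
`pT_east`: `rotD` (90 degrees counterclockwise) of the dart `((-k-1, k), 0)` after a translation: with
`z = ((-(k:ℤ)-1, 0), 0)` one has `rotD z = ((0, -(k:ℤ)-1), 1)`; translate by `(0, k)`.  The square
`[-k,k] × [-k,k]` is invariant under `rho`, and the east column `k+1` goes to the north row `k+1`.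
`pS_south`: the dart `((a,y),0)` enters `[a+1, a+1+2k] × [y-k, y+k]` going east; the same rotation sends the south
side to the right side `colS (k+1)` of `Sq k` (`rho (x,y) = (-y,x)`).
-/

namespace Pool.Agent.GRP

open Pool.Agent.GRW MeasureTheory Filter Topology

theorem a2_refl_refl (s : ℤ × ℤ) : refl (refl s) = s := by
  unfold refl
  simp

def a2_refl : ℤ × ℤ ≃ ℤ × ℤ := ⟨refl, refl, a2_refl_refl, a2_refl_refl⟩

theorem mp_refE : MeasurePreserving refE P P :=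
  (mp_perm (fun _ => c3_sw)).comp (c3_reindex a2_refl)

theorem a2_dv (d : Fin 4) : dv (2 - d) = refl (dv d) := by revert d; decide

theorem a2_pr (p : Fin 3) (d : Fin 4) : pr (sw p) (2 - d) = 2 - pr p d := by revert p d; decide

theorem a2_two (d : Fin 4) : 2 - d + 2 = 2 - (d + 2) := by revert d; decide

theorem a2_refl_add (a b : ℤ × ℤ) : refl (a + b) = refl a + refl b := by
  unfold refl
  ext
  · simp; ring
  · simp

theorem a2_F_ref (ω : Env) (x : Dart) : F ω (refD x) = refD (F (refE ω) x) := by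
  have h1 : refl x.1 + dv (2 - x.2) = refl (x.1 + dv x.2) := by
    rw [a2_dv, a2_refl_add]
  unfold F refD refE
  simp only
  rw [h1, a2_two, ← a2_pr, sw_sw]

theorem orb_ref (ω : Env) (x : Dart) (n : ℕ) : orb ω (refD x) n = refD (orb (refE ω) x n) := by
  induction n with
  | zero => rfl
  | succ n ih => rw [orb_succ, orb_succ, ih, a2_F_ref]

theorem Ex_ref (ω : Env) (Q W : Set (ℤ × ℤ)) (z : Dart) :
    Ex ω Q (refD z) W ↔ Ex (refE ω) {s | refl s ∈ Q} z {s | refl s ∈ W} := by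
  unfold Ex
  simp only [orb_ref]
  rfl

theorem P_Ex_ref (Q W : Set (ℤ × ℤ)) (z : Dart) :
    P {ω | Ex ω Q (refD z) W} = P {ω | Ex ω {s | refl s ∈ Q} z {s | refl s ∈ W}} := by
  have h1 : {ω | Ex ω Q (refD z) W} = refE ⁻¹' {ω | Ex ω {s | refl s ∈ Q} z {s | refl s ∈ W}} := by
    ext ω
    exact Ex_ref ω Q W z
  rw [h1, mp_refE.measure_preimage (measurableSet_Ex _ _ z).nullMeasurableSet]

theorem pS_left (k : ℕ) : P {ω | Ex ω (Sq k) (up 0) (colS (-(k : ℤ) - 1))} = pS k := by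
  have h1 := P_Ex_ref (Sq k : Set (ℤ × ℤ)) (colS (-(k : ℤ) - 1)) (up 0)
  have h2 : refD (up 0) = up 0 := by
    unfold refD up refl
    simp
  have h3 : {s : ℤ × ℤ | refl s ∈ (Sq k : Set (ℤ × ℤ))} = (Sq k : Set (ℤ × ℤ)) := by
    ext s
    have e1 : s ∈ {s : ℤ × ℤ | refl s ∈ (Sq k : Set (ℤ × ℤ))} ↔ refl s ∈ Sq k := Iff.rfl
    rw [e1, Finset.mem_coe]
    unfold Sq refl
    rw [mem_rect, mem_rect]
    simp only
    omega
  have h4 : {s : ℤ × ℤ | refl s ∈ colS (-(k : ℤ) - 1)} = colS ((k : ℤ) + 1) := by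
    ext s
    have e1 : s ∈ {s : ℤ × ℤ | refl s ∈ colS (-(k : ℤ) - 1)} ↔ -s.1 = -(k : ℤ) - 1 := Iff.rfl
    have e2 : s ∈ colS ((k : ℤ) + 1) ↔ s.1 = (k : ℤ) + 1 := Iff.rfl
    rw [e1, e2]
    omega
  rw [h2, h3, h4] at h1
  exact h1

/-- the box around the origin -/
def a2_B (k : ℕ) : Set (ℤ × ℤ) := {s | (-(k : ℤ) ≤ s.1 ∧ s.1 ≤ k) ∧ -(k : ℤ) ≤ s.2 ∧ s.2 ≤ k}

theorem a2_up (k : ℕ) (W : Set (ℤ × ℤ)) : P {ω | Ex ω (Sq k) (up 0) W} =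
    P {ω | Ex ω (a2_B k) ((-(k : ℤ) - 1, 0), 0) {s | rho s + (0, (k : ℤ)) ∈ W}} := by
  have h1 : up 0 = tr (0, (k : ℤ)) (rotD ((-(k : ℤ) - 1, 0), 0)) := by
    unfold up tr rotD rho
    simp
    ring
  have h2 : {s : ℤ × ℤ | rho s ∈ {s : ℤ × ℤ | s + (0, (k : ℤ)) ∈ (Sq k : Set (ℤ × ℤ))}} = a2_B k := by
    ext s
    have e1 : s ∈ {s : ℤ × ℤ | rho s ∈ {s : ℤ × ℤ | s + (0, (k : ℤ)) ∈ (Sq k : Set (ℤ × ℤ))}} ↔
      rho s + (0, (k : ℤ)) ∈ Sq k := Iff.rfl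
    have e2 : s ∈ a2_B k ↔ (-(k : ℤ) ≤ s.1 ∧ s.1 ≤ k) ∧ -(k : ℤ) ≤ s.2 ∧ s.2 ≤ k := Iff.rfl
    rw [e1, e2]
    unfold Sq rho
    rw [mem_rect]
    simp only [Prod.fst_add, Prod.snd_add]
    omega
  rw [h1, P_Ex_tr, P_Ex_rot, h2]
  rfl

theorem pT_east (k : ℕ) :
    P {ω | Ex ω (Sq k) ((-(k : ℤ) - 1, (k : ℤ)), 0) (colS (k + 1))} = pT k := by
  have h0 : pT k = P {ω | Ex ω (Sq k) (up 0) (rowS (2 * k + 1))} := rfl
  have h1 : (((-(k : ℤ) - 1, (k : ℤ)), 0) : Dart) = tr (0, (k : ℤ)) ((-(k : ℤ) - 1, 0), 0) := by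
    unfold tr
    simp
  have h2 : {s : ℤ × ℤ | s + (0, (k : ℤ)) ∈ (Sq k : Set (ℤ × ℤ))} = a2_B k := by
    ext s
    have e1 : s ∈ {s : ℤ × ℤ | s + (0, (k : ℤ)) ∈ (Sq k : Set (ℤ × ℤ))} ↔ s + (0, (k : ℤ)) ∈ Sq k := Iff.rfl
    have e2 : s ∈ a2_B k ↔ (-(k : ℤ) ≤ s.1 ∧ s.1 ≤ k) ∧ -(k : ℤ) ≤ s.2 ∧ s.2 ≤ k := Iff.rfl
    rw [e1, e2]
    unfold Sq
    rw [mem_rect]
    simp only [Prod.fst_add, Prod.snd_add]
    omega
  have h3 : {s : ℤ × ℤ | s + (0, (k : ℤ)) ∈ colS ((k : ℤ) + 1)} =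
      {s : ℤ × ℤ | rho s + (0, (k : ℤ)) ∈ rowS (2 * (k : ℤ) + 1)} := by
    ext s
    have e1 : s ∈ {s : ℤ × ℤ | s + (0, (k : ℤ)) ∈ colS ((k : ℤ) + 1)} ↔ s.1 + 0 = (k : ℤ) + 1 := Iff.rfl
    have e2 : s ∈ {s : ℤ × ℤ | rho s + (0, (k : ℤ)) ∈ rowS (2 * (k : ℤ) + 1)} ↔
      s.1 + (k : ℤ) = 2 * (k : ℤ) + 1 := Iff.rfl
    rw [e1, e2]
    omega
  rw [h0, a2_up, h1, P_Ex_tr, h2, h3]

theorem pS_south (k : ℕ) (a y : ℤ) :
    P {ω | Ex ω (rect (a + 1) (a + 1 + 2 * k) (y - k) (y + k)) ((a, y), 0) (rowS (y - k - 1))} = pS k := by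
  have h0 : pS k = P {ω | Ex ω (Sq k) (up 0) (colS (k + 1))} := rfl
  have h1 : (((a, y), 0) : Dart) = tr (a + k + 1, y) ((-(k : ℤ) - 1, 0), 0) := by
    unfold tr
    simp only [Prod.mk_add_mk, zero_add]
    congr 2
    ring
  have h2 : {s : ℤ × ℤ | s + (a + k + 1, y) ∈
      (rect (a + 1) (a + 1 + 2 * k) (y - k) (y + k) : Set (ℤ × ℤ))} = a2_B k := by
    ext s
    have e1 : s ∈ {s : ℤ × ℤ | s + (a + k + 1, y) ∈
      (rect (a + 1) (a + 1 + 2 * k) (y - k) (y + k) : Set (ℤ × ℤ))} ↔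
      s + (a + k + 1, y) ∈ rect (a + 1) (a + 1 + 2 * k) (y - k) (y + k) := Iff.rfl
    have e2 : s ∈ a2_B k ↔ (-(k : ℤ) ≤ s.1 ∧ s.1 ≤ k) ∧ -(k : ℤ) ≤ s.2 ∧ s.2 ≤ k := Iff.rfl
    rw [e1, e2, mem_rect]
    simp only [Prod.fst_add, Prod.snd_add]
    omega
  have h3 : {s : ℤ × ℤ | s + (a + k + 1, y) ∈ rowS (y - k - 1)} =
      {s : ℤ × ℤ | rho s + (0, (k : ℤ)) ∈ colS ((k : ℤ) + 1)} := by
    ext s
    have e1 : s ∈ {s : ℤ × ℤ | s + (a + k + 1, y) ∈ rowS (y - k - 1)} ↔ s.2 + y = y - k - 1 := Iff.rfl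
    have e2 : s ∈ {s : ℤ × ℤ | rho s + (0, (k : ℤ)) ∈ colS ((k : ℤ) + 1)} ↔ -s.2 + 0 = (k : ℤ) + 1 := Iff.rfl
    rw [e1, e2]
    omega
  rw [h0, a2_up, h1, P_Ex_tr, h2, h3]

end Pool.Agent.GRP
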