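import Pool.Agent.GRP.Defs

/-!
# [GRP-B1] exploration in a fresh copy (lower bound)

`S ω` is the finite set of the sites explored from `ω` on the event `A` (the event `A` and the set `S` are
determined by the values of `ω` on `S ω`); if for every `ω ∈ A` and every `ω' ∈ B` the environment equal to `ω` on
`S ω` and to `ω'` elsewhere is in `G`, then `P A * P B ≤ P G`.

PROOF. For a finset `D` and a pattern `c : {s // s ∈ D} → Fin 3` (finitely many for each `D`, and countably many `D`)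
let `E D c = {ω | ω ∈ A ∧ S ω = D ∧ ∀ s : {s // s ∈ D}, ω s = c s}`.  These sets are pairwise disjoint and their union
is `A`.  By `hS`, if `E D c` contains some `ω₀` then it is the whole cylinder `{ω | ∀ s ∈ D, ω s = ω₀ s}` (for `ω` in the
cylinder: `ω ∈ A` and `S ω = S ω₀ = D`).  In this case let `J = {ω | modEnv D ω₀ ω ∈ G}` (measurable by
`measurable_modEnv`, independent of the sites of `D`, and `B ⊆ J` by `h`).  On the cylinder `modEnv D ω₀ ω = ω`, so
`G ∩ E D c = J ∩ E D c`, and `P_inter_cyl` gives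
`P (G ∩ E D c) = P J * 3^(-|D|) ≥ P B * 3^(-|D|) = P B * P (E D c)` (`P_inter_cyl` with `J = univ`).
Sum over `(D, c)` (`measure_iUnion`, `ENNReal.tsum_mul_left`).
-/

namespace Pool.Agent.GRP

open Pool.Agent.GRW MeasureTheory Filter Topology

/-- the pattern of the explored sites -/
noncomputable def b1_key (S : Env → Finset (ℤ × ℤ)) (ω : Env) : Finset ((ℤ × ℤ) × Fin 3) :=
  (S ω).image fun s => (s, ω s)

theorem b1_key_eq (S : Env → Finset (ℤ × ℤ)) (ω ω₀ : Env) :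
    b1_key S ω = b1_key S ω₀ ↔ (S ω = S ω₀ ∧ ∀ s ∈ S ω₀, ω s = ω₀ s) := by
  constructor
  · intro h
    have h1 : ∀ s, s ∈ S ω ↔ s ∈ S ω₀ := by
      intro s
      constructor
      · intro hs
        have h2 : (s, ω s) ∈ b1_key S ω₀ := by
          rw [← h]
          exact Finset.mem_image_of_mem _ hs
        obtain ⟨t, ht, hts⟩ := Finset.mem_image.1 h2
        rw [Prod.mk.injEq] at hts
        rw [← hts.1]
        exact ht
      · intro hs
        have h2 : (s, ω₀ s) ∈ b1_key S ω := by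
          rw [h]
          exact Finset.mem_image_of_mem _ hs
        obtain ⟨t, ht, hts⟩ := Finset.mem_image.1 h2
        rw [Prod.mk.injEq] at hts
        rw [← hts.1]
        exact ht
    refine ⟨Finset.ext h1, fun s hs => ?_⟩
    have h2 : (s, ω₀ s) ∈ b1_key S ω := by
      rw [h]
      exact Finset.mem_image_of_mem _ hs
    obtain ⟨t, ht, hts⟩ := Finset.mem_image.1 h2
    rw [Prod.mk.injEq] at hts
    rw [← hts.2, hts.1]
  · rintro ⟨h1, h2⟩
    unfold b1_key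
    rw [h1]
    exact Finset.image_congr fun s hs => by rw [h2 s hs]

theorem b1_cell (S : Env → Finset (ℤ × ℤ)) {A B G : Set Env} (hG : MeasurableSet G)
    (hS : ∀ ω ∈ A, ∀ ω' : Env, (∀ s ∈ S ω, ω' s = ω s) → ω' ∈ A ∧ S ω' = S ω)
    (h : ∀ ω ∈ A, ∀ ω' ∈ B, modEnv (S ω) ω ω' ∈ G) (i : Finset ((ℤ × ℤ) × Fin 3)) :
    MeasurableSet (A ∩ b1_key S ⁻¹' {i}) ∧
      P (A ∩ b1_key S ⁻¹' {i}) * P B ≤ P (G ∩ (A ∩ b1_key S ⁻¹' {i})) := by
  by_cases hne : (A ∩ b1_key S ⁻¹' {i}).Nonempty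
  · obtain ⟨ω₀, hω₀, hi⟩ := hne
    have hi' : b1_key S ω₀ = i := hi
    have hcyl : A ∩ b1_key S ⁻¹' {i} = {ω | ∀ s ∈ S ω₀, ω s = ω₀ s} := by
      ext ω
      constructor
      · rintro ⟨_, h2⟩
        have h3 : b1_key S ω = i := h2
        rw [← hi'] at h3
        exact ((b1_key_eq S ω ω₀).1 h3).2
      · intro hω
        obtain ⟨h2, h3⟩ := hS ω₀ hω₀ ω hω
        refine ⟨h2, ?_⟩
        show b1_key S ω = i
        rw [← hi']
        exact (b1_key_eq S ω ω₀).2 ⟨h3, hω⟩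
    rw [hcyl]
    have hm : MeasurableSet {ω : Env | ∀ s ∈ S ω₀, ω s = ω₀ s} := c1_meas_cyl (S ω₀) ω₀
    refine ⟨hm, ?_⟩
    set J : Set Env := (modEnv (S ω₀) ω₀) ⁻¹' G with hJ
    have hJm : MeasurableSet J := measurable_modEnv (S ω₀) ω₀ hG
    have hJD : ∀ ω ω' : Env, (∀ s, s ∉ S ω₀ → ω s = ω' s) → (ω ∈ J ↔ ω' ∈ J) := by
      intro ω ω' hωω'
      have h2 : modEnv (S ω₀) ω₀ ω = modEnv (S ω₀) ω₀ ω' := by
        funext u
        unfold modEnv
        by_cases hu : u ∈ S ω₀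
        · rw [if_pos hu, if_pos hu]
        · rw [if_neg hu, if_neg hu, hωω' u hu]
      show modEnv (S ω₀) ω₀ ω ∈ G ↔ modEnv (S ω₀) ω₀ ω' ∈ G
      rw [h2]
    have hBJ : B ⊆ J := fun ω' hω' => h ω₀ hω₀ ω' hω'
    have hGJ : G ∩ {ω : Env | ∀ s ∈ S ω₀, ω s = ω₀ s} = J ∩ {ω : Env | ∀ s ∈ S ω₀, ω s = ω₀ s} := by
      ext ω
      refine and_congr_left fun hω => ?_
      have h2 : modEnv (S ω₀) ω₀ ω = ω := by
        funext u
        unfold modEnv
        by_cases hu : u ∈ S ω₀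
        · rw [if_pos hu]
          exact (hω u hu).symm
        · rw [if_neg hu]
      show ω ∈ G ↔ modEnv (S ω₀) ω₀ ω ∈ G
      rw [h2]
    have h4 := P_inter_cyl (S ω₀) (J := Set.univ) MeasurableSet.univ (fun _ _ _ => Iff.rfl) ω₀
    rw [Set.univ_inter, measure_univ, one_mul] at h4
    rw [hGJ, P_inter_cyl (S ω₀) hJm hJD ω₀, h4, mul_comm]
    exact mul_le_mul_left (measure_mono hBJ) _
  · rw [Set.not_nonempty_iff_eq_empty] at hne
    rw [hne]
    refine ⟨MeasurableSet.empty, ?_⟩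
    rw [measure_empty, zero_mul]
    exact zero_le

theorem fresh_lower (S : Env → Finset (ℤ × ℤ)) {A B G : Set Env} (hA : MeasurableSet A)
    (hG : MeasurableSet G)
    (hS : ∀ ω ∈ A, ∀ ω' : Env, (∀ s ∈ S ω, ω' s = ω s) → ω' ∈ A ∧ S ω' = S ω)
    (h : ∀ ω ∈ A, ∀ ω' ∈ B, modEnv (S ω) ω ω' ∈ G) : P A * P B ≤ P G := by
  have hcell := b1_cell S hG hS h
  have hU : A = ⋃ i, A ∩ b1_key S ⁻¹' {i} := by
    ext ω
    rw [Set.mem_iUnion]
    exact ⟨fun hω => ⟨b1_key S ω, hω, rfl⟩, fun ⟨i, hi⟩ => hi.1⟩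
  have hdis : Pairwise (Function.onFun Disjoint fun i => G ∩ (A ∩ b1_key S ⁻¹' {i})) := by
    intro i j hij
    rw [Function.onFun, Set.disjoint_left]
    rintro ω ⟨_, _, h1⟩ ⟨_, _, h2⟩
    exact hij ((show b1_key S ω = i from h1).symm.trans h2)
  have h1 : P A ≤ ∑' i, P (A ∩ b1_key S ⁻¹' {i}) := by
    conv_lhs => rw [hU]
    exact measure_iUnion_le _
  calc P A * P B ≤ (∑' i, P (A ∩ b1_key S ⁻¹' {i})) * P B := by gcongr
    _ = ∑' i, P (A ∩ b1_key S ⁻¹' {i}) * P B := ENNReal.tsum_mul_right.symm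
    _ ≤ ∑' i, P (G ∩ (A ∩ b1_key S ⁻¹' {i})) := ENNReal.tsum_le_tsum fun i => (hcell i).2
    _ = P (⋃ i, G ∩ (A ∩ b1_key S ⁻¹' {i})) :=
      (measure_iUnion hdis fun i => hG.inter (hcell i).1).symm
    _ ≤ P G := measure_mono (Set.iUnion_subset fun i => Set.inter_subset_left)

end Pool.Agent.GRP
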