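import Pool.Agent.GRP.Defs

/-!
# [GRP-B2] switching at one site (upper bound)

PROOF. `G ⊆ ⋃ v ∈ Q, ⋃ c, U v c` with `U v c = {ω | Function.update ω v c ∈ T}`.  `U v c` is measurable and does not
depend on the site `v`, so `P (U v c) = 3 * P (U v c ∩ {ω | ω v = c})` (`P_single`), and on `{ω v = c}` one has
`update ω v c = ω`, so `U v c ∩ {ω v = c} = T ∩ {ω v = c}`.  Hence
`∑ c, P (U v c) = 3 * ∑ c, P (T ∩ {ω | ω v = c}) = 3 * P T`; sum over `v ∈ Q` (`measure_biUnion_finset_le`).
-/

namespace Pool.Agent.GRP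

open Pool.Agent.GRW MeasureTheory Filter Topology

theorem b2_meas (v : ℤ × ℤ) (c : Fin 3) : Measurable fun ω : Env => Function.update ω v c := by
  refine measurable_pi_lambda _ fun s => ?_
  by_cases hs : s = v
  · subst hs
    simp only [Function.update_self]
    exact measurable_const
  · simp only [Function.update_of_ne hs]
    exact measurable_pi_apply s

theorem b2_site {T : Set Env} (hT : MeasurableSet T) (v : ℤ × ℤ) (c : Fin 3) :
    P {ω | Function.update ω v c ∈ T} = 3 * P (T ∩ {ω | ω v = c}) := by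
  have hU : MeasurableSet {ω : Env | Function.update ω v c ∈ T} := b2_meas v c hT
  have h1 := P_single v hU (fun ω c' => by
    simp only [Set.mem_ofPred_eq, Function.update_idem]) c
  have h2 : {ω : Env | Function.update ω v c ∈ T} ∩ {ω | ω v = c} = T ∩ {ω | ω v = c} := by
    ext ω
    simp only [Set.mem_inter_iff, Set.mem_ofPred_eq]
    refine and_congr_left fun h3 => ?_
    have h4 : Function.update ω v c = ω := by
      rw [← h3]
      exact Function.update_eq_self v ω
    rw [h4]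
  rw [h2] at h1
  rw [h1, mul_comm, mul_assoc, ENNReal.inv_mul_cancel (by norm_num) (by norm_num), mul_one]

theorem b2_sum {T : Set Env} (hT : MeasurableSet T) (v : ℤ × ℤ) :
    ∑ c : Fin 3, P {ω | Function.update ω v c ∈ T} ≤ 3 * P T := by
  simp only [b2_site hT]
  rw [← Finset.mul_sum, ← measure_biUnion_finset]
  · gcongr
    intro ω hω
    rw [Set.mem_iUnion₂] at hω
    obtain ⟨c, -, hc⟩ := hω
    exact hc.1
  · intro c _ c' _ hcc
    refine Set.disjoint_left.2 fun ω h1 h2 => hcc ?_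
    rw [← h1.2, ← h2.2]
  · intro c _
    exact hT.inter (c1_meas_site v c)

theorem switch_upper {G T : Set Env} (hT : MeasurableSet T) (Q : Finset (ℤ × ℤ))
    (h : ∀ ω ∈ G, ∃ v ∈ Q, ∃ c : Fin 3, Function.update ω v c ∈ T) :
    P G ≤ 3 * (Q.card : ENNReal) * P T := by
  have h1 : G ⊆ ⋃ v ∈ Q, ⋃ c ∈ (Finset.univ : Finset (Fin 3)), {ω | Function.update ω v c ∈ T} := by
    intro ω hω
    obtain ⟨v, hv, c, hc⟩ := h ω hω
    rw [Set.mem_iUnion₂]
    exact ⟨v, hv, Set.mem_iUnion₂.2 ⟨c, Finset.mem_univ c, hc⟩⟩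
  calc P G ≤ P (⋃ v ∈ Q, ⋃ c ∈ (Finset.univ : Finset (Fin 3)), {ω | Function.update ω v c ∈ T}) :=
        measure_mono h1
    _ ≤ ∑ v ∈ Q, P (⋃ c ∈ (Finset.univ : Finset (Fin 3)), {ω | Function.update ω v c ∈ T}) :=
        measure_biUnion_finset_le Q _
    _ ≤ ∑ v ∈ Q, 3 * P T := by
        refine Finset.sum_le_sum fun v _ => (measure_biUnion_finset_le _ _).trans (b2_sum hT v)
    _ = 3 * (Q.card : ENNReal) * P T := by
        rw [Finset.sum_const, nsmul_eq_mul]
        ring

end Pool.Agent.GRP
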