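import Pool.Agent.GRP.Defs
import Pool.Agent.GRW.A2

/-!
# [GRP-B3] surgery: two trails through a common site are joined by one switch

`z` arrives at the site `v` for the first time at time `m`, `e` arrives at `v` for the first time at time `l`, coming
from a different neighbour.  After a suitable change of `ω` at `v` the trail from `z` follows the old one up to `v`
and then the trail of `e` backwards.

PROOF. Let `a = (orb ω z (m-1)).2 + 2` and `b = (orb ω e (l-1)).2 + 2`.  By `orb_base_succ` and `dv_add_two`,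
`(orb ω z (m-1)).1 = v + dv a` and `(orb ω e (l-1)).1 = v + dv b`, so `a ≠ b` by `hne`; choose `c` with `pr c a = b`
(`pr_exists`) and let `ω' = Function.update ω v c`.
`orb ω' z i = orb ω z i` for `i < m`: `orb_congr_le` with `N = m - 1` (the sites at times `1..m-1` are not `v`), and the
site at time `m` is `v` (`orb_base_succ`).  Moreover `orb ω' z m = F ω' (orb ω z (m-1)) = (v, pr c a) = (v, b)`.
`F ω' (v, b) = (v + dv b, pr (ω' (v + dv b)) (b + 2))` with `v + dv b = (orb ω e (l-1)).1 ≠ v` (for `l = 1` this is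
`e.1 ≠ v`, for `l > 1` it is `he`), and `b + 2 = (orb ω e (l-1)).2`; so `orb ω' z (m+1) = R ω (orb ω e (l-1))`
(`R ω x = (x.1, pr (ω x.1) x.2)`).
For `j < l`: `orb ω (R ω (orb ω e (l-1))) j = R ω (orb ω e (l-1-j))` by `orb_R`, whose sites are
`(orb ω e (l-1-j)).1 ≠ v`, so the same holds for `ω'` (`orb_congr_le`); use `orb_add`.
-/

namespace Pool.Agent.GRP

open Pool.Agent.GRW

theorem surgery {ω : Env} {z e : Dart} {m l : ℕ} (hm : 0 < m) (hl : 0 < l)
    (hv : (orb ω z m).1 = (orb ω e l).1)
    (hz : ∀ i, 0 < i → i < m → (orb ω z i).1 ≠ (orb ω e l).1)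
    (he : ∀ i, i < l → (orb ω e i).1 ≠ (orb ω e l).1)
    (hne : (orb ω z (m - 1)).1 ≠ (orb ω e (l - 1)).1) :
    ∃ c : Fin 3,
      (∀ i, i < m → orb (Function.update ω (orb ω e l).1 c) z i = orb ω z i) ∧
      (orb (Function.update ω (orb ω e l).1 c) z m).1 = (orb ω e l).1 ∧
      ∀ j, j < l → orb (Function.update ω (orb ω e l).1 c) z (m + 1 + j) = R ω (orb ω e (l - 1 - j)) := by
  obtain ⟨m', rfl⟩ : ∃ m', m = m' + 1 := ⟨m - 1, by omega⟩
  obtain ⟨l', rfl⟩ : ∃ l', l = l' + 1 := ⟨l - 1, by omega⟩
  have hm1 : m' + 1 - 1 = m' := by omega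
  have hl1 : l' + 1 - 1 = l' := by omega
  rw [hm1, hl1] at hne
  rw [hl1]
  generalize hvv : (orb ω e (l' + 1)).1 = v at *
  have hx : (orb ω z m').1 + dv (orb ω z m').2 = v := by rw [← orb_base_succ]; exact hv
  have hy : (orb ω e l').1 + dv (orb ω e l').2 = v := by rw [← orb_base_succ]; exact hvv
  have hab : (orb ω z m').2 + 2 ≠ (orb ω e l').2 + 2 := by
    intro h
    have h1 : (orb ω z m').2 = (orb ω e l').2 := add_right_cancel h
    apply hne
    rw [h1] at hx
    exact add_right_cancel (hx.trans hy.symm)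
  obtain ⟨c, hc⟩ := pr_exists _ _ hab
  have h1 : ∀ i, i < m' + 1 → orb (Function.update ω v c) z i = orb ω z i := by
    intro i hi
    apply orb_congr_le m'
    · intro n hn hnm
      exact Function.update_of_ne (hz n hn (by omega)) _ _
    · omega
  have h2 : orb (Function.update ω v c) z (m' + 1) = (v, (orb ω e l').2 + 2) := by
    rw [orb_succ, h1 m' (by omega)]
    simp only [F]
    rw [hx, Function.update_self, hc]
  have h3 : orb (Function.update ω v c) z (m' + 1 + 1) = R ω (orb ω e l') := by
    rw [orb_succ, h2]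
    simp only [F, R]
    have h4 : v + dv ((orb ω e l').2 + 2) = (orb ω e l').1 := by
      rw [dv_add_two, ← hy, add_neg_cancel_right]
    rw [h4, add_two_add_two, Function.update_of_ne (he l' (by omega))]
  refine ⟨c, h1, ?_, ?_⟩
  · rw [h2]
  · intro j hj
    rw [orb_add, h3]
    have h5 : orb (Function.update ω v c) (R ω (orb ω e l')) j = orb ω (R ω (orb ω e l')) j := by
      apply orb_congr_le l'
      · intro n hn hnl
        rw [orb_R ω e hnl]
        exact Function.update_of_ne (he (l' - n) (by omega)) _ _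
      · omega
    rw [h5, orb_R ω e (by omega)]

end Pool.Agent.GRP
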