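import Pool.Agent.GRP.A1
import Pool.Agent.GRP.B1
import Pool.Agent.GRP.B2
import Pool.Agent.GRP.B3

/-!
# [GRP-B4] two trails which would have to meet are joined (uses the statements of A1, B1, B2, B3)

`α` = trail from `z`, stays in `Q₁` and leaves to `W₁`; `β` = trail from `e`, stays in `Q₂` and leaves to `W₂`; `hcross`:
any two such trails (even for two different environments) have a common site.

PROOF. `A = {ω | Ex ω Q₁ z W₁}`, `B = {ω | Ex ω Q₂ e W₂}`.  For `ω ∈ A` let `n(ω)` be the least witness of `Ex` and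
`S ω = {(orb ω z i).1 | 0 < i ≤ n(ω)} ⊆ Q₁` (a finset; `∅` if `ω ∉ A`).  If `ω' = ω` on `S ω` then `orb ω' z i = orb ω z i` for
`i ≤ n(ω)` (`orb_congr_le`), so `n(ω)` is also the least witness for `ω'` and `S ω' = S ω`: this is `hS` of `fresh_lower`.
`G` = set of the `ω` for which there are `m, l` with `0 < m`, `0 < l`, `(orb ω z i).1 ∈ Q₁` for `0 < i ≤ m`,
`(orb ω e j).1 ∈ Q₂` for `0 < j ≤ l`, `(orb ω z m).1 = (orb ω e l).1`, `(orb ω z i).1 ≠ (orb ω e l).1` for `0 < i < m`, and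
`(orb ω z i).1 ≠ (orb ω e j).1` for `0 < i ≤ m`, `0 < j < l`.
-/

namespace Pool.Agent.GRP

open Pool.Agent.GRW MeasureTheory Filter Topology

open scoped Classical in
/-- the sites of the trail up to its exit -/
noncomputable def b4S (Q : Set (ℤ × ℤ)) (z : Dart) (W : Set (ℤ × ℤ)) (ω : Env) : Finset (ℤ × ℤ) :=
  if h : Ex ω Q z W then (Finset.Icc 1 (Nat.find h)).image fun i => (orb ω z i).1 else ∅

open scoped Classical in
theorem b4_S_congr {Q : Set (ℤ × ℤ)} {z : Dart} {W : Set (ℤ × ℤ)} {ω ω' : Env} (h : Ex ω Q z W)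
    (hs : ∀ s ∈ b4S Q z W ω, ω' s = ω s) : Ex ω' Q z W ∧ b4S Q z W ω' = b4S Q z W ω := by
  have hS : b4S Q z W ω = (Finset.Icc 1 (Nat.find h)).image fun i => (orb ω z i).1 := by
    unfold b4S
    rw [dif_pos h]
  obtain ⟨h1, h2⟩ := Nat.find_spec h
  set n := Nat.find h with hn
  have hag : ∀ i ≤ n, orb ω' z i = orb ω z i := by
    refine orb_congr_le n fun i hi hin => hs _ ?_
    rw [hS]
    exact Finset.mem_image.2 ⟨i, Finset.mem_Icc.2 ⟨hi, hin⟩, rfl⟩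
  have hsite : ∀ i ≤ n + 1, (orb ω' z i).1 = (orb ω z i).1 := by
    intro i hi
    rcases Nat.lt_or_ge i (n + 1) with h3 | h3
    · rw [hag i (by omega)]
    · obtain rfl : i = n + 1 := by omega
      rw [orb_base_succ, orb_base_succ, hag n le_rfl]
  have h' : Ex ω' Q z W := ⟨n, fun i hi hin => by rw [hsite i (by omega)]; exact h1 i hi hin,
    by rw [hsite (n + 1) le_rfl]; exact h2⟩
  have hfind : Nat.find h' = n := by
    refine le_antisymm (Nat.find_min' h' ⟨fun i hi hin => by rw [hsite i (by omega)]; exact h1 i hi hin,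
      by rw [hsite (n + 1) le_rfl]; exact h2⟩) ?_
    by_contra hlt
    push Not at hlt
    obtain ⟨k1, k2⟩ := Nat.find_spec h'
    refine Nat.find_min h hlt ⟨fun i hi hin => ?_, ?_⟩
    · rw [← hsite i (by omega)]
      exact k1 i hi hin
    · rw [← hsite _ (by omega)]
      exact k2
  refine ⟨h', ?_⟩
  rw [hS]
  unfold b4S
  rw [dif_pos h', hfind]
  refine Finset.image_congr fun i hi => ?_
  have := (Finset.mem_Icc.1 hi).2
  exact hsite i (by omega)

/-- the good event: the trails of `z` and `e` meet -/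
def b4G (Q₁ Q₂ : Set (ℤ × ℤ)) (z e : Dart) (m l : ℕ) : Set Env :=
  {ω | (∀ i, 0 < i → i ≤ m → (orb ω z i).1 ∈ Q₁) ∧ (∀ j, 0 < j → j ≤ l → (orb ω e j).1 ∈ Q₂) ∧
    (orb ω z m).1 = (orb ω e l).1 ∧ (∀ i, 0 < i → i < m → (orb ω z i).1 ≠ (orb ω e l).1) ∧
    ∀ i j, 0 < i → i ≤ m → 0 < j → j < l → (orb ω z i).1 ≠ (orb ω e j).1}

theorem b4_meas_site (z : Dart) (i : ℕ) : Measurable fun ω : Env => (orb ω z i).1 :=
  measurable_fst.comp (measurable_orb measurable_const i)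

theorem b4_meas_eq (z e : Dart) (i j : ℕ) : MeasurableSet {ω : Env | (orb ω z i).1 = (orb ω e j).1} :=
by
  have e1 : {ω : Env | (orb ω z i).1 = (orb ω e j).1} =
      ⋃ s : ℤ × ℤ, ((fun ω : Env => (orb ω z i).1) ⁻¹' {s} ∩ (fun ω : Env => (orb ω e j).1) ⁻¹' {s}) := by
    ext ω
    simp only [Set.mem_ofPred_eq, Set.mem_iUnion, Set.mem_inter_iff, Set.mem_preimage,
      Set.mem_singleton_iff]
    exact ⟨fun h => ⟨_, h, rfl⟩, fun ⟨s, h1, h2⟩ => h1.trans h2.symm⟩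
  rw [e1]
  exact MeasurableSet.iUnion fun s => (b4_meas_site z i (measurableSet_singleton s)).inter
    (b4_meas_site e j (measurableSet_singleton s))

theorem b4_meas_mem (z : Dart) (i : ℕ) (Q : Set (ℤ × ℤ)) : MeasurableSet {ω : Env | (orb ω z i).1 ∈ Q} :=
  b4_meas_site z i (Set.to_countable Q).measurableSet

theorem b4_meas_G (Q₁ Q₂ : Set (ℤ × ℤ)) (z e : Dart) (m l : ℕ) :
    MeasurableSet (b4G Q₁ Q₂ z e m l) := by
  have e1 : b4G Q₁ Q₂ z e m l =
      (⋂ i : ℕ, ⋂ (_ : 0 < i), ⋂ (_ : i ≤ m), {ω | (orb ω z i).1 ∈ Q₁}) ∩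
      ((⋂ j : ℕ, ⋂ (_ : 0 < j), ⋂ (_ : j ≤ l), {ω | (orb ω e j).1 ∈ Q₂}) ∩
      ({ω | (orb ω z m).1 = (orb ω e l).1} ∩
      ((⋂ i : ℕ, ⋂ (_ : 0 < i), ⋂ (_ : i < m), {ω | (orb ω z i).1 = (orb ω e l).1}ᶜ) ∩
      (⋂ i : ℕ, ⋂ j : ℕ, ⋂ (_ : 0 < i), ⋂ (_ : i ≤ m), ⋂ (_ : 0 < j), ⋂ (_ : j < l),
        {ω | (orb ω z i).1 = (orb ω e j).1}ᶜ)))) := by
    ext ω
    simp only [b4G, Set.mem_inter_iff, Set.mem_iInter, Set.mem_compl_iff, Set.mem_ofPred_eq, ne_eq]
  rw [e1]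
  refine MeasurableSet.inter ?_ (MeasurableSet.inter ?_ (MeasurableSet.inter (b4_meas_eq z e m l)
    (MeasurableSet.inter ?_ ?_)))
  · exact MeasurableSet.iInter fun i => MeasurableSet.iInter fun _ => MeasurableSet.iInter fun _ =>
      b4_meas_mem z i Q₁
  · exact MeasurableSet.iInter fun i => MeasurableSet.iInter fun _ => MeasurableSet.iInter fun _ =>
      b4_meas_mem e i Q₂
  · exact MeasurableSet.iInter fun i => MeasurableSet.iInter fun _ => MeasurableSet.iInter fun _ =>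
      (b4_meas_eq z e i l).compl
  · exact MeasurableSet.iInter fun i => MeasurableSet.iInter fun j => MeasurableSet.iInter fun _ =>
      MeasurableSet.iInter fun _ => MeasurableSet.iInter fun _ => MeasurableSet.iInter fun _ =>
      (b4_meas_eq z e i j).compl

/-- one switch at the first common site joins the two trails -/
theorem b4_switch {Q₁ Q₂ : Finset (ℤ × ℤ)} {z e : Dart} (hz2 : z.1 ∉ Q₂) (he1 : e.1 ∉ Q₁)
    (hze : z.1 ≠ e.1) {m l : ℕ} (hm : 0 < m) (hl : 0 < l) {ω : Env} (h : ω ∈ b4G Q₁ Q₂ z e m l) :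
    ∃ v ∈ Q₁, ∃ c : Fin 3, Ex (Function.update ω v c) ((Q₁ : Set (ℤ × ℤ)) ∪ Q₂) z {e.1} := by
  obtain ⟨g1, g2, g3, g4, g5⟩ := h
  have hv : (orb ω e l).1 ∈ Q₁ := by
    rw [← g3]
    exact g1 m hm le_rfl
  have he : ∀ i, i < l → (orb ω e i).1 ≠ (orb ω e l).1 := by
    intro i hi
    rcases Nat.eq_zero_or_pos i with rfl | hi0
    · intro h
      rw [orb_zero] at h
      rw [← h] at hv
      exact he1 hv
    · rw [← g3]
      exact (g5 m i hm le_rfl hi0 hi).symm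
  have hne : (orb ω z (m - 1)).1 ≠ (orb ω e (l - 1)).1 := by
    rcases Nat.eq_zero_or_pos (m - 1) with h1 | h1
    · rw [h1, orb_zero]
      rcases Nat.eq_zero_or_pos (l - 1) with h2 | h2
      · rw [h2, orb_zero]
        exact hze
      · intro h
        rw [h] at hz2
        exact hz2 (g2 (l - 1) h2 (by omega))
    · rcases Nat.eq_zero_or_pos (l - 1) with h2 | h2
      · rw [h2, orb_zero]
        intro h
        rw [← h] at he1
        exact he1 (g1 (m - 1) h1 (by omega))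
      · exact g5 (m - 1) (l - 1) h1 (by omega) h2 (by omega)
  obtain ⟨c, s1, s2, s3⟩ := surgery hm hl g3 g4 he hne
  refine ⟨(orb ω e l).1, hv, c, m + l - 1, ?_, ?_⟩
  · intro i hi hin
    rcases lt_trichotomy i m with h1 | h1 | h1
    · rw [s1 i h1]
      exact Or.inl (g1 i hi h1.le)
    · rw [h1, s2]
      exact Or.inl hv
    · have e1 : i = m + 1 + (i - m - 1) := by omega
      rw [e1, s3 (i - m - 1) (by omega)]
      exact Or.inr (g2 (l - 1 - (i - m - 1)) (by omega) (by omega))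
  · have e1 : m + l - 1 + 1 = m + 1 + (l - 1) := by omega
    rw [e1, s3 (l - 1) (by omega), Nat.sub_self, orb_zero]
    rfl

open scoped Classical in
theorem meet_switch {Q₁ Q₂ : Finset (ℤ × ℤ)} {z e : Dart} {W₁ W₂ : Set (ℤ × ℤ)}
    (hz2 : z.1 ∉ Q₂) (he1 : e.1 ∉ Q₁) (hze : z.1 ≠ e.1)
    (hcross : ∀ (ω ω' : Env) (n n' : ℕ), (∀ i, 0 < i → i ≤ n → (orb ω z i).1 ∈ Q₁) →
      (orb ω z (n + 1)).1 ∈ W₁ → (∀ i, 0 < i → i ≤ n' → (orb ω' e i).1 ∈ Q₂) →
      (orb ω' e (n' + 1)).1 ∈ W₂ →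
      ∃ i j, 0 < i ∧ i ≤ n ∧ 0 < j ∧ j ≤ n' ∧ (orb ω z i).1 = (orb ω' e j).1) :
    P {ω | Ex ω Q₁ z W₁} * P {ω | Ex ω Q₂ e W₂} ≤
      3 * (Q₁.card : ENNReal) * P {ω | Ex ω ((Q₁ : Set (ℤ × ℤ)) ∪ Q₂) z {e.1}} := by
  let G : Set Env := ⋃ m : ℕ, ⋃ l : ℕ, ⋃ (_ : 0 < m ∧ 0 < l), b4G Q₁ Q₂ z e m l
  have hG : MeasurableSet G := MeasurableSet.iUnion fun m => MeasurableSet.iUnion fun l =>
    MeasurableSet.iUnion fun _ => b4_meas_G _ _ z e m l
  have h1 : P {ω | Ex ω Q₁ z W₁} * P {ω | Ex ω Q₂ e W₂} ≤ P G := by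
    refine fresh_lower (b4S Q₁ z W₁) (measurableSet_Ex _ _ _) hG
      (fun ω hω ω' hs => b4_S_congr hω hs) ?_
    rintro ω hω' ω' ⟨n', k1, k2⟩
    have hω : Ex ω Q₁ z W₁ := hω'
    have hS : b4S Q₁ z W₁ ω = (Finset.Icc 1 (Nat.find hω)).image fun i => (orb ω z i).1 := by
      unfold b4S
      rw [dif_pos hω]
    obtain ⟨h1, h2⟩ := Nat.find_spec hω
    set n := Nat.find hω with hn
    set S := b4S Q₁ z W₁ ω with hSdef
    have hin : ∀ s ∈ S, modEnv S ω ω' s = ω s := fun s hs => by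
      unfold modEnv
      rw [if_pos hs]
    have hout : ∀ s, s ∉ S → modEnv S ω ω' s = ω' s := fun s hs => by
      unfold modEnv
      rw [if_neg hs]
    have hmemS : ∀ i, 0 < i → i ≤ n → (orb ω z i).1 ∈ S := fun i hi hin => by
      rw [hS]
      exact Finset.mem_image.2 ⟨i, Finset.mem_Icc.2 ⟨hi, hin⟩, rfl⟩
    have hz : ∀ i ≤ n, orb (modEnv S ω ω') z i = orb ω z i :=
      orb_congr_le n fun i hi hin' => hin _ (hmemS i hi hin')
    obtain ⟨i₀, j₀, a1, a2, a3, a4, a5⟩ := hcross ω ω' n n' h1 h2 k1 k2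
    have hex : ∃ j, 0 < j ∧ (orb ω' e j).1 ∈ S := ⟨j₀, a3, by rw [← a5]; exact hmemS i₀ a1 a2⟩
    obtain ⟨b1, b2⟩ := Nat.find_spec hex
    have b3 : Nat.find hex ≤ n' := (Nat.find_min' hex ⟨a3, by rw [← a5]; exact hmemS i₀ a1 a2⟩).trans a4
    have b4 : ∀ j, 0 < j → j < Nat.find hex → (orb ω' e j).1 ∉ S := fun j hj hlt hmem =>
      Nat.find_min hex hlt ⟨hj, hmem⟩
    set l := Nat.find hex with hldef
    have he : ∀ j ≤ l - 1, orb (modEnv S ω ω') e j = orb ω' e j :=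
      orb_congr_le (l - 1) fun j hj hjl => hout _ (b4 j hj (by omega))
    have hel : (orb (modEnv S ω ω') e l).1 = (orb ω' e l).1 := by
      obtain ⟨k, hk⟩ : ∃ k, l = k + 1 := ⟨l - 1, by omega⟩
      rw [hk, orb_base_succ, orb_base_succ, he k (by omega)]
    have hes : ∀ j ≤ l, (orb (modEnv S ω ω') e j).1 = (orb ω' e j).1 := by
      intro j hj
      rcases Nat.lt_or_ge j l with h3 | h3
      · rw [he j (by omega)]
      · obtain rfl : j = l := by omega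
        exact hel
    have hex2 : ∃ i, 0 < i ∧ i ≤ n ∧ (orb ω z i).1 = (orb ω' e l).1 := by
      have b2' := b2
      rw [hS] at b2'
      obtain ⟨i, hi, hi'⟩ := Finset.mem_image.1 b2'
      rw [Finset.mem_Icc] at hi
      exact ⟨i, hi.1, hi.2, hi'⟩
    obtain ⟨c1, c2, c3⟩ := Nat.find_spec hex2
    have c4 : ∀ i, 0 < i → i < Nat.find hex2 → (orb ω z i).1 ≠ (orb ω' e l).1 := fun i hi hlt heq =>
      Nat.find_min hex2 hlt ⟨hi, by omega, heq⟩
    refine Set.mem_iUnion.2 ⟨Nat.find hex2, Set.mem_iUnion.2 ⟨l, Set.mem_iUnion.2 ⟨⟨c1, b1⟩,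
      ?_, ?_, ?_, ?_, ?_⟩⟩⟩
    · intro i hi him
      rw [hz i (by omega)]
      exact h1 i hi (by omega)
    · intro j hj hjl
      rw [hes j hjl]
      exact k1 j hj (by omega)
    · rw [hz _ c2, hel]
      exact c3
    · intro i hi him
      rw [hz i (by omega), hel]
      exact c4 i hi him
    · intro i j hi him hj hjl heq
      rw [hz i (by omega), hes j hjl.le] at heq
      refine b4 j hj hjl ?_
      rw [← heq]
      exact hmemS i hi (by omega)
  refine h1.trans (switch_upper (measurableSet_Ex _ _ _) Q₁ ?_)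
  intro ω hω
  obtain ⟨m, hω⟩ := Set.mem_iUnion.1 hω
  obtain ⟨l, hω⟩ := Set.mem_iUnion.1 hω
  obtain ⟨⟨hm, hl⟩, hω⟩ := Set.mem_iUnion.1 hω
  exact b4_switch hz2 he1 hze hm hl hω

end Pool.Agent.GRP
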