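import Pool.Agent.GRP.Defs

/-!
# [GRP-B5] a discrete Jordan type lemma: parity of the crossings of a horizontal ray (pure combinatorics)

`wind p N q` counts the steps `i < N` of the path `p` which go up or down between the rows `q.2` and `q.2 + 1` in a
column strictly to the right of `q`.

PROOFS. One step of `b` changes `q` to a neighbour `q'`; both are avoided by `p`.
* Horizontal step, `q' = q + (1,0)` (the other direction is symmetric): a step of `p` counted for `q` but not for `q'` is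
  the vertical step in column `q.1 + 1` between the rows `q.2`, `q.2 + 1`, which has the end point `q'`; so `wind` is equal.
* Vertical step, `q' = q + (0,1)` (symmetric for the other direction): let `S = {(x, q.2 + 1) | q.1 < x}`.  For `i < N` let
  `c i = 1` if exactly one of `p i`, `p (i+1)` is in `S`, else `0`.  Then `∑ c i ≡ [p 0 ∈ S] + [p N ∈ S]` mod 2 (induction on `N`),
  and `p 0, p N ∉ S` by `h0`, `hN` (the row `q.2 + 1` satisfies `lo < q.2 + 1 ≤ hi` by `hrow` for `q` and `q'`).  A unit step with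
  exactly one end point in `S` is either vertical between the rows `q.2, q.2+1` to the right of `q` (counted by
  `wind p N q`), or vertical between the rows `q.2+1, q.2+2` to the right (counted by `wind p N q'`), or horizontal between
  the columns `q.1` and `q.1 + 1` in row `q.2 + 1`, which has the end point `q'`: impossible.  The first two kinds are
  disjoint, so `wind p N q + wind p N q' ≡ 0` mod 2.
`wind_path`: induction on `M`.
`wind_height`: if `p` starts in a row `≤ y` and ends in a row `> y` then the number of steps between the rows `y` and `y+1`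
is odd; if all these steps are to the right of the column `x`, `wind p N (x,y)` is odd.
-/

namespace Pool.Agent.GRP

open Pool.Agent.GRW

/-- number of vertical steps of `p` between the rows `q.2` and `q.2 + 1` to the right of `q` -/
noncomputable def wind (p : ℕ → ℤ × ℤ) (N : ℕ) (q : ℤ × ℤ) : ℕ := by
  classical exact ((Finset.range N).filter fun i => (p i).1 = (p (i + 1)).1 ∧ q.1 < (p i).1 ∧
    (((p i).2 = q.2 ∧ (p (i + 1)).2 = q.2 + 1) ∨ ((p i).2 = q.2 + 1 ∧ (p (i + 1)).2 = q.2))).card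

theorem b5_wind (p : ℕ → ℤ × ℤ) (N : ℕ) (q : ℤ × ℤ) :
    wind p N q = ∑ i ∈ Finset.range N, (if (p i).1 = (p (i + 1)).1 ∧ q.1 < (p i).1 ∧
    (((p i).2 = q.2 ∧ (p (i + 1)).2 = q.2 + 1) ∨ ((p i).2 = q.2 + 1 ∧ (p (i + 1)).2 = q.2)) then 1 else 0) := by
  classical
  unfold wind
  rw [Finset.card_filter]

theorem b5_sum (f g : ℕ → ℕ) (N : ℕ) (h : ∀ i < N, (f i + g i + g (i + 1)) % 2 = 0) :
    ((∑ i ∈ Finset.range N, f i) + g 0 + g N) % 2 = 0 := by
  induction N with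
  | zero => rw [Finset.sum_range_zero]; omega
  | succ n ih =>
    rw [Finset.sum_range_succ]
    have h1 := ih (fun i hi => h i (by omega))
    have h2 := h n (by omega)
    omega

/-- the coordinates of a unit step -/
theorem b5_step {s s' : ℤ × ℤ} (h : ∃ d : Fin 4, s' = s + dv d) :
    (s'.1 = s.1 + 1 ∧ s'.2 = s.2) ∨ (s'.1 = s.1 ∧ s'.2 = s.2 + 1) ∨
      (s'.1 = s.1 - 1 ∧ s'.2 = s.2) ∨ (s'.1 = s.1 ∧ s'.2 = s.2 - 1) := by
  obtain ⟨d, hd⟩ := h
  subst hd
  fin_cases d <;> simp [dv] <;> omega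

theorem b5_horiz {p : ℕ → ℤ × ℤ} {N : ℕ} {q q' : ℤ × ℤ} (h1 : q'.1 = q.1 + 1) (h2 : q'.2 = q.2)
    (hp : ∀ i < N, ∃ d : Fin 4, p (i + 1) = p i + dv d)
    (hne : ∀ i ≤ N, p i ≠ q') : wind p N q = wind p N q' := by
  rw [b5_wind, b5_wind]
  refine Finset.sum_congr rfl (fun i hi => ?_)
  rw [Finset.mem_range] at hi
  have h3 := b5_step (hp i hi)
  have h4 : ¬ ((p i).1 = q'.1 ∧ (p i).2 = q'.2) := fun h => hne i hi.le (Prod.ext h.1 h.2)
  have h5 : ¬ ((p (i + 1)).1 = q'.1 ∧ (p (i + 1)).2 = q'.2) := fun h => hne (i + 1) hi (Prod.ext h.1 h.2)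
  rw [h1, h2] at *
  generalize (p i).1 = a at *
  generalize (p i).2 = b at *
  generalize (p (i + 1)).1 = c at *
  generalize (p (i + 1)).2 = d at *
  split_ifs <;> omega

theorem b5_vert {p : ℕ → ℤ × ℤ} {N : ℕ} {q q' : ℤ × ℤ} (h1 : q'.1 = q.1) (h2 : q'.2 = q.2 + 1)
    (hp : ∀ i < N, ∃ d : Fin 4, p (i + 1) = p i + dv d)
    (hne : ∀ i ≤ N, p i ≠ q') (h0 : (p 0).2 ≠ q'.2) (hN : (p N).2 ≠ q'.2) :
    wind p N q % 2 = wind p N q' % 2 := by
  have key := b5_sum (fun i => (if (p i).1 = (p (i + 1)).1 ∧ q.1 < (p i).1 ∧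
      (((p i).2 = q.2 ∧ (p (i + 1)).2 = q.2 + 1) ∨ ((p i).2 = q.2 + 1 ∧ (p (i + 1)).2 = q.2)) then 1 else 0) +
      (if (p i).1 = (p (i + 1)).1 ∧ q'.1 < (p i).1 ∧
      (((p i).2 = q'.2 ∧ (p (i + 1)).2 = q'.2 + 1) ∨ ((p i).2 = q'.2 + 1 ∧ (p (i + 1)).2 = q'.2)) then 1 else 0))
    (fun i => if q.1 < (p i).1 ∧ (p i).2 = q'.2 then 1 else 0) N ?_
  · rw [Finset.sum_add_distrib, ← b5_wind, ← b5_wind] at key
    simp only [h0, hN, and_false, if_false, Nat.add_zero] at key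
    omega
  · intro i hi
    have h3 := b5_step (hp i hi)
    have h4 : ¬ ((p i).1 = q'.1 ∧ (p i).2 = q'.2) := fun h => hne i hi.le (Prod.ext h.1 h.2)
    have h5 : ¬ ((p (i + 1)).1 = q'.1 ∧ (p (i + 1)).2 = q'.2) := fun h => hne (i + 1) hi (Prod.ext h.1 h.2)
    rw [h1, h2] at *
    generalize (p i).1 = a at *
    generalize (p i).2 = b at *
    generalize (p (i + 1)).1 = c at *
    generalize (p (i + 1)).2 = d at *
    split_ifs <;> omega

theorem b5_one {p : ℕ → ℤ × ℤ} {N : ℕ} {q q' : ℤ × ℤ} {lo hi : ℤ} (hd : ∃ d : Fin 4, q' = q + dv d)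
    (hp : ∀ i < N, ∃ d : Fin 4, p (i + 1) = p i + dv d)
    (hne : ∀ i ≤ N, p i ≠ q) (hne' : ∀ i ≤ N, p i ≠ q')
    (hq : lo ≤ q.2 ∧ q.2 ≤ hi) (hq' : lo ≤ q'.2 ∧ q'.2 ≤ hi)
    (h0 : (p 0).2 ≤ lo ∨ hi < (p 0).2) (hN : (p N).2 ≤ lo ∨ hi < (p N).2) :
    wind p N q % 2 = wind p N q' % 2 := by
  rcases b5_step hd with ⟨h1, h2⟩ | ⟨h1, h2⟩ | ⟨h1, h2⟩ | ⟨h1, h2⟩
  · rw [b5_horiz h1 h2 hp hne']
  · exact b5_vert h1 h2 hp hne' (by omega) (by omega)
  · rw [b5_horiz (q := q') (q' := q) (by omega) h2.symm hp hne]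
  · exact (b5_vert (q := q') (q' := q) h1.symm (by omega) hp hne (by omega) (by omega)).symm

theorem wind_path {p b : ℕ → ℤ × ℤ} {N M : ℕ} {lo hi : ℤ}
    (hp : ∀ i < N, ∃ d : Fin 4, p (i + 1) = p i + dv d)
    (hb : ∀ j < M, ∃ d : Fin 4, b (j + 1) = b j + dv d)
    (hne : ∀ i ≤ N, ∀ j ≤ M, p i ≠ b j)
    (hrow : ∀ j ≤ M, lo ≤ (b j).2 ∧ (b j).2 ≤ hi)
    (h0 : (p 0).2 ≤ lo ∨ hi < (p 0).2) (hN : (p N).2 ≤ lo ∨ hi < (p N).2) :
    wind p N (b 0) % 2 = wind p N (b M) % 2 := by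
  induction M with
  | zero => rfl
  | succ m ih =>
    rw [ih (fun j hj => hb j (by omega)) (fun i hi j hj => hne i hi j (by omega))
      (fun j hj => hrow j (by omega))]
    exact b5_one (hb m (by omega)) hp (fun i hi => hne i hi m (by omega))
      (fun i hi => hne i hi (m + 1) le_rfl) (hrow m (by omega)) (hrow (m + 1) le_rfl) h0 hN

theorem wind_height {p : ℕ → ℤ × ℤ} {N : ℕ} {q : ℤ × ℤ}
    (hp : ∀ i < N, ∃ d : Fin 4, p (i + 1) = p i + dv d)
    (h0 : (p 0).2 ≤ q.2) (hN : q.2 < (p N).2) (hr : ∀ i ≤ N, q.1 < (p i).1) :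
    wind p N q % 2 = 1 := by
  have key := b5_sum (fun i => (if (p i).1 = (p (i + 1)).1 ∧ q.1 < (p i).1 ∧
      (((p i).2 = q.2 ∧ (p (i + 1)).2 = q.2 + 1) ∨ ((p i).2 = q.2 + 1 ∧ (p (i + 1)).2 = q.2)) then 1 else 0))
    (fun i => if q.2 < (p i).2 then 1 else 0) N ?_
  · rw [← b5_wind] at key
    simp only [hN, if_true, not_lt.2 h0, if_false] at key
    omega
  · intro i hi
    have h3 := b5_step (hp i hi)
    have h4 := hr i hi.le
    have h5 := hr (i + 1) hi
    generalize (p i).1 = a at *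
    generalize (p i).2 = b at *
    generalize (p (i + 1)).1 = c at *
    generalize (p (i + 1)).2 = d at *
    split_ifs <;> omega

end Pool.Agent.GRP
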