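import Pool.Agent.GRP.B5

/-!
# [GRP-B6] crossing paths have a common site (uses the statements of B5)

PROOFS.
`cross_square`: suppose there is no such pair `(i, j)`.  Then `p i ≠ b j` for all `i ≤ N`, `j ≤ M`: `p 0` is in row `-1` and `p N` in
row `2k+1`, all `b j` are in rows `0..2k`; `b 0` is in column `-k-1` and `b M` in column `k+1`, all `p i` are in columns `-k..k`.
`wind_path` with `lo = 0`, `hi = 2k` gives `wind p N (b 0) ≡ wind p N (b M)`.  `wind p N (b M) = 0` (no site of `p` is to the right of
column `k + 1`), and `wind p N (b 0)` is odd by `wind_height` (all columns of `p` are `> -k-1`; `-1 ≤ (b 0).2 < 2k+1`).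
`cross_arcs`: suppose there is no such pair.  Again `p i ≠ b j` for all `i ≤ N`, `j ≤ M`: the end points are the four different
sites `(x, -1)`, `(x', -1)`, `(y, -1)`, `(y', -1)` in row `-1` and all other sites are in rows `≥ 0`.  `wind_path` with `lo = -1` and
`hi` a bound of the rows of `b`.  A vertical step of `p` between the rows `-1` and `0` is one of the steps `0` (column
`x`) and `N - 1` (column `x'`), because the sites at times `1..N-1` are in rows `≥ 0`; both are such steps (`2 ≤ N`, unit steps, the
first goes from row `-1` to a row `≥ 0`), and they are different.  Since `y' < x < y < x'`: `wind p N (b 0) = wind p N (y, -1) = 1`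
and `wind p N (b M) = wind p N (y', -1) = 2`: contradiction.
-/

namespace Pool.Agent.GRP

open Pool.Agent.GRW

theorem cross_square {p b : ℕ → ℤ × ℤ} {N M : ℕ} {k : ℤ} (hk : 0 ≤ k)
    (hp : ∀ i < N, ∃ d : Fin 4, p (i + 1) = p i + dv d)
    (hb : ∀ j < M, ∃ d : Fin 4, b (j + 1) = b j + dv d)
    (hp0 : (p 0).2 = -1) (hpN : (p N).2 = 2 * k + 1)
    (hpc : ∀ i ≤ N, -k ≤ (p i).1 ∧ (p i).1 ≤ k)
    (hb0 : (b 0).1 = -k - 1) (hbM : (b M).1 = k + 1)
    (hbr : ∀ j ≤ M, 0 ≤ (b j).2 ∧ (b j).2 ≤ 2 * k) :
    ∃ i j, 0 < i ∧ i < N ∧ 0 < j ∧ j < M ∧ p i = b j := by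
  by_contra hcon
  have hne : ∀ i ≤ N, ∀ j ≤ M, p i ≠ b j := by
    intro i hi j hj hij
    apply hcon
    have hr := hbr j hj
    have hc := hpc i hi
    have e1 : (p i).1 = (b j).1 := by rw [hij]
    have e2 : (p i).2 = (b j).2 := by rw [hij]
    have i0 : i ≠ 0 := by
      rintro rfl
      omega
    have iN : i ≠ N := by
      rintro rfl
      omega
    have j0 : j ≠ 0 := by
      rintro rfl
      omega
    have jM : j ≠ M := by
      rintro rfl
      omega
    exact ⟨i, j, by omega, by omega, by omega, by omega, hij⟩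
  have h1 := wind_path (lo := 0) (hi := 2 * k) hp hb hne hbr (Or.inl (by omega)) (Or.inr (by omega))
  have h2 : wind p N (b M) = 0 := by
    unfold wind
    rw [Finset.card_eq_zero]
    apply Finset.filter_eq_empty_iff.2
    intro i hi h
    have hc := hpc i (by have := Finset.mem_range.1 hi; omega)
    omega
  have h3 : wind p N (b 0) % 2 = 1 := by
    have hr := hbr 0 (Nat.zero_le M)
    apply wind_height hp
    · omega
    · omega
    · intro i hi
      have hc := hpc i hi
      omega
  rw [h2] at h1
  omega

theorem b6_dv_up {d : Fin 4} (h : 1 ≤ (dv d).2) : dv d = (0, 1) := by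
  revert h
  revert d
  decide

theorem b6_dv_down {d : Fin 4} (h : (dv d).2 ≤ -1) : dv d = (0, -1) := by
  revert h
  revert d
  decide

theorem cross_arcs {p b : ℕ → ℤ × ℤ} {N M : ℕ} {x x' y y' : ℤ} (hN2 : 2 ≤ N) (hM2 : 2 ≤ M)
    (h1 : y' < x) (h2 : x < y) (h3 : y < x')
    (hp : ∀ i < N, ∃ d : Fin 4, p (i + 1) = p i + dv d)
    (hb : ∀ j < M, ∃ d : Fin 4, b (j + 1) = b j + dv d)
    (hp0 : p 0 = (x, -1)) (hpN : p N = (x', -1)) (hb0 : b 0 = (y, -1)) (hbM : b M = (y', -1))
    (hpr : ∀ i, 0 < i → i < N → 0 ≤ (p i).2) (hbr : ∀ j, 0 < j → j < M → 0 ≤ (b j).2) :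
    ∃ i j, 0 < i ∧ i < N ∧ 0 < j ∧ j < M ∧ p i = b j := by
  by_contra hcon
  have hne : ∀ i ≤ N, ∀ j ≤ M, p i ≠ b j := by
    intro i hi j hj hij
    rcases Nat.eq_zero_or_pos i with i0 | i0
    · subst i0
      rcases Nat.eq_zero_or_pos j with j0 | j0
      · subst j0
        rw [hp0, hb0, Prod.mk.injEq] at hij
        omega
      · rcases eq_or_lt_of_le hj with j1 | j1
        · subst j1
          rw [hp0, hbM, Prod.mk.injEq] at hij
          omega
        · have := hbr j j0 j1
          rw [← hij, hp0] at this
          norm_num at this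
    · rcases eq_or_lt_of_le hi with i1 | i1
      · subst i1
        rcases Nat.eq_zero_or_pos j with j0 | j0
        · subst j0
          rw [hpN, hb0, Prod.mk.injEq] at hij
          omega
        · rcases eq_or_lt_of_le hj with j1 | j1
          · subst j1
            rw [hpN, hbM, Prod.mk.injEq] at hij
            omega
          · have := hbr j j0 j1
            rw [← hij, hpN] at this
            norm_num at this
      · have hi0 := hpr i i0 i1
        rcases Nat.eq_zero_or_pos j with j0 | j0
        · subst j0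
          rw [hij, hb0] at hi0
          norm_num at hi0
        · rcases eq_or_lt_of_le hj with j1 | j1
          · subst j1
            rw [hij, hbM] at hi0
            norm_num at hi0
          · exact hcon ⟨i, j, i0, i1, j0, j1, hij⟩
  obtain ⟨hi, hhi⟩ := ((Finset.range (M + 1)).image (fun j => (b j).2)).exists_le
  have hrow : ∀ j ≤ M, -1 ≤ (b j).2 ∧ (b j).2 ≤ hi := by
    intro j hj
    constructor
    · rcases Nat.eq_zero_or_pos j with j0 | j0
      · subst j0
        rw [hb0]
      · rcases eq_or_lt_of_le hj with j1 | j1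
        · subst j1
          rw [hbM]
        · have := hbr j j0 j1
          omega
    · apply hhi
      exact Finset.mem_image.2 ⟨j, Finset.mem_range.2 (by omega), rfl⟩
  have hp0' : (p 0).2 = -1 := by rw [hp0]
  have hp0'' : (p 0).1 = x := by rw [hp0]
  have hpN' : (p N).2 = -1 := by rw [hpN]
  have hpN'' : (p N).1 = x' := by rw [hpN]
  have hw := wind_path (lo := -1) (hi := hi) hp hb hne hrow (Or.inl (le_of_eq hp0'))
    (Or.inl (le_of_eq hpN'))
  -- the last step
  have hlast : (p (N - 1)).1 = x' ∧ (p (N - 1)).2 = 0 := by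
    obtain ⟨d, hd⟩ := hp (N - 1) (by omega)
    have e : N - 1 + 1 = N := by omega
    rw [e] at hd
    have h4 := hpr (N - 1) (by omega) (by omega)
    have h5 : (p N).2 = (p (N - 1)).2 + (dv d).2 := by rw [hd]; rfl
    have h6 : (p N).1 = (p (N - 1)).1 + (dv d).1 := by rw [hd]; rfl
    have h7 := b6_dv_down (d := d) (by omega)
    rw [h7] at h5 h6
    simp only at h5 h6
    omega
  have hfirst : (p 1).1 = x ∧ (p 1).2 = 0 := by
    obtain ⟨d, hd⟩ := hp 0 (by omega)
    have e : 0 + 1 = 1 := rfl
    rw [e] at hd
    have h4 := hpr 1 (by omega) (by omega)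
    have h5 : (p 1).2 = (p 0).2 + (dv d).2 := by rw [hd]; rfl
    have h6 : (p 1).1 = (p 0).1 + (dv d).1 := by rw [hd]; rfl
    have h7 := b6_dv_up (d := d) (by omega)
    rw [h7] at h5 h6
    simp only at h5 h6
    omega
  have hw1 : wind p N (b 0) = 1 := by
    unfold wind
    rw [Finset.card_eq_one]
    refine ⟨N - 1, ?_⟩
    ext i
    rw [Finset.mem_filter, Finset.mem_range, Finset.mem_singleton, hb0]
    simp only
    constructor
    · rintro ⟨a1, a2, a3, a4⟩
      by_contra hi1
      rcases Nat.eq_zero_or_pos i with i0 | i0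
      · subst i0
        omega
      · have q1 := hpr i i0 a1
        have q2 := hpr (i + 1) (by omega) (by omega)
        omega
    · intro hi1
      have e : N - 1 + 1 = N := by omega
      subst hi1
      rw [e]
      omega
  have hw2 : wind p N (b M) = 2 := by
    unfold wind
    rw [Finset.card_eq_two]
    refine ⟨0, N - 1, by omega, ?_⟩
    ext i
    rw [Finset.mem_filter, Finset.mem_range, Finset.mem_insert, Finset.mem_singleton, hbM]
    simp only
    constructor
    · rintro ⟨a1, a2, a3, a4⟩
      by_contra hi1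
      have q1 := hpr i (by omega) a1
      have q2 := hpr (i + 1) (by omega) (by omega)
      omega
    · rintro (hi1 | hi1)
      · subst hi1
        rw [zero_add]
        omega
      · have e : N - 1 + 1 = N := by omega
        subst hi1
        rw [e]
        omega
  rw [hw1, hw2] at hw
  omega

end Pool.Agent.GRP
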