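import Pool.Agent.GRP.A1

/-!
# [GRP-C1] the periodised environment

PROOFS. `red r x = (x + r) % (2 r + 1) - r` (`Int.emod_nonneg`, `Int.emod_lt_of_pos`, `Int.emod_eq_of_lt`, `Int.add_mul_emod_self`).
`orb_per`: for a periodic `ω` one has `shift (j (2r+1), 0) ω = ω`; use `orb_tr`.
`P_per_shift`: for `a = 1`: let `e : ℤ × ℤ ≃ ℤ × ℤ` be the bijection `(x, y) ↦ (red r (x+1), y)` for `|x| ≤ r` and the identity for
`|x| > r` (inverse: `x ↦ red r (x - 1)` for `|x| ≤ r`).  `c3_reindex e` is measure preserving, and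
`per r (fun s => ω (e s)) = shift (1, 0) (per r ω)` (at `(x, y)`: `ω (e (red r x, y)) = ω (red r (red r x + 1), y) = ω (red r (x+1), y)`).
Induction for general `a` (natural and negative `a`, or: `P_per_shift 1` gives the statement for `B` and `shift`-preimages of `B`).
Use that `{B}` is arbitrary measurable.
-/

namespace Pool.Agent.GRP

open Pool.Agent.GRW MeasureTheory Filter Topology

theorem red_mem (r : ℕ) (x : ℤ) : -(r : ℤ) ≤ red r x ∧ red r x ≤ r := by
  have h1 := Int.emod_nonneg (x + r) (b := 2 * (r : ℤ) + 1) (by omega)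
  have h2 := Int.emod_lt_of_pos (x + r) (b := 2 * (r : ℤ) + 1) (by omega)
  unfold red
  omega

theorem red_eq_self {r : ℕ} {x : ℤ} (h : |x| ≤ (r : ℤ)) : red r x = x := by
  have h1 := abs_le.1 h
  unfold red
  rw [Int.emod_eq_of_lt (by omega) (by omega)]
  ring

theorem red_add_period (r : ℕ) (x j : ℤ) : red r (x + j * (2 * r + 1)) = red r x := by
  unfold red
  have h1 : x + j * (2 * (r : ℤ) + 1) + r = x + r + j * (2 * (r : ℤ) + 1) := by ring
  rw [h1, Int.add_mul_emod_self_right]

/-- `x` and `red r x` differ by a multiple of the period -/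
theorem red_dvd (r : ℕ) (x : ℤ) : ∃ j : ℤ, x = red r x + j * (2 * r + 1) := by
  refine ⟨(x + r) / (2 * r + 1), ?_⟩
  have h1 := Int.emod_add_mul_ediv (x + r) (2 * (r : ℤ) + 1)
  unfold red
  linear_combination -h1

theorem isPer_per (r : ℕ) (ω : Env) : IsPer r (per r ω) := by
  intro s
  have h1 := red_add_period r s.1 1
  rw [one_mul] at h1
  unfold per
  simp only [h1]

theorem per_eq {r : ℕ} {ω : Env} {s : ℤ × ℤ} (h : |s.1| ≤ (r : ℤ)) : per r ω s = ω s := by
  unfold per
  rw [red_eq_self h]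

theorem measurable_per (r : ℕ) : Measurable (per r) :=
  measurable_pi_lambda _ fun s => measurable_pi_apply (red r s.1, s.2)

theorem c1_shift {r : ℕ} {ω : Env} (h : IsPer r ω) (j : ℤ) (s : ℤ × ℤ) :
    ω (s.1 + j * (2 * r + 1), s.2) = ω s := by
  induction j using Int.induction_on with
  | zero => simp
  | succ i ih =>
    have h1 := h (s.1 + i * (2 * r + 1), s.2)
    simp only at h1
    rw [← ih, ← h1]
    congr 2
    ring
  | pred i ih =>
    have h1 := h (s.1 + (-i - 1) * (2 * r + 1), s.2)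
    simp only at h1
    rw [← h1, ← ih]
    congr 2
    ring

theorem orb_per {r : ℕ} {ω : Env} (h : IsPer r ω) (j : ℤ) (z : Dart) (n : ℕ) :
    orb ω (tr (j * (2 * r + 1), 0) z) n = tr (j * (2 * r + 1), 0) (orb ω z n) := by
  have h1 : shift (j * (2 * r + 1), 0) ω = ω := by
    funext s
    have h2 := c1_shift h j s
    unfold shift
    rw [← h2]
    congr 1
    ext <;> simp
  rw [orb_tr, h1]

theorem c1_red_red (r : ℕ) (x a : ℤ) : red r (red r x + a) = red r (x + a) := by
  obtain ⟨j, hj⟩ := red_dvd r x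
  have h1 := red_add_period r (red r x + a) j
  rw [← h1]
  congr 1
  linear_combination -hj

/-- the rotation of the columns `-r, ..., r` -/
def c1_map (r : ℕ) (a : ℤ) (s : ℤ × ℤ) : ℤ × ℤ := if |s.1| ≤ (r : ℤ) then (red r (s.1 + a), s.2) else s

theorem c1_map_map (r : ℕ) (a b : ℤ) (hab : a + b = 0) (s : ℤ × ℤ) : c1_map r a (c1_map r b s) = s := by
  unfold c1_map
  by_cases h1 : |s.1| ≤ (r : ℤ)
  · rw [if_pos h1]
    have h2 : |red r (s.1 + b)| ≤ (r : ℤ) := abs_le.2 (red_mem r _)
    rw [if_pos h2]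
    simp only
    rw [c1_red_red]
    have h3 : s.1 + b + a = s.1 := by linear_combination hab
    rw [h3, red_eq_self h1]
  · rw [if_neg h1, if_neg h1]

def c1_equiv (r : ℕ) (a : ℤ) : ℤ × ℤ ≃ ℤ × ℤ where
  toFun := c1_map r a
  invFun := c1_map r (-a)
  left_inv := c1_map_map r (-a) a (by ring)
  right_inv := c1_map_map r a (-a) (by ring)

theorem c1_per (r : ℕ) (a : ℤ) (ω : Env) :
    shift (a, 0) (per r ω) = per r (fun s => ω (c1_equiv r a s)) := by
  funext s
  change ω (red r (s + (a, 0)).1, (s + (a, 0)).2) = ω (c1_map r a (red r s.1, s.2))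
  unfold c1_map
  have h2 : |red r s.1| ≤ (r : ℤ) := abs_le.2 (red_mem r _)
  simp only [h2, if_true]
  rw [c1_red_red]
  congr 1
  ext <;> simp

theorem P_per_shift (r : ℕ) (a : ℤ) {B : Set Env} (hB : MeasurableSet B) :
    P {ω | shift (a, 0) (per r ω) ∈ B} = P {ω | per r ω ∈ B} := by
  have h1 : {ω | shift (a, 0) (per r ω) ∈ B} =
      (fun (ω : Env) s => ω (c1_equiv r a s)) ⁻¹' {ω | per r ω ∈ B} := by
    ext ω
    simp only [Set.mem_ofPred_eq, Set.mem_preimage]
    rw [c1_per]
  rw [h1]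
  exact (c3_reindex (c1_equiv r a)).measure_preimage (measurable_per r hB).nullMeasurableSet

/-- the exit probability of a horizontally translated dart in the periodised environment -/
theorem P_per_Ex (r : ℕ) (a : ℤ) (Q W : Set (ℤ × ℤ)) (z : Dart) :
    P {ω | Ex (per r ω) Q (tr (a, 0) z) W} =
      P {ω | Ex (per r ω) {s | s + (a, 0) ∈ Q} z {s | s + (a, 0) ∈ W}} := by
  have h1 := P_per_shift r a (measurableSet_Ex {s | s + (a, 0) ∈ Q} {s | s + (a, 0) ∈ W} z)
  simp only [Set.mem_ofPred_eq] at h1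
  rw [← h1]
  congr 1
  ext ω
  exact Ex_tr (per r ω) Q W z (a, 0)

end Pool.Agent.GRP
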