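import Pool.Agent.GRP.C1
import Pool.Agent.GRW.D1

/-!
# [GRP-C2a] strands in a horizontally periodic strip (deterministic, uses the statements of C1)

PROOFS. Let `ω` have period `n = 2 r + 1`.
`hit_or_ret`: suppose neither holds.  By induction on `i`, for all `i > 0` the row at time `i` is in `[0, H)`: a step leaving the
strip upwards gives `Hit` (`d1_enter`), a step leaving it downwards (the site is in row `-1` and reached from row `0`) gives `Ret`; at
time `1` the site is `(x, 0)` (for `H = 0`, `Hit ω 0 x x` holds with `n = 0`).  The darts `orb ω (up x) i`, `i > 0`, modulo the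
period are in a finite set (columns mod `n`, rows `0..H-1`, four directions), so for some `i < j` and some integer `a`
`orb ω (up x) j = tr (a n, 0) (orb ω (up x) i) = orb ω (tr (a n, 0) (up x)) i` (`orb_per`); by `orb_add` and
`orb_injective ω i`, `orb ω (up x) (j - i) = tr (a n, 0) (up x)` has row `-1`: contradiction.
`Ret.unique`: if the two times are `m + 1 < m' + 1` then the site at time `m + 1` is in row `-1` but should be in the strip.
`not_hit_of_ret`: the same with the row `H` (if `Hit` at time `N`, the row at time `N + 1` is `H`).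
`Ret.symm`: let `m` be the witness; `1 ≤ m` (the site at time `1` is in row `0`).  The last step goes from row `0` to row `-1`,
so `orb ω (up x) m = ((x', 0), 3)`.  `F ω (up x') = ((x', 0), pr (ω (x', 0)) 3) = R ω ((x', 0), 3)`, so
`orb ω (up x') (1 + j) = orb ω (R ω (orb ω (up x) m)) j = R ω (orb ω (up x) (m - j))` for `j ≤ m` (`orb_R`); the sites are in
the strip for `j < m`, and for `j = m - 1`, `R ω (orb ω (up x) 1) = R ω (F ω (up x))`, and `F_R_F` gives
`orb ω (up x') (m + 1) = F ω (R ω (F ω (up x))) = R ω (up x)`, with site `(x, -1)`.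
`Ret.ne`: suppose `Ret ω H x x`, with witness `m`: as above `orb ω (up x) (1 + j) = R ω (orb ω (up x) (m - j))` for `j ≤ m - 1`.  If `m = 2 l + 1`
take `j = l`: a dart fixed by `R`, contradiction to `R_ne`.  If `m = 2 l` (`l ≥ 1`) take `j = l - 1`:
`orb l = R (orb (l + 1)) = R (F (orb l))`, whose site is that of `F (orb l)`: contradiction to `F_base_ne`.
-/

namespace Pool.Agent.GRP

open Pool.Agent.GRW

theorem c2a_dv3 (d : Fin 4) (h : (dv d).2 = -1) : d = 3 := by
  revert d; decide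

theorem c2a_row_one (ω : Env) (x : ℤ) : (orb ω (up x) 1).1.2 = 0 := by
  rw [d1_row_succ]
  show (-1 : ℤ) + (dv 1).2 = 0
  decide

theorem c2a_last {ω : Env} {H : ℕ} {x x' : ℤ} (h1 : Ret ω H x x') : ∃ m, 0 < m ∧
    (∀ i, 0 < i → i ≤ m → (orb ω (up x) i).1 ∈ rows 0 ((H : ℤ) - 1)) ∧
    ∀ j ≤ m, orb ω (up x') (j + 1) = R ω (orb ω (up x) (m - j)) := by
  obtain ⟨m, hm, hm'⟩ := h1
  have hm0 : 0 < m := by
    rcases Nat.eq_zero_or_pos m with h0 | h0
    · subst h0
      have h2 := c2a_row_one ω x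
      have h3 := congrArg Prod.snd (Set.mem_singleton_iff.1 hm')
      rw [zero_add] at h3
      rw [h2] at h3
      have h4 : (0 : ℤ) = -1 := h3
      omega
    · exact h0
  have h2 := d1_row_succ ω (up x) m
  have h3 := d1_dv (orb ω (up x) m).2
  have h4 : 0 ≤ (orb ω (up x) m).1.2 := (hm m hm0 le_rfl).1
  have h5 : (orb ω (up x) (m + 1)).1 = (x', -1) := Set.mem_singleton_iff.1 hm'
  rw [h5] at h2
  have h6 : (dv (orb ω (up x) m).2).2 = -1 := by
    have : (-1 : ℤ) = (orb ω (up x) m).1.2 + (dv (orb ω (up x) m).2).2 := h2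
    omega
  have h7 := c2a_dv3 _ h6
  have h8 : (orb ω (up x) m).1.2 = 0 := by
    have : (-1 : ℤ) = (orb ω (up x) m).1.2 + (dv (orb ω (up x) m).2).2 := h2
    omega
  have h9 : (orb ω (up x) m).1.1 = x' := by
    have h10 := orb_base_succ ω (up x) m
    rw [h5, h7] at h10
    have h11 := congrArg Prod.fst h10
    have h12 : x' = (orb ω (up x) m).1.1 + (dv 3).1 := h11
    have h13 : (dv 3).1 = 0 := by decide
    omega
  have h10 : orb ω (up x) m = ((x', 0), 3) := Prod.ext (Prod.ext h9 h8) h7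
  have h11 : F ω (up x') = R ω ((x', 0), 3) := by
    have e : ((x', -1) : ℤ × ℤ) + dv 1 = (x', 0) := by
      have e1 : dv 1 = (0, 1) := rfl
      rw [e1, Prod.mk_add_mk, add_zero]
      rfl
    show (((x', -1) : ℤ × ℤ) + dv 1, pr (ω (((x', -1) : ℤ × ℤ) + dv 1)) (1 + 2)) = _
    rw [e]
    rfl
  refine ⟨m, hm0, hm, fun j hj => ?_⟩
  rw [orb_succ', h11, ← h10, orb_R ω (up x) hj]

theorem hit_or_ret {r : ℕ} {ω : Env} (h : IsPer r ω) (H : ℕ) (x : ℤ) :
    (∃ x', Hit ω H x x') ∨ ∃ x', Ret ω H x x' := by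
  by_contra hcon
  rw [not_or] at hcon
  obtain ⟨hH, hR⟩ := hcon
  have key : ∀ n, ∀ i, 0 < i → i ≤ n → 0 ≤ (orb ω (up x) i).1.2 ∧ (orb ω (up x) i).1.2 < H := by
    intro n
    induction n with
    | zero => intro i hi hi'; omega
    | succ n ih =>
      intro i hi hi'
      rcases Nat.lt_or_ge n i with hni | hni
      · have hin : i = n + 1 := by omega
        subst hin
        have h1 : (orb ω (up x) (n + 1)).1.2 ≠ H := by
          intro h2
          exact hH (d1_enter (ω := ω) (h := H) (x := x) (n := n) ih h2)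
        rcases Nat.eq_zero_or_pos n with h0 | h0
        · subst h0
          have h2 := c2a_row_one ω x
          rw [zero_add] at h1 ⊢
          rw [h2] at h1 ⊢
          omega
        · have h2 := ih n h0 le_rfl
          have h3 := d1_row_succ ω (up x) n
          have h4 := d1_dv (orb ω (up x) n).2
          have h5 : (orb ω (up x) (n + 1)).1.2 ≠ -1 := by
            intro h6
            apply hR
            refine ⟨(orb ω (up x) (n + 1)).1.1, n, ?_, ?_⟩
            · intro j hj hj'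
              have h7 := ih j hj hj'
              exact ⟨h7.1, by have := h7.2; omega⟩
            · rw [Set.mem_singleton_iff]
              exact Prod.ext rfl h6
          omega
      · exact ih i hi hni
  have hper : (0 : ℤ) < 2 * r + 1 := by positivity
  obtain ⟨i, j, hij, hg⟩ : ∃ i j : ℕ, i < j ∧
      (((orb ω (up x) (i + 1)).1.1 % (2 * r + 1), (orb ω (up x) (i + 1)).1.2, (orb ω (up x) (i + 1)).2) :
        ℤ × ℤ × Fin 4) =
      ((orb ω (up x) (j + 1)).1.1 % (2 * r + 1), (orb ω (up x) (j + 1)).1.2, (orb ω (up x) (j + 1)).2) := by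
    have hfin : ((Finset.Ico (0 : ℤ) (2 * r + 1) ×ˢ (Finset.Ico (0 : ℤ) H ×ˢ (Finset.univ : Finset (Fin 4))) :
        Finset (ℤ × ℤ × Fin 4)) : Set (ℤ × ℤ × Fin 4)).Finite := Finset.finite_toSet _
    refine hfin.exists_lt_map_eq_of_forall_mem (f := fun i : ℕ =>
      (((orb ω (up x) (i + 1)).1.1 % (2 * r + 1), (orb ω (up x) (i + 1)).1.2, (orb ω (up x) (i + 1)).2) :
        ℤ × ℤ × Fin 4)) (fun i => ?_)
    have h1 := key (i + 1) (i + 1) (by omega) le_rfl
    rw [Finset.mem_coe, Finset.mem_product, Finset.mem_product, Finset.mem_Ico, Finset.mem_Ico]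
    exact ⟨⟨Int.emod_nonneg _ hper.ne', Int.emod_lt_of_pos _ hper⟩, ⟨h1.1, h1.2⟩, Finset.mem_univ _⟩
  have g1 : (orb ω (up x) (i + 1)).1.1 % (2 * r + 1) = (orb ω (up x) (j + 1)).1.1 % (2 * r + 1) :=
    congrArg Prod.fst hg
  have g2 : (orb ω (up x) (i + 1)).1.2 = (orb ω (up x) (j + 1)).1.2 :=
    congrArg (fun z => z.2.1) hg
  have g3 : (orb ω (up x) (i + 1)).2 = (orb ω (up x) (j + 1)).2 :=
    congrArg (fun z => z.2.2) hg
  obtain ⟨a, ha⟩ := Int.ModEq.dvd
    (show (orb ω (up x) (i + 1)).1.1 ≡ (orb ω (up x) (j + 1)).1.1 [ZMOD (2 * r + 1)] from g1)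
  have e1 : orb ω (up x) (j + 1) = tr (a * (2 * r + 1), 0) (orb ω (up x) (i + 1)) := by
    refine Prod.ext (Prod.ext ?_ ?_) g3.symm
    · show (orb ω (up x) (j + 1)).1.1 = (orb ω (up x) (i + 1)).1.1 + a * (2 * r + 1)
      have : (2 * (r : ℤ) + 1) * a = a * (2 * r + 1) := mul_comm _ _
      omega
    · show (orb ω (up x) (j + 1)).1.2 = (orb ω (up x) (i + 1)).1.2 + 0
      omega
  rw [← orb_per h] at e1
  have e2 : orb ω (up x) (j + 1) = orb ω (orb ω (up x) (j - i)) (i + 1) := by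
    rw [← orb_add]
    congr 1
    omega
  rw [e2] at e1
  have e3 := orb_injective ω (i + 1) e1
  have e4 := (key (j - i) (j - i) (by omega) le_rfl).1
  rw [e3] at e4
  have e5 : (0 : ℤ) ≤ -1 + 0 := e4
  omega

theorem Ret.unique {ω : Env} {H : ℕ} {x x' x'' : ℤ} (h1 : Ret ω H x x') (h2 : Ret ω H x x'') :
    x' = x'' := by
  obtain ⟨n, hn, hn'⟩ := h1
  obtain ⟨m, hm, hm'⟩ := h2
  rw [Set.mem_singleton_iff] at hn' hm'
  rcases lt_trichotomy n m with hnm | hnm | hnm
  · have h3 : 0 ≤ (orb ω (up x) (n + 1)).1.2 := (hm (n + 1) (by omega) (by omega)).1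
    rw [hn'] at h3
    have h4 : (0 : ℤ) ≤ -1 := h3
    omega
  · subst hnm
    rw [hn'] at hm'
    exact congrArg Prod.fst hm'
  · have h3 : 0 ≤ (orb ω (up x) (m + 1)).1.2 := (hn (m + 1) (by omega) (by omega)).1
    rw [hm'] at h3
    have h4 : (0 : ℤ) ≤ -1 := h3
    omega

theorem not_hit_of_ret {ω : Env} {H : ℕ} {x x' x'' : ℤ} (h1 : Ret ω H x x') : ¬ Hit ω H x x'' := by
  rintro ⟨n, hn, hn'⟩
  obtain ⟨m, hm, hm'⟩ := h1
  rw [Set.mem_singleton_iff] at hm'
  have e1 : (orb ω (up x) (n + 1)).1.2 = H := by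
    rw [d1_row_succ]
    have e2 : orb ω (up x) n = ((x'', (H : ℤ) - 1), 1) := hn
    rw [e2]
    show (H : ℤ) - 1 + (dv 1).2 = H
    have e3 : (dv 1).2 = 1 := rfl
    rw [e3]
    omega
  have e2 : (orb ω (up x) (m + 1)).1.2 = -1 := by
    rw [hm']
  rcases lt_trichotomy n m with hnm | hnm | hnm
  · have h3 : (orb ω (up x) (n + 1)).1.2 ≤ (H : ℤ) - 1 := (hm (n + 1) (by omega) (by omega)).2
    omega
  · subst hnm
    omega
  · have h3 : 0 ≤ (orb ω (up x) (m + 1)).1.2 := (hn' (m + 1) (by omega) (by omega)).1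
    omega

theorem Ret.symm {ω : Env} {H : ℕ} {x x' : ℤ} (h1 : Ret ω H x x') : Ret ω H x' x := by
  obtain ⟨m, hm0, hm, hk⟩ := c2a_last h1
  refine ⟨m, ?_, ?_⟩
  · intro i hi him
    obtain ⟨j, rfl⟩ : ∃ j, i = j + 1 := ⟨i - 1, by omega⟩
    rw [hk j (by omega)]
    show (orb ω (up x) (m - j)).1 ∈ rows 0 ((H : ℤ) - 1)
    exact hm (m - j) (by omega) (by omega)
  · rw [hk m le_rfl, Nat.sub_self, orb_zero]
    rfl

theorem Ret.ne {ω : Env} {H : ℕ} {x x' : ℤ} (h1 : Ret ω H x x') : x ≠ x' := by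
  intro hxx
  subst hxx
  obtain ⟨m, hm0, hm, hk⟩ := c2a_last h1
  rcases Nat.even_or_odd' m with ⟨l, hl | hl⟩
  · have h2 := hk (l - 1) (by omega)
    have e1 : l - 1 + 1 = l := by omega
    have e2 : m - (l - 1) = l + 1 := by omega
    rw [e1, e2, orb_succ] at h2
    have h3 := congrArg Prod.fst h2
    exact F_base_ne ω (orb ω (up x) l) h3.symm
  · have h2 := hk l (by omega)
    have e2 : m - l = l + 1 := by omega
    rw [e2] at h2
    exact R_ne ω _ h2.symm

end Pool.Agent.GRP
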