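import Pool.Agent.GRP.C2a

/-!
# [GRP-C2b] parity: some strand of the periodic strip reaches the other side (uses the statements of C1, C2a)

PROOFS. `Ret_shift`: `Ex_tr` (`tr (a, 0) (up x) = up (x + a)`).  `Ret_per`, `Hit_per`: for a periodic `ω`, `shift (j (2r+1), 0) ω = ω`
(or `orb_per`).  `Ret.ne_mod`: if `x' = x + j n` then `Ret ω H (x + j n) (x' + j n)` (`Ret_per`) and `Ret ω H x' x` (`Ret.symm`), so `x = x' + j n` by
`Ret.unique`, hence `j n = 0` and `x' = x`, contradiction to `Ret.ne`.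
`exists_hit`: otherwise by `hit_or_ret` (and `Hit`/`Ret` are periodic, `red_dvd`, `red_mem`) every `x` has a unique `f x` with `Ret ω H x (f x)`;
`x ↦ red r (f x)` is an involution of `Finset.Icc (-r) r` (`Ret.symm`, `Ret_per`, `Ret.unique`, `red_add_period`) without fixed points (`Ret.ne_mod`);
but this set has `2r+1` elements, an odd number (for example
`Finset.sum_involution` in `ZMod 2` with the constant function `1` gives `∑ x ∈ Icc (-r) r, (1 : ZMod 2) = 0`).
-/

namespace Pool.Agent.GRP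

open Pool.Agent.GRW

theorem c2b_shift {r : ℕ} {ω : Env} (h : IsPer r ω) (j : ℤ) : shift (j * (2 * r + 1), 0) ω = ω := by
  have h1 : ∀ (j : ℤ) (s : ℤ × ℤ), ω (s.1 + j * (2 * r + 1), s.2) = ω s := by
    intro j
    induction j using Int.induction_on with
    | zero => intro s; simp
    | succ i ih =>
      intro s
      have h2 := h (s.1 + (i : ℤ) * (2 * r + 1), s.2)
      simp only at h2
      rw [← ih s, ← h2]
      congr 2
      ring
    | pred i ih =>
      intro s
      have h2 := h (s.1 + (-(i : ℤ) - 1) * (2 * r + 1), s.2)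
      simp only at h2
      rw [← h2, ← ih s]
      congr 2
      ring
  funext s
  show ω (s + (j * (2 * r + 1), 0)) = ω s
  rw [← h1 j s]
  congr 1
  exact Prod.ext rfl (add_zero _)

theorem Ret_shift (ω : Env) (H : ℕ) (x x' a : ℤ) :
    Ret (shift (a, 0) ω) H x x' ↔ Ret ω H (x + a) (x' + a) := by
  have h1 : tr (a, 0) (up x) = up (x + a) := rfl
  have h2 : {s : ℤ × ℤ | s + (a, 0) ∈ rows 0 ((H : ℤ) - 1)} = rows 0 ((H : ℤ) - 1) := by
    ext s
    show (0 ≤ s.2 + 0 ∧ s.2 + 0 ≤ (H : ℤ) - 1) ↔ (0 ≤ s.2 ∧ s.2 ≤ (H : ℤ) - 1)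
    rw [add_zero]
  have h3 : {s : ℤ × ℤ | s + (a, 0) ∈ ({(x' + a, -1)} : Set (ℤ × ℤ))} = {(x', -1)} := by
    ext s
    show s + (a, 0) = (x' + a, -1) ↔ s = (x', -1)
    constructor
    · intro h
      have e1 : s.1 + a = x' + a := congrArg Prod.fst h
      have e2 : s.2 + 0 = -1 := congrArg Prod.snd h
      exact Prod.ext (add_right_cancel e1) (by rw [← e2, add_zero])
    · rintro rfl
      rfl
  unfold Ret
  rw [← h1, Ex_tr, h2, h3]

theorem Ret_per {r : ℕ} {ω : Env} (h : IsPer r ω) {H : ℕ} {x x' : ℤ} (j : ℤ) (h1 : Ret ω H x x') :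
    Ret ω H (x + j * (2 * r + 1)) (x' + j * (2 * r + 1)) := by
  have h2 := (Ret_shift ω H x x' (j * (2 * r + 1))).1
  rw [c2b_shift h j] at h2
  exact h2 h1

theorem Hit_per {r : ℕ} {ω : Env} (h : IsPer r ω) {H : ℕ} {x x' : ℤ} (j : ℤ) (h1 : Hit ω H x x') :
    Hit ω H (x + j * (2 * r + 1)) (x' + j * (2 * r + 1)) := by
  have h2 := (Hit_shift ω H x x' (j * (2 * r + 1))).1
  rw [c2b_shift h j] at h2
  exact h2 h1

theorem Ret.ne_mod {r : ℕ} {ω : Env} (h : IsPer r ω) {H : ℕ} {x x' : ℤ} (h1 : Ret ω H x x') (j : ℤ) :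
    x' ≠ x + j * (2 * r + 1) := by
  intro h2
  have h3 := Ret_per h j h1
  rw [← h2] at h3
  have h4 := Ret.unique h3 h1.symm
  have h5 : x' = x := by linarith
  exact h1.ne h5.symm

theorem exists_hit {r : ℕ} {ω : Env} (h : IsPer r ω) (H : ℕ) :
    ∃ x x' : ℤ, -(r : ℤ) ≤ x ∧ x ≤ r ∧ Hit ω H x x' := by
  by_contra hcon
  push Not at hcon
  have hno : ∀ x x' : ℤ, ¬ Hit ω H x x' := by
    intro x x' hh
    obtain ⟨j, hj⟩ := red_dvd r x
    have h1 := Hit_per h (-j) hh
    have h2 : x + -j * (2 * r + 1) = red r x := by linarith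
    rw [h2] at h1
    exact hcon _ _ (red_mem r x).1 (red_mem r x).2 h1
  have hret : ∀ x : ℤ, ∃ x', Ret ω H x x' := by
    intro x
    rcases hit_or_ret h H x with ⟨x', hx'⟩ | hx'
    · exact absurd hx' (hno x x')
    · exact hx'
  choose f hf using hret
  have hinv : ∀ x : ℤ, |x| ≤ (r : ℤ) → red r (f (red r (f x))) = x := by
    intro x hx
    obtain ⟨j, hj⟩ := red_dvd r (f x)
    have h1 := Ret_per h (-j) (hf x).symm
    have h2 : f x + -j * (2 * r + 1) = red r (f x) := by linarith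
    rw [h2] at h1
    have h3 := (hf (red r (f x))).unique h1
    rw [h3, red_add_period, red_eq_self hx]
  have hsum : ∑ x ∈ Finset.Icc (-(r : ℤ)) r, (1 : ZMod 2) = 0 := by
    refine Finset.sum_involution (fun x _ => red r (f x)) ?_ ?_ ?_ ?_
    · intro x _
      decide
    · intro x _ _ hx
      obtain ⟨j, hj⟩ := red_dvd r (f x)
      rw [hx] at hj
      exact Ret.ne_mod h (hf x) j hj
    · intro x _
      exact Finset.mem_Icc.2 (red_mem r (f x))
    · intro x hx
      exact hinv x (abs_le.2 (Finset.mem_Icc.1 hx))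
  rw [Finset.sum_const, Int.card_Icc, nsmul_eq_mul, mul_one] at hsum
  have h1 : ((r : ℤ) + 1 - -(r : ℤ)).toNat = 2 * r + 1 := by omega
  rw [h1] at hsum
  push_cast at hsum
  have h2 : (2 : ZMod 2) = 0 := rfl
  rw [h2, zero_mul, zero_add] at hsum
  exact one_ne_zero hsum

end Pool.Agent.GRP
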