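import Pool.Agent.GRP.C2b
import Pool.Agent.GRP.A2

/-!
# [GRP-C3] the Kozma-Sidoravicius bound for the square (uses the statements of C1, C2, A2)

PROOF. Let `H = 2 k + 1` and `q x = P {ω | ∃ x', Hit (per k ω) H x x'}`.  By `exists_hit` (`isPer_per`), for every `ω` some
`x ∈ [-k, k]` has `∃ x', Hit (per k ω) H x x'`, so `1 ≤ ∑ x ∈ Icc (-k) k, q x`; by `Hit_shift` and `P_per_shift` (the event
`{ω | ∃ x', Hit ω H 0 x'}` is measurable, `d3_measurableSet_ex`) `q x = q 0`: `1 ≤ (2k+1) * q 0` (`Int.card_Icc`).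
It remains to show `{ω | ∃ x', Hit (per k ω) H 0 x'} ⊆ {Ex ω (Sq k) (up 0) (rowS (2k+1))} ∪ {Ex ω (Sq k) (up 0) (colS (k+1))} ∪
{Ex ω (Sq k) (up 0) (colS (-k-1))}` (then `pS_left`).  Let `n` be the time in `Hit`: rows in `[0, 2k]` at the times `1..n`, row `2k+1` at
time `n+1`.  If all columns at times `1..n` are in `[-k, k]` then `per k ω = ω` at these sites (`per_eq`), so the
orbits of `up 0` under `ω` and `per k ω` agree up to time `n` (`orb_congr_le`), also the site at time `n + 1`: first event.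
Otherwise let `i ≤ n` be the first time with a column outside `[-k, k]` (`1 < i` since the site at time `1` is `(0,0)`); unit steps give
`|column| = k + 1`; the orbits agree up to time `i - 1` and also the site at time `i`: `Ex` with `n := i - 1`.
-/

namespace Pool.Agent.GRP

open Pool.Agent.GRW MeasureTheory Filter Topology

theorem c3_dv (d : Fin 4) : (dv d).1 ≤ 1 ∧ -1 ≤ (dv d).1 := by
  revert d; decide

theorem c3_incl (k : ℕ) {ω : Env} {x' : ℤ} (h : Hit (per k ω) (2 * k + 1) 0 x') :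
    Ex ω (Sq k) (up 0) (rowS (2 * k + 1)) ∨ Ex ω (Sq k) (up 0) (colS (k + 1)) ∨
      Ex ω (Sq k) (up 0) (colS (-(k : ℤ) - 1)) := by
  obtain ⟨n, hn, hn'⟩ := h
  have hn2 : orb (per k ω) (up 0) n = ((x', ((2 * k + 1 : ℕ) : ℤ) - 1), 1) := hn
  have hn3 : ∀ i, 0 < i → i ≤ n → 0 ≤ (orb (per k ω) (up 0) i).1.2 ∧
      (orb (per k ω) (up 0) i).1.2 < ((2 * k + 1 : ℕ) : ℤ) := hn'
  have hmain : ∀ N ≤ n, (∀ i, 0 < i → i ≤ N → |(orb (per k ω) (up 0) i).1.1| ≤ (k : ℤ)) →
      (∀ i, 0 < i → i ≤ N → (orb ω (up 0) i).1 ∈ ((Sq k : Finset (ℤ × ℤ)) : Set (ℤ × ℤ))) ∧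
      (orb ω (up 0) (N + 1)).1 = (orb (per k ω) (up 0) (N + 1)).1 := by
    intro N hNn hN
    have hag : ∀ i, i ≤ N → orb ω (up 0) i = orb (per k ω) (up 0) i :=
      orb_congr_le N (fun i hi hiN => (per_eq (hN i hi hiN)).symm)
    refine ⟨fun i hi hiN => ?_, ?_⟩
    · rw [hag i hiN, Finset.mem_coe]
      unfold Sq
      rw [mem_rect]
      have h1 := hn3 i hi (by omega)
      have h2 := abs_le.1 (hN i hi hiN)
      push_cast at h1
      exact ⟨h2, h1.1, by omega⟩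
    · rw [orb_base_succ, orb_base_succ, hag N le_rfl]
  by_cases hA : ∀ i, 0 < i → i ≤ n → |(orb (per k ω) (up 0) i).1.1| ≤ (k : ℤ)
  · obtain ⟨h1, h2⟩ := hmain n le_rfl hA
    refine Or.inl ⟨n, h1, ?_⟩
    rw [h2, orb_base_succ, hn2]
    show ((2 * k + 1 : ℕ) : ℤ) - 1 + (dv 1).2 = 2 * (k : ℤ) + 1
    have e3 : (dv 1).2 = 1 := rfl
    rw [e3]
    push_cast
    ring
  · right
    push Not at hA
    classical
    have hex : ∃ i, 0 < i ∧ i ≤ n ∧ (k : ℤ) < |(orb (per k ω) (up 0) i).1.1| := by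
      obtain ⟨i, h1, h2, h3⟩ := hA
      exact ⟨i, h1, h2, h3⟩
    set i := Nat.find hex with hi
    obtain ⟨h1, h2, h3⟩ := Nat.find_spec hex
    rw [← hi] at h1 h2 h3
    have hmin : ∀ j, 0 < j → j < i → |(orb (per k ω) (up 0) j).1.1| ≤ (k : ℤ) := by
      intro j hj hji
      by_contra hcon
      exact Nat.find_min hex hji ⟨hj, by omega, not_le.1 hcon⟩
    obtain ⟨N, hN⟩ : ∃ N, i = N + 1 := ⟨i - 1, by omega⟩
    obtain ⟨h4, h5⟩ := hmain N (by omega) (fun j hj hjN => hmin j hj (by omega))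
    have h6 : |(orb (per k ω) (up 0) N).1.1| ≤ (k : ℤ) := by
      rcases Nat.eq_zero_or_pos N with h0 | h0
      · rw [h0, orb_zero]
        show |(0 : ℤ)| ≤ (k : ℤ)
        rw [abs_zero]
        positivity
      · exact hmin N h0 (by omega)
    have h7 : (orb (per k ω) (up 0) (N + 1)).1.1 =
        (orb (per k ω) (up 0) N).1.1 + (dv (orb (per k ω) (up 0) N).2).1 := by
      rw [orb_base_succ]; rfl
    have h8 := c3_dv (orb (per k ω) (up 0) N).2
    rw [hN] at h3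
    rcases lt_abs.1 h3 with h9 | h9
    · left
      refine ⟨N, h4, ?_⟩
      rw [h5]
      show (orb (per k ω) (up 0) (N + 1)).1.1 = (k : ℤ) + 1
      have := abs_le.1 h6
      omega
    · right
      refine ⟨N, h4, ?_⟩
      rw [h5]
      show (orb (per k ω) (up 0) (N + 1)).1.1 = -(k : ℤ) - 1
      have := abs_le.1 h6
      omega

theorem ks_bound (k : ℕ) : 1 ≤ (2 * (k : ENNReal) + 1) * (pT k + 2 * pS k) := by
  have hq : ∀ x : ℤ, P {ω | ∃ x', Hit (per k ω) (2 * k + 1) x x'} =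
      P {ω | ∃ x', Hit (per k ω) (2 * k + 1) 0 x'} := by
    intro x
    have h1 := P_per_shift k x (d3_measurableSet_ex (2 * k + 1) 0)
    have e1 : {ω : Env | ∃ x', Hit (per k ω) (2 * k + 1) x x'} =
        {ω : Env | shift (x, 0) (per k ω) ∈ {ω : Env | ∃ x', Hit ω (2 * k + 1) 0 x'}} := by
      ext ω
      show (∃ x', Hit (per k ω) (2 * k + 1) x x') ↔ ∃ x', Hit (shift (x, 0) (per k ω)) (2 * k + 1) 0 x'
      constructor
      · rintro ⟨x', hx'⟩
        refine ⟨x' - x, ?_⟩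
        rw [Hit_shift, zero_add, sub_add_cancel]
        exact hx'
      · rintro ⟨x', hx'⟩
        rw [Hit_shift, zero_add] at hx'
        exact ⟨_, hx'⟩
    rw [e1, h1]
    rfl
  have h0 : P {ω | ∃ x', Hit (per k ω) (2 * k + 1) 0 x'} ≤ pT k + 2 * pS k := by
    calc P {ω | ∃ x', Hit (per k ω) (2 * k + 1) 0 x'}
        ≤ P ({ω | Ex ω (Sq k) (up 0) (rowS (2 * k + 1))} ∪ ({ω | Ex ω (Sq k) (up 0) (colS (k + 1))} ∪
            {ω | Ex ω (Sq k) (up 0) (colS (-(k : ℤ) - 1))})) := by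
          apply measure_mono
          rintro ω ⟨x', hx'⟩
          exact c3_incl k hx'
      _ ≤ P {ω | Ex ω (Sq k) (up 0) (rowS (2 * k + 1))} + (P {ω | Ex ω (Sq k) (up 0) (colS (k + 1))} +
            P {ω | Ex ω (Sq k) (up 0) (colS (-(k : ℤ) - 1))}) :=
          (measure_union_le _ _).trans (by gcongr; exact measure_union_le _ _)
      _ = pT k + 2 * pS k := by
          rw [pS_left, two_mul (pS k)]
          rfl
  have h1 : (1 : ENNReal) ≤ ∑ x ∈ Finset.Icc (-(k : ℤ)) k, P {ω | ∃ x', Hit (per k ω) (2 * k + 1) x x'} := by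
    calc (1 : ENNReal) = P Set.univ := measure_univ.symm
      _ ≤ P (⋃ x ∈ Finset.Icc (-(k : ℤ)) k, {ω | ∃ x', Hit (per k ω) (2 * k + 1) x x'}) := by
          apply measure_mono
          intro ω _
          obtain ⟨x, x', h2, h3, h4⟩ := exists_hit (isPer_per k ω) (2 * k + 1)
          simp only [Set.mem_iUnion]
          exact ⟨x, Finset.mem_Icc.2 ⟨h2, h3⟩, x', h4⟩
      _ ≤ _ := measure_biUnion_finset_le _ _
  rw [Finset.sum_congr rfl (fun x _ => hq x), Finset.sum_const, Int.card_Icc] at h1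
  have e2 : ((k : ℤ) + 1 - -(k : ℤ)).toNat = 2 * k + 1 := by omega
  rw [e2, nsmul_eq_mul] at h1
  refine h1.trans ?_
  push_cast
  gcongr

end Pool.Agent.GRP
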