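import Pool.Agent.GRP.C3
import Pool.Agent.GRP.B4
import Pool.Agent.GRP.B6

/-!
# [GRP-D1] the exit probability through a side is at least `1 / (12 (2k+1)^4)` (uses C3, A2, B4, B6)

PROOF. First `pT k ^ 2 ≤ 3 (2k+1)^2 pS k` : `meet_switch` with `Q₁ = Q₂ = Sq k` (`(2k+1)^2` sites), `z = up 0`,
`e = ((-k-1, k), 0)`, `W₁ = rowS (2k+1)`, `W₂ = colS (k+1)`.  `hcross`: `cross_square` with
`p i = (orb ω z i).1`, `N = n + 1`, `b j = (orb ω' e j).1`, `M = n' + 1` (unit steps: `orb_base_succ`; the exit site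
of `p` is above a site of the square, so its column is in `[-k, k]`; the exit site of `b` is to the right of a site of the square
so its row is in `[0, 2k]`; for `n = 0`: the site at time `1` is `(0, 0)`, which is not in `rowS (2k+1)`; for `n' = 0` similarly).
The two probabilities on the left are `pT k` (definition) and `pT k` (`pT_east`).  On the right
`Ex ω (Sq k ∪ Sq k) z {e.1}` implies `Ex ω (Sq k) z (colS (-k-1))` (`Ex_mono`), of probability `pS k` (`pS_left`).
Now let `n = 2k+1`.  If `2 n pT k ≤ 1` then `1 ≤ n pT k + 2 n pS k` gives `1 ≤ 4 n pS k ≤ 12 n^4 pS k`.  Otherwise `1 < 2 n pT k`, so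
`1 ≤ 4 n^2 (pT k)^2 ≤ 12 n^4 pS k`.
-/

namespace Pool.Agent.GRP

open Pool.Agent.GRW MeasureTheory Filter Topology

theorem d1_card (k : ℕ) : ((Sq k).card : ENNReal) = (2 * (k : ENNReal) + 1) ^ 2 := by
  have h1 : (Sq k).card = (2 * k + 1) ^ 2 := by
    unfold Sq rect
    rw [Finset.card_product, Int.card_Icc, Int.card_Icc]
    have h2 : ((k : ℤ) + 1 - -(k : ℤ)).toNat = 2 * k + 1 := by omega
    have h3 : (2 * (k : ℤ) + 1 - 0).toNat = 2 * k + 1 := by omega
    rw [h2, h3, sq]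
  rw [h1]
  push_cast
  ring

theorem d1_north (d : Fin 4) (h : 1 ≤ (dv d).2) : (dv d).1 = 0 := by
  revert d
  decide

theorem d1_east (d : Fin 4) (h : 1 ≤ (dv d).1) : (dv d).2 = 0 := by
  revert d
  decide

theorem d1_meet (k : ℕ) : pT k * pT k ≤ 3 * (2 * (k : ENNReal) + 1) ^ 2 * pS k := by
  have h := meet_switch (Q₁ := Sq k) (Q₂ := Sq k) (z := up 0)
    (e := ((-(k : ℤ) - 1, (k : ℤ)), 0)) (W₁ := rowS (2 * k + 1)) (W₂ := colS (k + 1)) ?_ ?_ ?_ ?_
  · rw [pT_east, d1_card] at h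
    refine h.trans (mul_le_mul' le_rfl ?_)
    rw [← pS_left]
    refine measure_mono fun ω hω => ?_
    refine Ex_mono (z := up 0) ?_ ?_ hω
    · rw [Set.union_self]
    · intro s hs
      rw [Set.mem_singleton_iff] at hs
      rw [hs]
      rfl
  · unfold Sq
    rw [mem_rect]
    intro h1
    have h2 : (0 : ℤ) ≤ -1 := h1.2.1
    omega
  · unfold Sq
    rw [mem_rect]
    intro h1
    have h2 : -(k : ℤ) ≤ -(k : ℤ) - 1 := h1.1.1
    omega
  · intro h1
    have h2 : (-1 : ℤ) = (k : ℤ) := congrArg Prod.snd h1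
    omega
  · intro ω ω' n n' h1 h2 h3 h4
    have hk : (0 : ℤ) ≤ (k : ℤ) := Int.natCast_nonneg k
    have hsq : ∀ s : ℤ × ℤ, s ∈ Sq k → (-(k : ℤ) ≤ s.1 ∧ s.1 ≤ k) ∧ 0 ≤ s.2 ∧ s.2 ≤ 2 * k :=
      fun s hs => mem_rect.1 hs
    have e2 : (orb ω (up 0) (n + 1)).1.2 = 2 * (k : ℤ) + 1 := h2
    have e4 : (orb ω' ((-(k : ℤ) - 1, (k : ℤ)), 0) (n' + 1)).1.1 = (k : ℤ) + 1 := h4
    have hpc : ∀ i ≤ n + 1, -(k : ℤ) ≤ (orb ω (up 0) i).1.1 ∧ (orb ω (up 0) i).1.1 ≤ k := by
      intro i hi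
      rcases Nat.eq_zero_or_pos i with h0 | h0
      · subst h0
        show -(k : ℤ) ≤ 0 ∧ (0 : ℤ) ≤ k
        omega
      · rcases Nat.lt_or_ge n i with h5 | h5
        · have h6 : i = n + 1 := by omega
          subst h6
          have h7 := orb_base_succ ω (up 0) n
          have h8 := congrArg Prod.snd h7
          have h9 := congrArg Prod.fst h7
          rw [Prod.snd_add] at h8
          rw [Prod.fst_add] at h9
          rcases Nat.eq_zero_or_pos n with hn | hn
          · subst hn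
            exfalso
            have h10 : (orb ω (up 0) 0).1.2 = -1 := rfl
            have h11 : (dv (orb ω (up 0) 0).2).2 = 1 := rfl
            omega
          · have h12 := hsq _ (h1 n hn le_rfl)
            have h13 := d1_north _ (show 1 ≤ (dv (orb ω (up 0) n).2).2 by omega)
            omega
        · have h12 := hsq _ (h1 i h0 h5)
          exact h12.1
    have hbr : ∀ j ≤ n' + 1, 0 ≤ (orb ω' ((-(k : ℤ) - 1, (k : ℤ)), 0) j).1.2 ∧
        (orb ω' ((-(k : ℤ) - 1, (k : ℤ)), 0) j).1.2 ≤ 2 * (k : ℤ) := by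
      intro j hj
      rcases Nat.eq_zero_or_pos j with h0 | h0
      · subst h0
        show 0 ≤ (k : ℤ) ∧ (k : ℤ) ≤ 2 * (k : ℤ)
        omega
      · rcases Nat.lt_or_ge n' j with h5 | h5
        · have h6 : j = n' + 1 := by omega
          subst h6
          have h7 := orb_base_succ ω' ((-(k : ℤ) - 1, (k : ℤ)), 0) n'
          have h8 := congrArg Prod.snd h7
          have h9 := congrArg Prod.fst h7
          rw [Prod.snd_add] at h8
          rw [Prod.fst_add] at h9
          rcases Nat.eq_zero_or_pos n' with hn | hn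
          · subst hn
            exfalso
            have h10 : (orb ω' ((-(k : ℤ) - 1, (k : ℤ)), 0) 0).1.1 = -(k : ℤ) - 1 := rfl
            have h11 : (dv (orb ω' ((-(k : ℤ) - 1, (k : ℤ)), 0) 0).2).1 = 1 := rfl
            omega
          · have h12 := hsq _ (h3 n' hn le_rfl)
            have h13 := d1_east _
              (show 1 ≤ (dv (orb ω' ((-(k : ℤ) - 1, (k : ℤ)), 0) n').2).1 by omega)
            omega
        · have h12 := hsq _ (h3 j h0 h5)
          exact h12.2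
    obtain ⟨i, j, hi0, hi, hj0, hj, hij⟩ := cross_square (p := fun i => (orb ω (up 0) i).1)
      (b := fun j => (orb ω' ((-(k : ℤ) - 1, (k : ℤ)), 0) j).1) (N := n + 1) (M := n' + 1)
      (k := (k : ℤ)) hk (fun i _ => ⟨_, orb_base_succ _ _ _⟩) (fun i _ => ⟨_, orb_base_succ _ _ _⟩)
      rfl e2 hpc rfl e4 hbr
    exact ⟨i, j, hi0, by omega, hj0, by omega, hij⟩

theorem side_lower (k : ℕ) : 1 ≤ 12 * (2 * (k : ENNReal) + 1) ^ 4 * pS k := by
  have h1 := ks_bound k
  have h2 := d1_meet k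
  set n : ENNReal := 2 * (k : ENNReal) + 1 with hn
  have hn1 : 1 ≤ n := le_add_self
  by_cases h3 : 2 * n * pT k ≤ 1
  · have h4 : (1 : ENNReal) + 1 ≤ 1 + 4 * n * pS k := by
      calc (1 : ENNReal) + 1 ≤ n * (pT k + 2 * pS k) + n * (pT k + 2 * pS k) := add_le_add h1 h1
        _ = 2 * n * pT k + 4 * n * pS k := by ring
        _ ≤ 1 + 4 * n * pS k := add_le_add h3 le_rfl
    have h5 : 1 ≤ 4 * n * pS k := (ENNReal.add_le_add_iff_left ENNReal.one_ne_top).1 h4
    refine h5.trans (mul_le_mul' ?_ le_rfl)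
    refine mul_le_mul' (by norm_num) ?_
    calc n = n * 1 := (mul_one n).symm
      _ ≤ n * n ^ 3 := mul_le_mul' le_rfl (one_le_pow₀ hn1)
      _ = n ^ 4 := by ring
  · have h4 : 1 ≤ 2 * n * pT k := (not_le.1 h3).le
    calc (1 : ENNReal) = 1 * 1 := (one_mul 1).symm
      _ ≤ (2 * n * pT k) * (2 * n * pT k) := mul_le_mul' h4 h4
      _ = 4 * n ^ 2 * (pT k * pT k) := by ring
      _ ≤ 4 * n ^ 2 * (3 * n ^ 2 * pS k) := mul_le_mul' le_rfl h2
      _ = 12 * n ^ 4 * pS k := by ring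

end Pool.Agent.GRP
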