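import Pool.Agent.GRP.A2

/-!
# [GRP-D2] arcs which return beyond distance `k` (uses A1, A2)

PROOF. Let `k' = 2k+1`.  For `y ∈ [0, 2k]` let
`A y = {ω | ∃ n, (∀ i, 0 < i → i ≤ n → (orb ω (up 0) i).1 ∈ Sq k) ∧ orb ω (up 0) n = ((k, y), 0)}` with `1 ≤ n`
(the trail leaves the square through its right side at height `y`) and
`J y = {ω | Ex ω (rect (k+1) (5k+3) (y-k') (y+k')) ((k,y),0) (rowS (y-k'-1))}`, of probability `pS k'` (`pS_south` with `a = k`:
`k + 1 + 2 k' = 5 k + 3`).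
(1) `{ω | Ex ω (Sq k) (up 0) (colS (k+1))} ⊆ ⋃ y ∈ [0,2k], A y`: the last dart before the exit is at a site of the square
and steps to column `k + 1`, so it is `((k, y), 0)` (`n ≥ 1` because the site at time `1` is `(0,0)`); the `A y` are pairwise disjoint
(the exit dart is unique: two witnesses `n < n'` would put the site `(k+1, y)` at time `n+1` in the square).
(2) `A y` depends only on the sites of `Sq k` (`orb_congr_le`), `J y` only on columns `≥ k + 1`, so `P (A y ∩ J y) = P (A y) * pS k'`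
(`P_inter_Ex` with `D = rect (k+1) ..`, `J = A y`).
(3) `A y ∩ J y` is contained in the event on the right: let `n` be the time in `A y`, `n'` the witness for `J y`.  The trail from `up 0` is at
`((k,y),0)` at time `n`, so (`orb_add`) its sites at times `n + i` are those of the second trail.  At time `n + n' + 1` the row is
`y - k' - 1 ≤ -2`; let `i ≤ n'` be the first positive number such that the row at time `n + i` is negative (it exists and is `≤ n'`, by unit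
steps it is `-1`, as the row at time `n + 1` is `y ≥ 0`); at the times `n + 1, ..., n + i - 1` the sites are in
`rect (k+1) (5k+3) 0 (4k+1)` (rows `≤ y + k' ≤ 4k + 1`) and at time `n + i` the site is `(x, -1)` with `x ≥ k + 1`.
So `pS k' * P (⋃ A y) = ∑ P (A y ∩ J y) = P (⋃ (A y ∩ J y)) ≤ RHS`.
-/

namespace Pool.Agent.GRP

open Pool.Agent.GRW MeasureTheory Filter Topology

/-- the trail from `up 0` leaves the square through the right side at height `y` -/
def d2_A (k : ℕ) (y : ℤ) : Set Env :=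
  {ω | ∃ n, 1 ≤ n ∧ (∀ i, 0 < i → i ≤ n → (orb ω (up 0) i).1 ∈ Sq k) ∧
    orb ω (up 0) n = (((k : ℤ), y), 0)}

/-- the box to the right of the square -/
noncomputable def d2_D (k : ℕ) (y : ℤ) : Finset (ℤ × ℤ) :=
  rect ((k : ℤ) + 1) ((k : ℤ) + 1 + 2 * ((2 * k + 1 : ℕ) : ℤ)) (y - ((2 * k + 1 : ℕ) : ℤ))
    (y + ((2 * k + 1 : ℕ) : ℤ))

/-- the arc to the south in the box -/
def d2_J (k : ℕ) (y : ℤ) : Set Env :=
  {ω | Ex ω (d2_D k y) (((k : ℤ), y), 0) (rowS (y - ((2 * k + 1 : ℕ) : ℤ) - 1))}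

theorem d2_sq {k : ℕ} {s : ℤ × ℤ} (hs : s ∈ Sq k) :
    (-(k : ℤ) ≤ s.1 ∧ s.1 ≤ k) ∧ 0 ≤ s.2 ∧ s.2 ≤ 2 * k := mem_rect.1 hs

theorem d2_east (d : Fin 4) (h : 1 ≤ (dv d).1) : d = 0 := by
  revert d
  decide

theorem d2_unit (d : Fin 4) : -1 ≤ (dv d).2 := by
  revert d
  decide

theorem d2_meas (k : ℕ) (y : ℤ) : MeasurableSet (d2_A k y) := by
  have h1 : d2_A k y = ⋃ n : ℕ, ⋃ _ : 1 ≤ n,
      ((⋂ i : ℕ, ⋂ _ : 0 < i, ⋂ _ : i ≤ n, {ω | orb ω (up 0) i ∈ {x : Dart | x.1 ∈ Sq k}}) ∩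
        {ω | orb ω (up 0) n ∈ ({(((k : ℤ), y), 0)} : Set Dart)}) := by
    ext ω
    simp only [d2_A, Set.mem_ofPred_eq, Set.mem_iUnion, Set.mem_inter_iff, Set.mem_iInter,
      Set.mem_singleton_iff, exists_prop]
  rw [h1]
  refine MeasurableSet.iUnion fun n => MeasurableSet.iUnion fun _ => MeasurableSet.inter ?_ ?_
  · refine MeasurableSet.iInter fun i => MeasurableSet.iInter fun _ => MeasurableSet.iInter fun _ => ?_
    exact measurableSet_orb_mem (g := fun _ => up 0) measurable_const i _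
  · exact measurableSet_orb_mem (g := fun _ => up 0) measurable_const n _

theorem d2_congr1 (k : ℕ) (y : ℤ) {ω ω' : Env} (h : ∀ s, s ∉ d2_D k y → ω s = ω' s)
    (hω : ω ∈ d2_A k y) : ω' ∈ d2_A k y := by
  obtain ⟨n, hn, h1, h2⟩ := hω
  have h3 := orb_congr_le (ω := ω) (ω' := ω') (x := up 0) n (fun i hi0 hi => by
    refine (h _ ?_).symm
    intro h4
    have h5 := d2_sq (h1 i hi0 hi)
    have h6 := (mem_rect.1 h4).1.1
    omega)
  refine ⟨n, hn, fun i hi0 hi => ?_, ?_⟩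
  · rw [h3 i hi]
    exact h1 i hi0 hi
  · rw [h3 n le_rfl]
    exact h2

theorem d2_disj (k : ℕ) {y y' : ℤ} (hy : y ≠ y') : Disjoint (d2_A k y) (d2_A k y') := by
  rw [Set.disjoint_left]
  rintro ω ⟨n, hn, h1, h2⟩ ⟨n', hn', h1', h2'⟩
  have key : ∀ (m m' : ℕ) (z : ℤ), (∀ i, 0 < i → i ≤ m' → (orb ω (up 0) i).1 ∈ Sq k) →
      orb ω (up 0) m = (((k : ℤ), z), 0) → ¬ m < m' := by
    intro m m' z h3 h4 h5
    have h6 := d2_sq (h3 (m + 1) (by omega) (by omega))
    have h7 := congrArg Prod.fst (orb_base_succ ω (up 0) m)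
    rw [Prod.fst_add, h4] at h7
    have h8 : (dv (((((k : ℤ), z), 0) : Dart).2)).1 = 1 := rfl
    rw [h8] at h7
    have h9 : (orb ω (up 0) (m + 1)).1.1 = (k : ℤ) + 1 := h7
    omega
  rcases lt_trichotomy n n' with h | h | h
  · exact key n n' y h1' h2 h
  · subst h
    rw [h2] at h2'
    exact hy (congrArg (fun x : Dart => x.1.2) h2')
  · exact key n' n y' h1 h2' h

theorem d2_cover (k : ℕ) : {ω | Ex ω (Sq k) (up 0) (colS (k + 1))} ⊆
    ⋃ y ∈ Finset.Icc (0 : ℤ) (2 * k), d2_A k y := by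
  rintro ω ⟨n, h1, h2⟩
  have h7 := congrArg Prod.fst (orb_base_succ ω (up 0) n)
  rw [Prod.fst_add] at h7
  have h8 : (orb ω (up 0) (n + 1)).1.1 = (k : ℤ) + 1 := h2
  have hn : 1 ≤ n := by
    rcases Nat.eq_zero_or_pos n with h0 | h0
    · exfalso
      subst h0
      have h9 : (orb ω (up 0) 0).1.1 = 0 := rfl
      have h10 : (dv (orb ω (up 0) 0).2).1 = 0 := rfl
      omega
    · exact h0
  have h9 := d2_sq (h1 n hn le_rfl)
  have h10 := d2_east _ (show 1 ≤ (dv (orb ω (up 0) n).2).1 by omega)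
  have h11 : (dv (orb ω (up 0) n).2).1 = 1 := by rw [h10]; rfl
  refine Set.mem_iUnion₂.2 ⟨(orb ω (up 0) n).1.2, Finset.mem_Icc.2 h9.2, n, hn, h1, ?_⟩
  refine Prod.ext (Prod.ext ?_ rfl) h10
  show (orb ω (up 0) n).1.1 = (k : ℤ)
  omega

theorem d2_join (k : ℕ) {y : ℤ} (hy : y ∈ Finset.Icc (0 : ℤ) (2 * k)) : d2_A k y ∩ d2_J k y ⊆
    {ω | Ex ω (rect (-(k : ℤ)) (5 * k + 3) 0 (4 * k + 1)) (up 0) {s | s.2 = -1 ∧ (k : ℤ) < s.1}} := by
  classical
  rintro ω ⟨⟨n, hn, h1, h2⟩, ⟨n', h3, h4⟩⟩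
  obtain ⟨hy0, hy1⟩ := Finset.mem_Icc.1 hy
  have e1 : ∀ i, orb ω (up 0) (n + i) = orb ω (((k : ℤ), y), 0) i := by
    intro i
    rw [orb_add, h2]
  have hend : (orb ω (((k : ℤ), y), 0) (n' + 1)).1.2 = y - ((2 * k + 1 : ℕ) : ℤ) - 1 := h4
  have hex : ∃ i, 0 < i ∧ (orb ω (((k : ℤ), y), 0) i).1.2 < 0 := by
    refine ⟨n' + 1, Nat.succ_pos _, ?_⟩
    rw [hend]
    push_cast
    omega
  have hi := Nat.find_spec hex
  have hmin : ∀ j, 0 < j → j < Nat.find hex → 0 ≤ (orb ω (((k : ℤ), y), 0) j).1.2 := by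
    intro j hj0 hj
    have h5 := Nat.find_min hex hj
    by_contra h6
    exact h5 ⟨hj0, not_le.1 h6⟩
  have hle : Nat.find hex ≤ n' + 1 := by
    refine Nat.find_min' hex ⟨Nat.succ_pos _, ?_⟩
    rw [hend]
    push_cast
    omega
  set i := Nat.find hex with hidef
  have hrow0 : (orb ω (((k : ℤ), y), 0) 0).1.2 = y := rfl
  have hstep := congrArg Prod.snd (orb_base_succ ω (((k : ℤ), y), 0) (i - 1))
  rw [Prod.snd_add, Nat.sub_add_cancel hi.1] at hstep
  have hu := d2_unit (orb ω (((k : ℤ), y), 0) (i - 1)).2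
  have hprev : 0 ≤ (orb ω (((k : ℤ), y), 0) (i - 1)).1.2 := by
    rcases Nat.eq_zero_or_pos (i - 1) with h0 | h0
    · rw [h0, hrow0]
      exact hy0
    · exact hmin _ h0 (by omega)
  have hm1 : (orb ω (((k : ℤ), y), 0) i).1.2 = -1 := by
    have := hi.2
    omega
  have hin : i ≤ n' := by
    rcases Nat.lt_or_ge n' i with h5 | h5
    · exfalso
      have h6 : i = n' + 1 := by omega
      rw [h6, hend] at hm1
      push_cast at hm1
      omega
    · exact h5
  refine ⟨n + i - 1, fun j hj0 hj => ?_, ?_⟩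
  · rw [Finset.mem_coe, mem_rect]
    rcases Nat.lt_or_ge n j with h5 | h5
    · obtain ⟨m, rfl⟩ : ∃ m, j = n + m := ⟨j - n, by omega⟩
      have h6 := mem_rect.1 (h3 m (by omega) (by omega))
      have h7 := hmin m (by omega) (by omega)
      rw [e1]
      push_cast at h6
      omega
    · have h6 := d2_sq (h1 j hj0 h5)
      omega
  · have h6 : n + i - 1 + 1 = n + i := by omega
    rw [h6, e1]
    refine ⟨hm1, ?_⟩
    have h7 := mem_rect.1 (h3 i hi.1 hin)
    omega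

theorem arc_lower (k : ℕ) : pS k * pS (2 * k + 1) ≤
    P {ω | Ex ω (rect (-(k : ℤ)) (5 * k + 3) 0 (4 * k + 1)) (up 0) {s | s.2 = -1 ∧ (k : ℤ) < s.1}} := by
  have h1 : pS k ≤ ∑ y ∈ Finset.Icc (0 : ℤ) (2 * k), P (d2_A k y) := by
    refine (measure_mono (d2_cover k)).trans ?_
    exact measure_biUnion_finset_le _ _
  have h2 : ∀ y, P (d2_J k y) = pS (2 * k + 1) := fun y => pS_south (2 * k + 1) k y
  have h3 : ∀ y, P (d2_A k y ∩ d2_J k y) = P (d2_A k y) * pS (2 * k + 1) := by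
    intro y
    rw [← h2 y]
    exact P_inter_Ex (d2_D k y) (d2_meas k y)
      (fun ω ω' h => ⟨d2_congr1 k y h, d2_congr1 k y (fun s hs => (h s hs).symm)⟩) _ _
  calc pS k * pS (2 * k + 1)
      ≤ (∑ y ∈ Finset.Icc (0 : ℤ) (2 * k), P (d2_A k y)) * pS (2 * k + 1) := mul_le_mul' h1 le_rfl
    _ = ∑ y ∈ Finset.Icc (0 : ℤ) (2 * k), P (d2_A k y ∩ d2_J k y) := by
        rw [Finset.sum_mul]
        exact Finset.sum_congr rfl fun y _ => (h3 y).symm
    _ = P (⋃ y ∈ Finset.Icc (0 : ℤ) (2 * k), (d2_A k y ∩ d2_J k y)) := by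
        rw [measure_biUnion_finset]
        · intro y _ y' _ hyy
          exact (d2_disj k hyy).mono Set.inter_subset_left Set.inter_subset_left
        · intro y _
          exact (d2_meas k y).inter (measurableSet_Ex _ _ _)
    _ ≤ _ := by
        refine measure_mono ?_
        refine Set.iUnion₂_subset fun y hy => ?_
        exact d2_join k hy

end Pool.Agent.GRP
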