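import Pool.Agent.GRP.D1
import Pool.Agent.GRP.D2

/-!
# [GRP-D3] two-point connection in the half-plane: probability at least `c d^(-18)` (uses D1, D2, A1, A2, B4, B6)

PROOFS. `nu_lower`: `meet_switch` with `z = up 0`, `e = up d`, `Q₁ = rect (-k) (5k+3) 0 (4k+1)` (`(6k+4)(4k+2)` sites),
`Q₂ = rect (d-5k-3) (d+k) 0 (4k+1)`, `W₁ = {s | s.2 = -1 ∧ k < s.1}`, `W₂ = {s | s.2 = -1 ∧ s.1 < d - k}`.
`hcross`: `cross_arcs` with `x = 0`, `y = d`, `x' > k ≥ d`, `y' < d - k ≤ 0` and `N = n + 1`, `M = n' + 1`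
(`2 ≤ N`: the site at time `1` is `(0, 0)`, in row `0`).  The first factor is at least `pS k * pS (2k+1)` by `arc_lower`; the second
one too: it is equal to the first by the reflection `x ↦ d - x` (`P_Ex_ref`, `P_Ex_tr`; `up d = tr (d, 0) (up 0)`, `refD (up 0) = up 0`).
The right side: `Q₁ ∪ Q₂ ⊆ rect (-(6k+4)) (6k+4) 0 (4k+1)` (`Ex_mono`).
`nu_num`: `K = k`; for `K ≥ 1`: `2K+1 ≤ 3K`, `4K+3 ≤ 7K`, `(6K+4)(4K+2) ≤ 60 K^2`, so by `side_lower`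
`pS K * pS (2K+1) ≥ 1 / (12 * 81 * 12 * 2401 * K^8) = 1 / (28005264 K^8)` and `3 * 60 * 28005264^2 ≤ 2 * 10^17`.
(`side_lower (2K+1)` gives the factor `2 (2K+1) + 1 = 4K+3`.)
-/

namespace Pool.Agent.GRP

open Pool.Agent.GRW MeasureTheory Filter Topology

theorem d3_up_base_one (ω : Env) (x : ℤ) : (orb ω (up x) 1).1 = (x, 0) := by
  have h : (orb ω (up x) (0 + 1)).1 = (orb ω (up x) 0).1 + dv (orb ω (up x) 0).2 := orb_base_succ _ _ _
  rw [zero_add] at h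
  rw [h, orb_zero]
  show ((x, -1) : ℤ × ℤ) + dv 1 = (x, 0)
  have : dv 1 = (0, 1) := rfl
  rw [this]
  ext <;> simp

theorem d3_second (k d : ℕ) :
    P {ω | Ex ω (rect ((d : ℤ) - 5 * k - 3) (d + k) 0 (4 * k + 1)) (up d) {s | s.2 = -1 ∧ s.1 < (d : ℤ) - k}} =
    P {ω | Ex ω (rect (-(k : ℤ)) (5 * k + 3) 0 (4 * k + 1)) (up 0) {s | s.2 = -1 ∧ (k : ℤ) < s.1}} := by
  have e1 : up d = tr ((d : ℤ), 0) (up 0) := by
    unfold up tr
    simp
  have e2 : up 0 = refD (up 0) := by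
    unfold up refD refl
    simp
  rw [e1, P_Ex_tr]
  have s1 : {s : ℤ × ℤ | s + ((d : ℤ), (0 : ℤ)) ∈ ((rect ((d : ℤ) - 5 * k - 3) (d + k) 0 (4 * k + 1) :
      Finset (ℤ × ℤ)) : Set (ℤ × ℤ))} =
      ((rect (-(5 * k : ℤ) - 3) k 0 (4 * k + 1) : Finset (ℤ × ℤ)) : Set (ℤ × ℤ)) := by
    ext s
    rw [Set.mem_ofPred_eq, Finset.mem_coe, Finset.mem_coe, mem_rect, mem_rect]
    simp only [Prod.fst_add, Prod.snd_add]
    constructor
    · intro h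
      omega
    · intro h
      omega
  have s2 : {s : ℤ × ℤ | s + ((d : ℤ), (0 : ℤ)) ∈ {s : ℤ × ℤ | s.2 = -1 ∧ s.1 < (d : ℤ) - k}} =
      {s : ℤ × ℤ | s.2 = -1 ∧ s.1 < -(k : ℤ)} := by
    ext s
    rw [Set.mem_ofPred_eq, Set.mem_ofPred_eq, Set.mem_ofPred_eq]
    simp only [Prod.fst_add, Prod.snd_add]
    constructor
    · intro h
      omega
    · intro h
      omega
  rw [s1, s2]
  have h3 := P_Ex_ref ((rect (-(5 * k : ℤ) - 3) k 0 (4 * k + 1) : Finset (ℤ × ℤ)) : Set (ℤ × ℤ))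
    {s : ℤ × ℤ | s.2 = -1 ∧ s.1 < -(k : ℤ)} (up 0)
  rw [← e2] at h3
  rw [h3]
  have s3 : {s : ℤ × ℤ | refl s ∈ ((rect (-(5 * k : ℤ) - 3) k 0 (4 * k + 1) :
      Finset (ℤ × ℤ)) : Set (ℤ × ℤ))} =
      ((rect (-(k : ℤ)) (5 * k + 3) 0 (4 * k + 1) : Finset (ℤ × ℤ)) : Set (ℤ × ℤ)) := by
    ext s
    rw [Set.mem_ofPred_eq, Finset.mem_coe, Finset.mem_coe, mem_rect, mem_rect]
    simp only [refl]
    constructor
    · intro h
      omega
    · intro h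
      omega
  have s4 : {s : ℤ × ℤ | refl s ∈ {s : ℤ × ℤ | s.2 = -1 ∧ s.1 < -(k : ℤ)}} =
      {s : ℤ × ℤ | s.2 = -1 ∧ (k : ℤ) < s.1} := by
    ext s
    rw [Set.mem_ofPred_eq, Set.mem_ofPred_eq, Set.mem_ofPred_eq]
    simp only [refl]
    constructor
    · intro h
      omega
    · intro h
      omega
  rw [s3, s4]

theorem nu_lower {k d : ℕ} (hd : 1 ≤ d) (hdk : d ≤ k) :
    (pS k * pS (2 * k + 1)) ^ 2 ≤ 3 * ((6 * (k : ENNReal) + 4) * (4 * k + 2)) *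
      P {ω | Ex ω (rect (-(6 * k + 4)) (6 * k + 4) 0 (4 * k + 1)) (up 0) {((d : ℤ), -1)}} := by
  have h1 := arc_lower k
  have h2 := h1
  rw [← d3_second k d] at h2
  have h3 := meet_switch (Q₁ := rect (-(k : ℤ)) (5 * k + 3) 0 (4 * k + 1))
    (Q₂ := rect ((d : ℤ) - 5 * k - 3) (d + k) 0 (4 * k + 1)) (z := up 0) (e := up d)
    (W₁ := {s | s.2 = -1 ∧ (k : ℤ) < s.1}) (W₂ := {s | s.2 = -1 ∧ s.1 < (d : ℤ) - k})
    (by
      intro h
      rw [mem_rect] at h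
      have e : (up 0).1.2 = -1 := rfl
      omega)
    (by
      intro h
      rw [mem_rect] at h
      have e : (up (d : ℤ)).1.2 = -1 := rfl
      omega)
    (by
      intro h
      have e : (up 0).1.1 = (up (d : ℤ)).1.1 := by rw [h]
      have e' : (0 : ℤ) = (d : ℤ) := e
      omega)
    (by
      intro ω ω' n n' a1 a2 a3 a4
      have n1 : 1 ≤ n := by
        by_contra hn
        have hn0 : n = 0 := by omega
        rw [hn0, zero_add, d3_up_base_one] at a2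
        have := a2.1
        norm_num at this
      have n1' : 1 ≤ n' := by
        by_contra hn
        have hn0 : n' = 0 := by omega
        rw [hn0, zero_add, d3_up_base_one] at a4
        have := a4.1
        norm_num at this
      obtain ⟨i, j, i0, iN, j0, jM, hij⟩ := cross_arcs (p := fun i => (orb ω (up 0) i).1)
        (b := fun j => (orb ω' (up d) j).1) (N := n + 1) (M := n' + 1) (x := 0) (y := d)
        (x' := (orb ω (up 0) (n + 1)).1.1) (y' := (orb ω' (up d) (n' + 1)).1.1)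
        (by omega) (by omega) (by have := a4.2; omega) (by omega) (by have := a2.2; omega)
        (fun i _ => ⟨_, orb_base_succ _ _ _⟩) (fun j _ => ⟨_, orb_base_succ _ _ _⟩)
        rfl (Prod.ext rfl a2.1) rfl (Prod.ext rfl a4.1)
        (fun i hi1 hi2 => (mem_rect.1 (a1 i hi1 (by omega))).2.1)
        (fun i hi1 hi2 => (mem_rect.1 (a3 i hi1 (by omega))).2.1)
      exact ⟨i, j, i0, by omega, j0, by omega, hij⟩)
  have hcard : (((rect (-(k : ℤ)) (5 * k + 3) 0 (4 * k + 1)).card : ℕ) : ENNReal) =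
      (6 * (k : ENNReal) + 4) * (4 * k + 2) := by
    have h4 : (rect (-(k : ℤ)) (5 * k + 3) 0 (4 * k + 1)).card = (6 * k + 4) * (4 * k + 2) := by
      unfold rect
      rw [Finset.card_product, Int.card_Icc, Int.card_Icc]
      have q1 : ((5 * (k : ℤ) + 3) + 1 - -(k : ℤ)).toNat = 6 * k + 4 := by omega
      have q2 : ((4 * (k : ℤ) + 1) + 1 - 0).toNat = 4 * k + 2 := by omega
      rw [q1, q2]
    rw [h4]
    push_cast
    rfl
  rw [hcard] at h3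
  have h5 : P {ω | Ex ω (((rect (-(k : ℤ)) (5 * k + 3) 0 (4 * k + 1) : Finset (ℤ × ℤ)) : Set (ℤ × ℤ)) ∪
      (rect ((d : ℤ) - 5 * k - 3) (d + k) 0 (4 * k + 1) : Finset (ℤ × ℤ))) (up 0) {(up (d : ℤ)).1}} ≤
      P {ω | Ex ω (rect (-(6 * k + 4)) (6 * k + 4) 0 (4 * k + 1)) (up 0) {((d : ℤ), -1)}} := by
    apply measure_mono
    intro ω hω
    apply Ex_mono _ _ hω
    · intro s hs
      rw [Finset.mem_coe, mem_rect]
      rcases hs with hs | hs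
      · rw [Finset.mem_coe, mem_rect] at hs
        omega
      · rw [Finset.mem_coe, mem_rect] at hs
        omega
    · exact subset_rfl
  calc (pS k * pS (2 * k + 1)) ^ 2 = (pS k * pS (2 * k + 1)) * (pS k * pS (2 * k + 1)) := sq _
    _ ≤ _ := mul_le_mul' h1 h2
    _ ≤ _ := h3
    _ ≤ _ := mul_le_mul' le_rfl h5

theorem d3_num (K : ℕ) (hK : 1 ≤ K) :
    (12 * (2 * K + 1) ^ 4 * (12 * (2 * (2 * K + 1) + 1) ^ 4)) ^ 2 * (3 * ((6 * K + 4) * (4 * K + 2))) ≤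
      2 * 10 ^ 17 * K ^ 18 := by
  have h1 : 2 * K + 1 ≤ 3 * K := by omega
  have h2 : 2 * (2 * K + 1) + 1 ≤ 7 * K := by omega
  have h3 : 6 * K + 4 ≤ 10 * K := by omega
  have h4 : 4 * K + 2 ≤ 6 * K := by omega
  calc (12 * (2 * K + 1) ^ 4 * (12 * (2 * (2 * K + 1) + 1) ^ 4)) ^ 2 * (3 * ((6 * K + 4) * (4 * K + 2)))
      ≤ (12 * (3 * K) ^ 4 * (12 * (7 * K) ^ 4)) ^ 2 * (3 * ((10 * K) * (6 * K))) := by gcongr
    _ = (12 * 81 * (12 * 2401)) ^ 2 * 180 * K ^ 18 := by ring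
    _ ≤ 2 * 10 ^ 17 * K ^ 18 := by
        apply Nat.mul_le_mul_right
        norm_num

theorem nu_num {K d : ℕ} (hd : 1 ≤ d) (hdK : d ≤ K) :
    1 ≤ 2 * 10 ^ 17 * (K : ENNReal) ^ 18 *
      P {ω | Ex ω (rect (-(6 * K + 4)) (6 * K + 4) 0 (4 * K + 1)) (up 0) {((d : ℤ), -1)}} := by
  have h0 := nu_lower hd hdK
  have h1 := side_lower K
  have h2 := side_lower (2 * K + 1)
  have h3 := d3_num K (by omega)
  have h4 : ((12 * (2 * (K : ENNReal) + 1) ^ 4 * (12 * (2 * ((2 * K + 1 : ℕ) : ENNReal) + 1) ^ 4)) ^ 2 *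
      (3 * ((6 * (K : ENNReal) + 4) * (4 * K + 2)))) ≤ 2 * 10 ^ 17 * (K : ENNReal) ^ 18 := by
    exact_mod_cast h3
  have h5 : 1 ≤ (12 * (2 * (K : ENNReal) + 1) ^ 4 * pS K) *
      (12 * (2 * ((2 * K + 1 : ℕ) : ENNReal) + 1) ^ 4 * pS (2 * K + 1)) := by
    calc (1 : ENNReal) = 1 * 1 := (one_mul 1).symm
      _ ≤ _ := mul_le_mul' h1 h2
  calc (1 : ENNReal) = 1 * 1 := (one_mul 1).symm
    _ ≤ ((12 * (2 * (K : ENNReal) + 1) ^ 4 * pS K) *
      (12 * (2 * ((2 * K + 1 : ℕ) : ENNReal) + 1) ^ 4 * pS (2 * K + 1))) *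
      ((12 * (2 * (K : ENNReal) + 1) ^ 4 * pS K) *
      (12 * (2 * ((2 * K + 1 : ℕ) : ENNReal) + 1) ^ 4 * pS (2 * K + 1))) := mul_le_mul' h5 h5
    _ = (12 * (2 * (K : ENNReal) + 1) ^ 4 * (12 * (2 * ((2 * K + 1 : ℕ) : ENNReal) + 1) ^ 4)) ^ 2 *
      (pS K * pS (2 * K + 1)) ^ 2 := by ring
    _ ≤ (12 * (2 * (K : ENNReal) + 1) ^ 4 * (12 * (2 * ((2 * K + 1 : ℕ) : ENNReal) + 1) ^ 4)) ^ 2 *
      (3 * ((6 * (K : ENNReal) + 4) * (4 * K + 2)) *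
      P {ω | Ex ω (rect (-(6 * K + 4)) (6 * K + 4) 0 (4 * K + 1)) (up 0) {((d : ℤ), -1)}}) :=
        mul_le_mul' le_rfl h0
    _ = ((12 * (2 * (K : ENNReal) + 1) ^ 4 * (12 * (2 * ((2 * K + 1 : ℕ) : ENNReal) + 1) ^ 4)) ^ 2 *
      (3 * ((6 * (K : ENNReal) + 4) * (4 * K + 2)))) *
      P {ω | Ex ω (rect (-(6 * K + 4)) (6 * K + 4) 0 (4 * K + 1)) (up 0) {((d : ℤ), -1)}} := by
        exact (mul_assoc _ _ _).symm
    _ ≤ _ := mul_le_mul' h4 le_rfl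

end Pool.Agent.GRP
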