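import Pool.Agent.GRP.A1
import Pool.Agent.GRW.A2
import Pool.Agent.GRW.D1

/-!
# [GRP-D4] turning back above row `h` (deterministic)

The trail from `(x, -1)` arrives at row `h` at `(a, h)`, the one from `(y, -1)` at `(b, h)`; above row `h` there is an
arc from `(a, h)` to `(b, h)` which stays in the rows `h, ..., h + H - 1`.  Then the first trail does not reach row `h + H`.

PROOF. Let `n₁, n₂` be the times in `hx`, `hy` and `m` the witness of `hE`.  `up 0` translated by `(a, h)` is
`((a, h - 1), 1) = orb ω (up x) n₁`, so `orb ω (up x) (n₁ + i) = tr (a, h) (orb (shift (a, h) ω) (up 0) i)` (`orb_add`, `orb_tr`).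
Its row is in `[h, h + H)` for `0 < i ≤ m`, and at time `n₁ + m + 1` the site is `(b, h - 1)`.  `1 ≤ m`: the site of
`orb (shift (a, h) ω) (up 0) 1` is `(0, 0)`, which is not in row `-1`.  The step from time `n₁ + m` (row `≥ h`) to time `n₁ + m + 1`
(row `h - 1`, `d1_row_succ`, `d1_dv`-like: a step with second coordinate `-1` has direction `3`) is south, so
`orb ω (up x) (n₁ + m) = ((b, h), 3)` and `orb ω (up x) (n₁ + m + 1) = F ω ((b, h), 3) = ((b, h-1), pr (ω (b, h-1)) 1) =
R ω ((b, h - 1), 1) = R ω (orb ω (up y) n₂)`.  By `orb_R`: `orb ω (up x) (n₁ + m + 1 + j) = R ω (orb ω (up y) (n₂ - j))` for `j ≤ n₂`.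
Let `T = n₁ + m + 1 + n₂`: the site at time `T` is `(y, -1)`, and at all times `0 < i ≤ T` the row is `< h + H`.
If `Hit ω (h + H) x x''` with time `n`: for `n + 1 ≤ T` the row at time `n + 1` is `h + H` (`orb_base_succ`), contradiction;
for `T ≤ n` the row at time `T` is `≥ 0`, contradiction.
-/

namespace Pool.Agent.GRP

open Pool.Agent.GRW

theorem d4_south (d : Fin 4) (h : (dv d).2 = -1) : d = 3 := by
  revert d; decide

theorem turn {ω : Env} {h H : ℕ} {x y a b A B : ℤ} (hx : Hit ω h x a) (hy : Hit ω h y b)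
    (hE : Ex (shift (a, (h : ℤ)) ω) (rect A B 0 ((H : ℤ) - 1)) (up 0) {(b - a, -1)}) (x'' : ℤ) :
    ¬ Hit ω (h + H) x x'' := by
  obtain ⟨n₁, hn₁, hr₁⟩ := hx
  obtain ⟨n₂, hn₂, hr₂⟩ := hy
  obtain ⟨m, hm, hm1⟩ := hE
  have hup : tr (a, (h : ℤ)) (up 0) = ((a, (h : ℤ) - 1), 1) := by
    unfold tr up
    ext <;> simp <;> ring
  have key : ∀ i, orb ω ((x, -1), 1) (n₁ + i) =
      tr (a, (h : ℤ)) (orb (shift (a, (h : ℤ)) ω) (up 0) i) := by
    intro i
    rw [orb_add, hn₁, ← hup, orb_tr]
  have hm1' : (orb (shift (a, (h : ℤ)) ω) (up 0) (m + 1)).1 = (b - a, -1) := hm1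
  have hm0 : 0 < m := by
    rcases Nat.eq_zero_or_pos m with h0 | h0
    · exfalso
      subst h0
      rw [orb_base_succ, orb_zero] at hm1'
      have h3 : ((up 0).1 + dv (up 0).2).2 = -1 := congrArg Prod.snd hm1'
      have h4 : ((up 0).1 + dv (up 0).2).2 = 0 := by decide
      rw [h4] at h3
      omega
    · exact h0
  have hrow : ∀ i, 0 < i → i ≤ m → (h : ℤ) ≤ (orb ω ((x, -1), 1) (n₁ + i)).1.2 ∧
      (orb ω ((x, -1), 1) (n₁ + i)).1.2 < (h : ℤ) + H := by
    intro i hi him
    have h4 := (mem_rect.1 (Finset.mem_coe.1 (hm i hi him))).2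
    rw [key]
    unfold tr
    simp only [Prod.snd_add]
    omega
  have hsite : (orb ω ((x, -1), 1) (n₁ + m + 1)).1 = (b, (h : ℤ) - 1) := by
    rw [add_assoc, key]
    unfold tr
    simp only [hm1']
    ext <;> simp <;> ring
  have hd : orb ω ((x, -1), 1) (n₁ + m) = ((b, (h : ℤ)), 3) := by
    have h4 := (hrow m hm0 le_rfl).1
    have h5 := hsite
    rw [orb_base_succ] at h5
    have h6 := congrArg Prod.snd h5
    have h7 := congrArg Prod.fst h5
    simp only [Prod.snd_add, Prod.fst_add] at h6 h7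
    have h8 := (d1_dv (orb ω ((x, -1), 1) (n₁ + m)).2).2.1
    have h9 : (dv (orb ω ((x, -1), 1) (n₁ + m)).2).2 = -1 := by omega
    have h10 := d4_south _ h9
    rw [h10] at h7
    have h11 : (dv 3).1 = 0 := by decide
    rw [h11] at h7
    refine Prod.ext (Prod.ext ?_ ?_) h10
    · simp only
      omega
    · simp only
      omega
  have hR : orb ω ((x, -1), 1) (n₁ + m + 1) = R ω (orb ω ((y, -1), 1) n₂) := by
    rw [orb_succ, hd, hn₂]
    unfold F R
    have h4 : ((b, (h : ℤ)) : ℤ × ℤ) + dv 3 = (b, (h : ℤ) - 1) := by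
      have h5 : dv 3 = (0, -1) := by decide
      rw [h5]
      ext <;> simp <;> ring
    have h6 : (3 : Fin 4) + 2 = 1 := by decide
    simp only [h4, h6]
  have hback : ∀ j, j ≤ n₂ → (orb ω ((x, -1), 1) (n₁ + m + 1 + j)).1 = (orb ω ((y, -1), 1) (n₂ - j)).1 := by
    intro j hj
    rw [orb_add, hR, orb_R ω _ hj]
    rfl
  rintro ⟨n, hn, hr⟩
  rcases Nat.lt_or_ge n (n₁ + m + 1 + n₂) with hlt | hge
  · have h4 : (orb ω ((x, -1), 1) (n + 1)).1.2 = (h : ℤ) + H := by
      rw [orb_base_succ, hn]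
      simp [dv]
    have h5 : (orb ω ((x, -1), 1) (n + 1)).1.2 < (h : ℤ) + H := by
      rcases Nat.lt_or_ge n n₁ with h6 | h6
      · have h7 := (hr₁ (n + 1) (by omega) (by omega)).2
        omega
      · rcases Nat.lt_or_ge n (n₁ + m) with h7 | h7
        · have h8 := (hrow (n + 1 - n₁) (by omega) (by omega)).2
          have h9 : n₁ + (n + 1 - n₁) = n + 1 := by omega
          rwa [h9] at h8
        · have h8 := hback (n - n₁ - m) (by omega)
          have h9 : n₁ + m + 1 + (n - n₁ - m) = n + 1 := by omega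
          rw [h9] at h8
          rw [h8]
          rcases Nat.eq_zero_or_pos (n₂ - (n - n₁ - m)) with h10 | h10
          · rw [h10, orb_zero]
            show (-1 : ℤ) < (h : ℤ) + H
            omega
          · have h11 := (hr₂ _ h10 (by omega)).2
            omega
    omega
  · have h4 := hback n₂ le_rfl
    rw [Nat.sub_self, orb_zero] at h4
    have h5 := (hr (n₁ + m + 1 + n₂) (by omega) hge).1
    rw [h4] at h5
    have h6 : (0 : ℤ) ≤ -1 := h5
    omega

end Pool.Agent.GRP
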