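import Pool.Agent.GRP.D3
import Pool.Agent.GRP.D4

/-!
# [GRP-D5] the recursion for `nh` (uses D3, D4, A1)

PROOFS. `turn_mass`: as `P_turn` (GRW/D3): `mass_transport` for `A x x' = {ω | Hit ω h x x' ∧ ¬ ∃ x'', Hit ω (h+H) x x''}`;
`Hit_pred` iterated gives `(∃ x', Hit ω (h+H) x x') → ∃ x', Hit ω h x x'`.
`nh_rec`: `K ≥ 1` because `2 ≤ K * nh h`.  `P_two`: `1 ≤ K * P {Two ω h K}`.
Cover: if `Two ω h K`, let `a` be the least and `b` the largest element of `{c | 0 ≤ c < K, ∃ x, Hit ω h x c}`: `a < b` and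
`ω ∈ d4M h K a b`.  So `P {Two ω h K} ≤ ∑ a ∈ range K, ∑ b ∈ range K, if a < b then P (d4M h K a b) else 0`.
For `0 ≤ a < b < K` let `d = b - a`, `G a b = d4M h K a b ∩ {ω | Ex (shift (a, h) ω) (rect (-(6K+4)) (6K+4) 0 (4K+1)) (up 0) {(d, -1)}}`.
`d4M h K a b` depends only on the rows `0..h-1` (`Hit_congr`), so `P_inter_Ex_shift` (`v = (a, h)`) and `nu_num` give
`P (d4M h K a b) ≤ 2 * 10^17 * K^18 * P (G a b)`.  By `turn` (`H = 4K+2`) `G a b ⊆ TM a := {ω | ∃ x, Hit ω h x a ∧ ¬ ∃ x'', Hit ω (h+H) x x''}`.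
For fixed `a` the `G a b` are pairwise disjoint (`b` is the largest element) and measurable, so
`∑ b, P (G a b) ≤ P (TM a)`, which is `δ` with `δ + nh (h + H) = nh h`.  So
`1 ≤ K * P {Two} ≤ K * 2 * 10^17 * K^18 * K * δ = 2 * 10^17 * K^20 * δ`.
-/

namespace Pool.Agent.GRP

open Pool.Agent.GRW MeasureTheory Filter Topology

theorem d5_hit_mono {ω : Env} {h : ℕ} {x : ℤ} (H : ℕ) (hx : ∃ x', Hit ω (h + H) x x') : ∃ x', Hit ω h x x' := by
  induction H with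
  | zero => exact hx
  | succ n ih =>
    obtain ⟨x', hx'⟩ := hx
    exact ih (Hit_pred hx')

theorem d5_meas (h H : ℕ) (x x' : ℤ) :
    MeasurableSet {ω | Hit ω h x x' ∧ ¬ ∃ x'', Hit ω (h + H) x x''} :=
  (measurableSet_Hit h x x').inter (d3_measurableSet_ex (h + H) x).compl

theorem turn_mass (h H : ℕ) (a : ℤ) :
    P {ω | ∃ x, Hit ω h x a ∧ ¬ ∃ x'', Hit ω (h + H) x x''} + nh (h + H) = nh h := by
  have h1 : P {ω | ∃ x, Hit ω h x a ∧ ¬ ∃ x'', Hit ω (h + H) x x''} =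
      P {ω | ∃ y, ω ∈ {ω | Hit ω h 0 y ∧ ¬ ∃ x'', Hit ω (h + H) 0 x''}} := by
    refine mass_transport (fun x x' => {ω | Hit ω h x x' ∧ ¬ ∃ x'', Hit ω (h + H) x x''})
      (fun x x' => d5_meas h H x x') ?_ (fun _ _ _ _ h1 h2 => h1.1.right_unique h2.1)
      (fun _ _ _ _ h1 h2 => h1.1.left_unique h2.1) a
    intro b x x' ω
    simp only [Set.mem_ofPred_eq, Hit_shift]
    refine and_congr Iff.rfl (not_congr ?_)
    constructor
    · rintro ⟨x'', hx⟩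
      exact ⟨_, hx⟩
    · rintro ⟨x'', hx⟩
      exact ⟨x'' - b, by rwa [sub_add_cancel]⟩
  have h2 : {ω | ∃ y, ω ∈ {ω | Hit ω h 0 y ∧ ¬ ∃ x'', Hit ω (h + H) 0 x''}} =
      {ω | ∃ x', Hit ω h 0 x'} \ {ω | ∃ x', Hit ω (h + H) 0 x'} := by
    ext ω
    simp only [Set.mem_ofPred_eq, Set.mem_sdiff]
    constructor
    · rintro ⟨y, hy, hy'⟩
      exact ⟨⟨y, hy⟩, hy'⟩
    · rintro ⟨⟨y, hy⟩, hy'⟩
      exact ⟨y, hy, hy'⟩
  have h3 : {ω | ∃ x', Hit ω h 0 x'} ∩ {ω | ∃ x', Hit ω (h + H) 0 x'} =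
      {ω | ∃ x', Hit ω (h + H) 0 x'} := by
    refine Set.inter_eq_self_of_subset_right ?_
    intro ω hω
    exact d5_hit_mono H hω
  have h4 := measure_inter_add_sdiff (μ := P) {ω | ∃ x', Hit ω h 0 x'}
    (d3_measurableSet_ex (h + H) 0)
  rw [h3] at h4
  rw [h1, h2, add_comm]
  exact h4

theorem d5_cov (h K : ℕ) : {ω : Env | Two ω h K} ⊆
    ⋃ a ∈ Finset.range K, ⋃ b ∈ (Finset.range K).filter (fun b => a < b), d4M h K (a : ℤ) (b : ℤ) := by
  classical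
  intro ω hω
  obtain ⟨a, b, ha, hab, hb, hA, hB⟩ := hω
  have hne : ((Finset.range K).filter fun c : ℕ => ∃ x, Hit ω h x (c : ℤ)).Nonempty := by
    refine ⟨a.toNat, Finset.mem_filter.2 ⟨Finset.mem_range.2 (by omega), ?_⟩⟩
    rwa [Int.toNat_of_nonneg ha]
  set S := (Finset.range K).filter fun c : ℕ => ∃ x, Hit ω h x (c : ℤ) with hS
  have hmin := Finset.min'_mem S hne
  have hmax := Finset.max'_mem S hne
  have haS : a.toNat ∈ S := Finset.mem_filter.2 ⟨Finset.mem_range.2 (by omega), by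
    rwa [Int.toNat_of_nonneg ha]⟩
  have hbS : b.toNat ∈ S := Finset.mem_filter.2 ⟨Finset.mem_range.2 (by omega), by
    rwa [Int.toNat_of_nonneg (by omega : 0 ≤ b)]⟩
  have h1 := Finset.min'_le S _ haS
  have h2 := Finset.le_max' S _ hbS
  have hmin' := Finset.mem_filter.1 hmin
  have hmax' := Finset.mem_filter.1 hmax
  simp only [Set.mem_iUnion]
  refine ⟨S.min' hne, hmin'.1, S.max' hne, Finset.mem_filter.2 ⟨hmax'.1, by omega⟩, hmin'.2, hmax'.2, ?_⟩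
  intro c hc0 hcK hcx
  have hcS : c.toNat ∈ S := Finset.mem_filter.2 ⟨Finset.mem_range.2 (by omega), by
    rwa [Int.toNat_of_nonneg hc0]⟩
  have h3 := Finset.min'_le S _ hcS
  have h4 := Finset.le_max' S _ hcS
  omega

/-- the box of the arcs -/
noncomputable def d5D (K : ℕ) : Finset (ℤ × ℤ) := rect (-(6 * K + 4)) (6 * K + 4) 0 (4 * K + 1)

/-- the event that `a`, `b` are extreme and joined above row `h` -/
def d5G (h K a b : ℕ) : Set Env :=
  d4M h K (a : ℤ) (b : ℤ) ∩ {ω | Ex (shift ((a : ℤ), (h : ℤ)) ω) (d5D K) (up 0) {(((b - a : ℕ) : ℤ), -1)}}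

theorem d5_one {h K a b : ℕ} (hab : a < b) (hb : b < K) :
    P (d4M h K (a : ℤ) (b : ℤ)) ≤ 2 * 10 ^ 17 * (K : ENNReal) ^ 18 * P (d5G h K a b) := by
  have hJD : ∀ ω ω' : Env, (∀ s, s - ((a : ℤ), (h : ℤ)) ∉ d5D K → ω s = ω' s) →
      (ω ∈ d4M h K (a : ℤ) (b : ℤ) ↔ ω' ∈ d4M h K (a : ℤ) (b : ℤ)) := by
    intro ω ω' hs
    have hc : ∀ x x', Hit ω h x x' ↔ Hit ω' h x x' := by
      intro x x'
      refine Hit_congr (fun s _ h2 => hs s ?_) x x'
      intro hmem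
      unfold d5D at hmem
      rw [mem_rect] at hmem
      have h3 : (0 : ℤ) ≤ s.2 - h := hmem.2.1
      omega
    simp only [d4M, Set.mem_ofPred_eq, hc]
  have h1 := P_inter_Ex_shift (d5D K) ((a : ℤ), (h : ℤ)) (d4_measM h K (a : ℤ) (b : ℤ)) hJD (up 0)
    {(((b - a : ℕ) : ℤ), -1)}
  have h2 : 1 ≤ 2 * 10 ^ 17 * (K : ENNReal) ^ 18 *
      P {ω | Ex ω (d5D K) (up 0) {(((b - a : ℕ) : ℤ), -1)}} :=
    nu_num (K := K) (d := b - a) (by omega) (by omega)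
  have h3 : P (d5G h K a b) = P (d4M h K (a : ℤ) (b : ℤ)) *
      P {ω | Ex ω (d5D K) (up 0) {(((b - a : ℕ) : ℤ), -1)}} := h1
  rw [h3]
  calc P (d4M h K (a : ℤ) (b : ℤ)) = P (d4M h K (a : ℤ) (b : ℤ)) * 1 := (mul_one _).symm
    _ ≤ P (d4M h K (a : ℤ) (b : ℤ)) * (2 * 10 ^ 17 * (K : ENNReal) ^ 18 *
          P {ω | Ex ω (d5D K) (up 0) {(((b - a : ℕ) : ℤ), -1)}}) := by gcongr
    _ = _ := by ring

theorem d5_sum (h K a : ℕ) : ∑ b ∈ (Finset.range K).filter (fun b => a < b), P (d5G h K a b) ≤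
    P {ω | ∃ x, Hit ω h x a ∧ ¬ ∃ x'', Hit ω (h + (4 * K + 2)) x x''} := by
  rw [← measure_biUnion_finset]
  · refine measure_mono ?_
    intro ω hω
    simp only [Set.mem_iUnion] at hω
    obtain ⟨b, hb, ⟨⟨y₁, h1⟩, ⟨y₂, h2⟩, _⟩, hE⟩ := hω
    obtain ⟨hb1, hb2⟩ := Finset.mem_filter.1 hb
    refine ⟨y₁, h1, ?_⟩
    rintro ⟨x'', hx''⟩
    refine turn (H := 4 * K + 2) (A := -(6 * K + 4)) (B := 6 * K + 4) h1 h2 ?_ x'' hx''
    have e1 : (((4 * K + 2 : ℕ) : ℤ) - 1) = 4 * K + 1 := by push_cast; ring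
    have e2 : ((b : ℤ) - a) = ((b - a : ℕ) : ℤ) := by omega
    rw [e1, e2]
    exact hE
  · intro b hb b' hb' hbb'
    refine Set.disjoint_left.2 fun ω h1 h2 => hbb' ?_
    obtain ⟨⟨_, hB, hext⟩, _⟩ := h1
    obtain ⟨⟨_, hB', hext'⟩, _⟩ := h2
    have hbK := Finset.mem_range.1 (Finset.mem_filter.1 (Finset.mem_coe.1 hb)).1
    have hbK' := Finset.mem_range.1 (Finset.mem_filter.1 (Finset.mem_coe.1 hb')).1
    have e1 := (hext b' (by positivity) (by exact_mod_cast hbK') hB').2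
    have e2 := (hext' b (by positivity) (by exact_mod_cast hbK) hB).2
    omega
  · intro b _
    refine (d4_measM h K a b).inter ?_
    have hm : MeasurableSet {ω : Env | Ex ω (d5D K) (up 0) {(((b - a : ℕ) : ℤ), -1)}} :=
      measurableSet_Ex _ _ _
    exact (mp_shift ((a : ℤ), (h : ℤ))).measurable hm
theorem nh_rec {h K : ℕ} (hK : 2 ≤ (K : ENNReal) * nh h) :
    nh (h + (4 * K + 2)) + (2 * 10 ^ 17 * (K : ENNReal) ^ 20)⁻¹ ≤ nh h := by
  set δ : ENNReal := P {ω | ∃ x, Hit ω h x ((0 : ℕ) : ℤ) ∧ ¬ ∃ x'', Hit ω (h + (4 * K + 2)) x x''} with hδ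
  have h0 := turn_mass h (4 * K + 2) ((0 : ℕ) : ℤ)
  rw [← hδ] at h0
  have hall : ∀ a : ℕ, P {ω | ∃ x, Hit ω h x a ∧ ¬ ∃ x'', Hit ω (h + (4 * K + 2)) x x''} = δ := by
    intro a
    have h1 := turn_mass h (4 * K + 2) (a : ℤ)
    rw [← h0] at h1
    exact (ENNReal.add_left_inj (ne_top_of_le_ne_top ENNReal.one_ne_top (nh_le_one (h + (4 * K + 2))))).1 h1
  have h1 : P {ω | Two ω h K} ≤ (K : ENNReal) * (2 * 10 ^ 17 * (K : ENNReal) ^ 18 * δ) := by
    calc P {ω | Two ω h K}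
        ≤ P (⋃ a ∈ Finset.range K, ⋃ b ∈ (Finset.range K).filter (fun b => a < b),
            d4M h K (a : ℤ) (b : ℤ)) := measure_mono (d5_cov h K)
      _ ≤ ∑ a ∈ Finset.range K, P (⋃ b ∈ (Finset.range K).filter (fun b => a < b),
            d4M h K (a : ℤ) (b : ℤ)) := measure_biUnion_finset_le _ _
      _ ≤ ∑ a ∈ Finset.range K, ∑ b ∈ (Finset.range K).filter (fun b => a < b),
            P (d4M h K (a : ℤ) (b : ℤ)) := Finset.sum_le_sum fun a _ => measure_biUnion_finset_le _ _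
      _ ≤ ∑ a ∈ Finset.range K, 2 * 10 ^ 17 * (K : ENNReal) ^ 18 * δ := by
          refine Finset.sum_le_sum fun a _ => ?_
          calc ∑ b ∈ (Finset.range K).filter (fun b => a < b), P (d4M h K (a : ℤ) (b : ℤ))
              ≤ ∑ b ∈ (Finset.range K).filter (fun b => a < b),
                  2 * 10 ^ 17 * (K : ENNReal) ^ 18 * P (d5G h K a b) := by
                refine Finset.sum_le_sum fun b hb => ?_
                obtain ⟨hb1, hb2⟩ := Finset.mem_filter.1 hb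
                exact d5_one hb2 (Finset.mem_range.1 hb1)
            _ = 2 * 10 ^ 17 * (K : ENNReal) ^ 18 *
                  ∑ b ∈ (Finset.range K).filter (fun b => a < b), P (d5G h K a b) := by
                rw [Finset.mul_sum]
            _ ≤ 2 * 10 ^ 17 * (K : ENNReal) ^ 18 * δ := by
                gcongr
                exact (d5_sum h K a).trans (hall a).le
      _ = _ := by
          rw [Finset.sum_const, Finset.card_range, nsmul_eq_mul]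
  have h2 : 1 ≤ 2 * 10 ^ 17 * (K : ENNReal) ^ 20 * δ := by
    calc (1 : ENNReal) ≤ (K : ENNReal) * P {ω | Two ω h K} := P_two h K hK
      _ ≤ (K : ENNReal) * ((K : ENNReal) * (2 * 10 ^ 17 * (K : ENNReal) ^ 18 * δ)) := by gcongr
      _ = _ := by ring
  set C : ENNReal := 2 * 10 ^ 17 * (K : ENNReal) ^ 20 with hC
  have hCtop : C ≠ ⊤ := by rw [hC]; finiteness
  have hC0 : C ≠ 0 := by
    intro h3
    rw [h3, zero_mul] at h2
    exact absurd h2 (by simp)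
  have h3 : C⁻¹ ≤ δ := by
    calc C⁻¹ = C⁻¹ * 1 := (mul_one _).symm
      _ ≤ C⁻¹ * (C * δ) := by gcongr
      _ = δ := by rw [← mul_assoc, ENNReal.inv_mul_cancel hC0 hCtop, one_mul]
  calc nh (h + (4 * K + 2)) + C⁻¹ ≤ nh (h + (4 * K + 2)) + δ := by gcongr
    _ = nh h := by rw [add_comm]; exact h0

end Pool.Agent.GRP
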