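import Pool.Agent.GRP.D5

/-!
# [GRP-D6] polynomial decay of `nh` (uses D5)

PROOF. Claim: for `K ≥ 1` and `h ≥ 12 * 10^17 * K^21` one has `K * nh h ≤ 2`.  Otherwise `2 ≤ K * nh h'` for all `h' ≤ h`
(`nh_anti`).  Let `M = 2 * 10^17 * K^20`, `H = 4K+2`; by `nh_rec` and induction on `j`:
`nh (j H) + j * (M : ENNReal)⁻¹ ≤ 1` for `j ≤ M` (all `j H ≤ M H ≤ h`, since `4K+2 ≤ 6K`; start: `nh_le_one`).
For `j = M` this gives `nh (M H) + 1 ≤ 1`, so `nh (M H) = 0`, but `2 ≤ K * nh (M H)`: contradiction.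
Theorem: let `t = (h : ℝ)^(1/21)`.  If `t < 15/2` then `30 / t ≥ 4 ≥ 1` and `nh_le_one` suffices.  Otherwise let `K = ⌊t / (15/2)⌋₊ ≥ 1`;
`(15/2)^21 ≥ 12 * 10^17` (`norm_num`), so `12 * 10^17 * K^21 ≤ (15/2)^21 * K^21 ≤ t^21 = h`, and `K ≥ t / 15` (as `K + 1 > t/(15/2)`,
`K ≥ 1`), so `nh h ≤ 2 / K ≤ 30 / t`.
-/

namespace Pool.Agent.GRP

open Pool.Agent.GRW MeasureTheory Filter Topology

theorem d6_claim {K h : ℕ} (hK : 1 ≤ K) (hh : 12 * 10 ^ 17 * K ^ 21 ≤ h) :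
    (K : ENNReal) * nh h ≤ 2 := by
  by_contra hcon
  have hcon' : 2 < (K : ENNReal) * nh h := not_le.1 hcon
  have h2 : ∀ h' ≤ h, 2 ≤ (K : ENNReal) * nh h' := by
    intro h' hh'
    refine hcon'.le.trans ?_
    have := nh_anti hh'
    gcongr
  obtain ⟨M, hM⟩ : ∃ M : ℕ, M = 2 * 10 ^ 17 * K ^ 20 := ⟨_, rfl⟩
  have hMH : M * (4 * K + 2) ≤ h := by
    calc M * (4 * K + 2) ≤ M * (6 * K) := Nat.mul_le_mul_left _ (by omega)
      _ = 12 * 10 ^ 17 * K ^ 21 := by rw [hM]; ring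
      _ ≤ h := hh
  have hind : ∀ j : ℕ, j ≤ M → nh (j * (4 * K + 2)) + j * (M : ENNReal)⁻¹ ≤ 1 := by
    intro j
    induction j with
    | zero => intro _; simpa using nh_le_one 0
    | succ j ih =>
      intro hj
      have h1 := ih (by omega)
      have h3 : j * (4 * K + 2) ≤ h := (Nat.mul_le_mul_right _ (by omega)).trans hMH
      have h4 := nh_rec (h2 _ h3)
      have h5 : (j + 1) * (4 * K + 2) = j * (4 * K + 2) + (4 * K + 2) := by ring
      have h6 : (2 * 10 ^ 17 * (K : ENNReal) ^ 20)⁻¹ = (M : ENNReal)⁻¹ := by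
        rw [hM]; push_cast; norm_num
      rw [h6] at h4
      rw [h5]
      calc nh (j * (4 * K + 2) + (4 * K + 2)) + ((j + 1 : ℕ) : ENNReal) * (M : ENNReal)⁻¹
          = (nh (j * (4 * K + 2) + (4 * K + 2)) + (M : ENNReal)⁻¹) + j * (M : ENNReal)⁻¹ := by
            push_cast; ring
        _ ≤ nh (j * (4 * K + 2)) + j * (M : ENNReal)⁻¹ := by gcongr
        _ ≤ 1 := h1
  have hM0 : (M : ENNReal) ≠ 0 := by
    have : 0 < M := by rw [hM]; positivity
    exact_mod_cast this.ne'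
  have h7 := hind M le_rfl
  rw [ENNReal.mul_inv_cancel hM0 (ENNReal.natCast_ne_top M)] at h7
  have h8 : nh (M * (4 * K + 2)) ≤ 0 := by
    have h10 : nh (M * (4 * K + 2)) + 1 ≤ 0 + 1 := by simpa using h7
    exact (ENNReal.add_le_add_iff_right ENNReal.one_ne_top).1 h10
  have h11 : nh (M * (4 * K + 2)) = 0 := by simpa using h8
  have h9 := h2 _ hMH
  rw [h11, mul_zero] at h9
  simp at h9

theorem nh_poly (h : ℕ) (hh : 1 ≤ h) :
    nh h ≤ ENNReal.ofReal (30 * (h : ℝ) ^ (-(1 / 21 : ℝ))) := by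
  obtain ⟨t, ht⟩ : ∃ t : ℝ, t = (h : ℝ) ^ (1 / 21 : ℝ) := ⟨_, rfl⟩
  have hh0 : (0 : ℝ) < h := by exact_mod_cast hh
  have ht0 : 0 < t := by rw [ht]; exact Real.rpow_pos_of_pos hh0 _
  have ht21 : t ^ 21 = (h : ℝ) := by
    rw [ht, ← Real.rpow_natCast, ← Real.rpow_mul hh0.le]
    norm_num
  have htinv : (h : ℝ) ^ (-(1 / 21 : ℝ)) = t⁻¹ := by
    rw [ht, Real.rpow_neg hh0.le]
  rw [htinv]
  by_cases hc : t < 15 / 2
  · refine (nh_le_one h).trans ?_
    rw [← ENNReal.ofReal_one]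
    apply ENNReal.ofReal_le_ofReal
    rw [← div_eq_mul_inv, le_div_iff₀ ht0]
    linarith
  · have hc' : 15 / 2 ≤ t := not_lt.1 hc
    obtain ⟨K, hK⟩ : ∃ K : ℕ, K = ⌊t / (15 / 2)⌋₊ := ⟨_, rfl⟩
    have hq0 : 0 ≤ t / (15 / 2) := by positivity
    have hq1 : 1 ≤ t / (15 / 2) := by
      rw [le_div_iff₀ (by norm_num)]; linarith
    have hK1 : 1 ≤ K := by
      rw [hK]
      exact Nat.le_floor (by exact_mod_cast hq1)
    have hKle : (K : ℝ) ≤ t / (15 / 2) := by rw [hK]; exact Nat.floor_le hq0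
    have hKlt : t / (15 / 2) < (K : ℝ) + 1 := by rw [hK]; exact Nat.lt_floor_add_one _
    have hK1r : (1 : ℝ) ≤ K := by exact_mod_cast hK1
    have hKt : (15 / 2 : ℝ) * K ≤ t := by
      rw [le_div_iff₀ (by norm_num)] at hKle
      linarith
    have hKt2 : t ≤ 15 * K := by
      rw [div_lt_iff₀ (by norm_num)] at hKlt
      linarith
    have hbig : 12 * 10 ^ 17 * K ^ 21 ≤ h := by
      have hr : (12 * 10 ^ 17 * (K : ℝ) ^ 21) ≤ (h : ℝ) := by
        calc (12 * 10 ^ 17 * (K : ℝ) ^ 21) ≤ (15 / 2 : ℝ) ^ 21 * (K : ℝ) ^ 21 := by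
              apply mul_le_mul_of_nonneg_right _ (by positivity)
              norm_num
          _ = ((15 / 2 : ℝ) * K) ^ 21 := by rw [mul_pow]
          _ ≤ t ^ 21 := pow_le_pow_left₀ (by positivity) hKt 21
          _ = h := ht21
      exact_mod_cast hr
    have hcl := d6_claim hK1 hbig
    have hK0 : (0 : ℝ) < K := by linarith
    have hdiv : nh h ≤ 2 / (K : ENNReal) := by
      rw [ENNReal.le_div_iff_mul_le (Or.inl (by exact_mod_cast (by omega : K ≠ 0)))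
        (Or.inl (ENNReal.natCast_ne_top K)), mul_comm]
      exact hcl
    refine hdiv.trans ?_
    have h2K : (2 : ENNReal) / (K : ENNReal) = ENNReal.ofReal (2 / (K : ℝ)) := by
      rw [ENNReal.ofReal_div_of_pos hK0, ENNReal.ofReal_natCast]
      norm_num
    rw [h2K]
    apply ENNReal.ofReal_le_ofReal
    rw [← div_eq_mul_inv, div_le_div_iff₀ hK0 ht0]
    linarith

end Pool.Agent.GRP
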