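import Pool.Agent.GRW.D4
import Pool.Agent.GRW.C3
import Pool.Agent.GRW.C5
import Pool.Agent.GRW.K5

/-! # GRP : definitions (exits of trails from boxes, reflection, periodised environment) -/

namespace Pool.Agent.GRP

open Pool.Agent.GRW MeasureTheory Filter Topology

/-- The trail from `z` stays in `Q` at the times `1, ..., n` and is in `W` at time `n + 1`. -/
def Ex (ω : Env) (Q : Set (ℤ × ℤ)) (z : Dart) (W : Set (ℤ × ℤ)) : Prop :=
  ∃ n, (∀ i, 0 < i → i ≤ n → (orb ω z i).1 ∈ Q) ∧ (orb ω z (n + 1)).1 ∈ W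

/-- the rectangle `[a, b] × [c, d]` -/
noncomputable def rect (a b c d : ℤ) : Finset (ℤ × ℤ) := Finset.Icc a b ×ˢ Finset.Icc c d

theorem mem_rect {a b c d : ℤ} {s : ℤ × ℤ} :
    s ∈ rect a b c d ↔ (a ≤ s.1 ∧ s.1 ≤ b) ∧ c ≤ s.2 ∧ s.2 ≤ d := by
  simp [rect, Finset.mem_product, Finset.mem_Icc]

/-- the strip of the rows `a, ..., b` -/
def rows (a b : ℤ) : Set (ℤ × ℤ) := {s | a ≤ s.2 ∧ s.2 ≤ b}

/-- a column -/
def colS (a : ℤ) : Set (ℤ × ℤ) := {s | s.1 = a}

/-- a row -/
def rowS (b : ℤ) : Set (ℤ × ℤ) := {s | s.2 = b}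

/-- the walker at `(x, -1)` going north -/
def up (x : ℤ) : Dart := ((x, -1), 1)

/-- the walker at `(x, 0)` going south -/
def down (x : ℤ) : Dart := ((x, 0), 3)

/-- the square `[-k, k] × [0, 2k]` -/
noncomputable def Sq (k : ℕ) : Finset (ℤ × ℤ) := rect (-(k : ℤ)) k 0 (2 * k)

/-- probability that the trail from `up 0` leaves the square `Sq k` through the top -/
noncomputable def pT (k : ℕ) : ENNReal := P {ω | Ex ω (Sq k) (up 0) (rowS (2 * k + 1))}

/-- probability that the trail from `up 0` leaves the square `Sq k` through the right side -/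
noncomputable def pS (k : ℕ) : ENNReal := P {ω | Ex ω (Sq k) (up 0) (colS (k + 1))}

/-- reflection of the sites in the vertical axis -/
def refl (s : ℤ × ℤ) : ℤ × ℤ := (-s.1, s.2)

/-- reflection of darts -/
def refD (x : Dart) : Dart := (refl x.1, 2 - x.2)

/-- reflected environment: `refE ω` seen by the reflected darts is `ω` -/
def refE (ω : Env) : Env := fun s => sw (ω (refl s))

/-- the representative of `x` modulo `2 r + 1` in `[-r, r]` -/
def red (r : ℕ) (x : ℤ) : ℤ := (x + r) % (2 * r + 1) - r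

/-- the environment on the columns `-r, ..., r`, repeated with period `2 r + 1` -/
def per (r : ℕ) (ω : Env) : Env := fun s => ω (red r s.1, s.2)

/-- `ω` has horizontal period `2 r + 1` -/
def IsPer (r : ℕ) (ω : Env) : Prop := ∀ s : ℤ × ℤ, ω (s.1 + (2 * r + 1), s.2) = ω s

/-- the trail from `up x` stays in the rows `0, ..., H - 1` and returns to row `-1` at `(x', -1)` -/
def Ret (ω : Env) (H : ℕ) (x x' : ℤ) : Prop := Ex ω (rows 0 ((H : ℤ) - 1)) (up x) {(x', -1)}

/-- the trail from `down v` stays in the rows `-H, ..., -1` and returns to row `0` at `(x, 0)` -/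
def LRet (ω : Env) (H : ℕ) (v x : ℤ) : Prop := Ex ω (rows (-(H : ℤ)) (-1)) (down v) {(x, 0)}

/-- the trail from `down v` stays in the rows `-H, ..., -1` and then steps to row `-H - 1` -/
def LHit (ω : Env) (H : ℕ) (v : ℤ) : Prop := Ex ω (rows (-(H : ℤ)) (-1)) (down v) (rowS (-(H : ℤ) - 1))

/-- probability that the trail from `up 0` visits a column beyond distance `d` before it returns to row `-1` -/
noncomputable def lat (d : ℕ) : ENNReal :=
  P {ω | ∃ n, 0 < n ∧ (∀ i, 0 < i → i ≤ n → 0 ≤ (orb ω (up 0) i).1.2) ∧ (d : ℤ) < |(orb ω (up 0) n).1.1|}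

end Pool.Agent.GRP
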