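import Pool.Agent.GRP.Defs
import Pool.Agent.GRW.K6

/-!
# [GRP-E1] comparison of the walk with the environment for stopped events (uses only the library GRW)

PROOF. Let `T' n x` = `T n x` and not `T m x` for all `1 ≤ m < n`; it depends on `x 0, ..., x n` only.  Call a path `y : Fin (n+1) → ℤ × ℤ` (extended by
zero, `k6_pad n y`) good (for `n ≥ 1`) if `k6_pad n y 0 = 0`, `k6_pad n y 1 = dv k`, steps `< n` fresh, `k6_pad n y r ≠ 0` for `0 < r ≤ n` and `T' n (k6_pad n y)`.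
The left event is contained in `⋃ n ≥ 1, ⋃ y good, cyl X n (k6_pad n y)` (take the least `n ≥ 1` with `T n`; `FreshStep` for `r < n`
depends on `x 0, ..., x n` only: `k6_fresh_congr`).  `compare` with `L = 0`, `D = ∅`, `c` arbitrary (`modEnv ∅ c ω = ω`; `hE`:
`evenAt_zero`; `hC`: at time `0` no edge is crossed, `freshDirs_zero`, so `Compat` is trivial) gives
`μ (cyl X n (k6_pad n y)) ≤ P (Follow ∅ c (k6_pad n y) 0 k n)`.  These events (`n ≥ 1`, `y` good) are pairwise disjoint: if `ω` is in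
the ones of `(n, y)` and `(n', y')`, `n ≤ n'`, then the two paths agree up to time `n`, so `T n` holds for `y'`, hence `n = n'` by `T'`, and
`y = y'`.  They are measurable (`measurableSet_follow`) and contained in the event on the right (`T n` for the trail:
it agrees with the path up to time `n`).  `measure_iUnion` twice (countable), or over `Σ n, (Fin (n+1) → ℤ × ℤ)`.
Compare the proof of `compare_event` (GRW/K6).
-/

namespace Pool.Agent.GRP

open Pool.Agent.GRW MeasureTheory Filter Topology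

theorem e1_mod (c ω : Env) : modEnv ∅ c ω = ω := by
  funext u
  simp [modEnv]

/-- the good paths -/
def e1_Good (k : Fin 4) (T : ℕ → (ℕ → ℤ × ℤ) → Prop) (i : Σ n : ℕ, (Fin (n + 1) → ℤ × ℤ)) : Prop :=
  1 ≤ i.1 ∧ k6_pad i.1 i.2 0 = 0 ∧ k6_pad i.1 i.2 1 = dv k ∧
    (∀ r < i.1, FreshStep (k6_pad i.1 i.2) r) ∧ (∀ r, 0 < r → r ≤ i.1 → k6_pad i.1 i.2 r ≠ 0) ∧
    T i.1 (k6_pad i.1 i.2) ∧ ∀ m, 1 ≤ m → m < i.1 → ¬ T m (k6_pad i.1 i.2)

theorem e1_follow {k : Fin 4} {T : ℕ → (ℕ → ℤ × ℤ) → Prop} {c ω : Env}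
    {i : Σ n : ℕ, (Fin (n + 1) → ℤ × ℤ)} (hg : e1_Good k T i)
    (h : ω ∈ Follow ∅ c (k6_pad i.1 i.2) 0 k i.1) :
    ∀ t, t ≤ i.1 → (orb ω (0, k) t).1 = k6_pad i.1 i.2 t := by
  intro t ht
  have h1 := h t (by omega)
  rw [e1_mod, hg.2.1, Nat.zero_add] at h1
  exact h1

theorem e1_le {k : Fin 4} {T : ℕ → (ℕ → ℤ × ℤ) → Prop}
    (hT : ∀ (n : ℕ) (x y : ℕ → ℤ × ℤ), (∀ j ≤ n, x j = y j) → T n x → T n y) {c ω : Env}
    {i j : Σ n : ℕ, (Fin (n + 1) → ℤ × ℤ)} (hi : e1_Good k T i) (hj : e1_Good k T j)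
    (h1 : ω ∈ Follow ∅ c (k6_pad i.1 i.2) 0 k i.1) (h2 : ω ∈ Follow ∅ c (k6_pad j.1 j.2) 0 k j.1) :
    j.1 ≤ i.1 := by
  by_contra hlt
  push Not at hlt
  have h3 : ∀ t ≤ i.1, k6_pad i.1 i.2 t = k6_pad j.1 j.2 t := fun t ht => by
    rw [← e1_follow hi h1 t ht, ← e1_follow hj h2 t (by omega)]
  exact hj.2.2.2.2.2.2 i.1 hi.1 hlt (hT _ _ _ h3 hi.2.2.2.2.2.1)

theorem grw_upper {Ω : Type*} [MeasurableSpace Ω] {μ : Measure Ω} {X : ℕ → Ω → ℤ × ℤ}
    [IsProbabilityMeasure μ] (hX : IsGRW μ X) (k : Fin 4) (T : ℕ → (ℕ → ℤ × ℤ) → Prop)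
    (hT : ∀ (n : ℕ) (x y : ℕ → ℤ × ℤ), (∀ j ≤ n, x j = y j) → T n x → T n y) :
    μ {ω | ∃ n, 1 ≤ n ∧ X 0 ω = 0 ∧ X 1 ω = dv k ∧ (∀ r < n, FreshStep (fun j => X j ω) r) ∧
        (∀ r, 0 < r → r ≤ n → X r ω ≠ 0) ∧ T n (fun j => X j ω)} ≤
      P {ω | ∃ n, 1 ≤ n ∧ T n (fun i => (orb ω (0, k) i).1)} := by
  classical
  set E : Set Ω := {ω | ∃ n, 1 ≤ n ∧ X 0 ω = 0 ∧ X 1 ω = dv k ∧ (∀ r < n, FreshStep (fun j => X j ω) r) ∧
        (∀ r, 0 < r → r ≤ n → X r ω ≠ 0) ∧ T n (fun j => X j ω)} with hEdef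
  let c : Env := fun _ => 0
  let Cy : (Σ n : ℕ, (Fin (n + 1) → ℤ × ℤ)) → Set Ω := fun i =>
    if e1_Good k T i then cyl X i.1 (k6_pad i.1 i.2) else ∅
  let Fo : (Σ n : ℕ, (Fin (n + 1) → ℤ × ℤ)) → Set Env := fun i =>
    if e1_Good k T i then Follow ∅ c (k6_pad i.1 i.2) 0 k i.1 else ∅
  have hFm : ∀ i, MeasurableSet (Fo i) := by
    intro i
    by_cases hi : e1_Good k T i
    · simp only [Fo]
      rw [if_pos hi]
      exact measurableSet_follow ∅ c _ 0 k i.1
    · simp only [Fo]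
      rw [if_neg hi]
      exact MeasurableSet.empty
  have hFd : Pairwise (Function.onFun Disjoint Fo) := by
    intro i j hij
    refine Set.disjoint_left.2 fun ω h1 h2 => hij ?_
    by_cases hi : e1_Good k T i
    · by_cases hj : e1_Good k T j
      · simp only [Fo] at h1 h2
        rw [if_pos hi] at h1
        rw [if_pos hj] at h2
        have e := le_antisymm (e1_le hT hj hi h2 h1) (e1_le hT hi hj h1 h2)
        obtain ⟨n, y⟩ := i
        obtain ⟨m, z⟩ := j
        simp only at e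
        subst e
        have h5 : y = z := by
          funext t
          have e1 : k6_pad n y t = y t := by
            unfold k6_pad
            rw [dif_pos t.2]
          have e2 : k6_pad n z t = z t := by
            unfold k6_pad
            rw [dif_pos t.2]
          have ht := t.2
          rw [← e1, ← e2, ← e1_follow hi h1 t (by simp only; omega),
            ← e1_follow hj h2 t (by simp only; omega)]
        rw [h5]
      · simp only [Fo] at h2
        rw [if_neg hj] at h2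
        exact absurd h2 (Set.notMem_empty _)
    · simp only [Fo] at h1
      rw [if_neg hi] at h1
      exact absurd h1 (Set.notMem_empty _)
  have hFsub : (⋃ i, Fo i) ⊆ {ω | ∃ n, 1 ≤ n ∧ T n (fun i => (orb ω (0, k) i).1)} := by
    intro ω hω
    obtain ⟨i, hi⟩ := Set.mem_iUnion.1 hω
    by_cases hg : e1_Good k T i
    · simp only [Fo] at hi
      rw [if_pos hg] at hi
      exact ⟨i.1, hg.1, hT _ _ _ (fun t ht => (e1_follow hg hi t ht).symm) hg.2.2.2.2.2.1⟩
    · simp only [Fo] at hi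
      rw [if_neg hg] at hi
      exact absurd hi (Set.notMem_empty _)
  have hle : ∀ i, μ (Cy i) ≤ P (Fo i) := by
    intro i
    by_cases hg : e1_Good k T i
    · simp only [Cy, Fo]
      rw [if_pos hg, if_pos hg]
      refine compare hX (evenAt_zero _) (fun u hu => absurd hu (Finset.notMem_empty u)) ?_ ?_ i.1
        (by have := hg.1; omega) (fun r _ hr => hg.2.2.2.1 r hr) ?_
      · intro ω u _ d hd
        rw [freshDirs_zero] at hd
        exact absurd (Finset.mem_univ d) hd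
      · rw [hg.2.1, Nat.zero_add, hg.2.2.1, zero_add]
      · intro r hr hr2
        rw [hg.2.1]
        exact hg.2.2.2.2.1 r hr hr2
    · simp only [Cy, Fo]
      rw [if_neg hg, if_neg hg, measure_empty]
      exact zero_le
  have hEsub : E ⊆ ⋃ i, Cy i := by
    rintro ω ⟨n, hn, h0, h1, h2, h3, h4⟩
    have hex : ∃ n, 1 ≤ n ∧ T n (fun j => X j ω) := ⟨n, hn, h4⟩
    set m := Nat.find hex with hm
    have hm1 := Nat.find_spec hex
    have hmn : m ≤ n := Nat.find_min' hex ⟨hn, h4⟩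
    have hpad : ∀ j ≤ m, X j ω = k6_pad m (fun j => X j ω) j := by
      intro j hj
      unfold k6_pad
      rw [dif_pos (by omega)]
    rw [Set.mem_iUnion]
    refine ⟨⟨m, fun j => X j ω⟩, ?_⟩
    have hg : e1_Good k T ⟨m, fun j => X j ω⟩ := by
      refine ⟨hm1.1, ?_, ?_, ?_, ?_, ?_, ?_⟩
      · rw [← hpad 0 (by omega)]
        exact h0
      · rw [← hpad 1 hm1.1]
        exact h1
      · intro r hr
        exact k6_fresh_congr (x := fun j => X j ω) hpad hr (h2 r (by simp only at hr; omega))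
      · intro r hr hr2
        rw [← hpad r hr2]
        exact h3 r hr (by simp only at hr2; omega)
      · exact hT _ _ _ hpad hm1.2
      · intro r hr hr2 hTr
        simp only at hr2
        exact Nat.find_min hex hr2 ⟨hr, hT _ _ _ (fun j hj => (hpad j (by omega)).symm) hTr⟩
    simp only [Cy]
    rw [if_pos hg]
    exact hpad
  calc μ E ≤ μ (⋃ i, Cy i) := measure_mono hEsub
    _ ≤ ∑' i, μ (Cy i) := measure_iUnion_le _
    _ ≤ ∑' i, P (Fo i) := ENNReal.tsum_le_tsum hle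
    _ = P (⋃ i, Fo i) := (measure_iUnion hFd hFm).symm
    _ ≤ _ := measure_mono hFsub

end Pool.Agent.GRP
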