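import Pool.Agent.GRP.Defs
import Pool.Agent.GRW.C3
import Pool.Agent.GRW.D3
import Pool.Agent.GRW.K2
import Pool.Agent.GRW.K3

/-!
# [GRP-E2a] the first excursion from the axis: environment (uses only the library GRW)

PROOFS. `exc_no_return`: let `x` be greedy with `x m ≠ 0` for `1 ≤ m ≤ n`; by strong induction every step `r < n` is fresh: if the steps
`< r` are fresh and `Stuck x r` then `x r = x 0 = 0` by `stuck_return` (`evenAt_zero`), so `r = 0`, but `x` is not stuck at time `0` (`freshDirs_zero`).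
`exc_up`: by `orb_tr` with `v = (0, 1)`: `((0,0),1) = tr (0,1) (up 0)`, so the site of `orb ω (0, 1) i` is that of `orb (shift (0,1) ω) (up 0) i` plus `(0, 1)`.
If `excT h n` holds then the rows of the latter are `≥ 0` for `1 ≤ i ≤ n`, and at time `n` the row is `≥ h - 1` or the column has absolute value `> h - 1`.
In the second case `shift (0,1) ω` is in the event of `lat (h - 1)`.  In the first case let `n'` be the least number `≥ 1` such that the row at time `n'` is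
`≥ h - 1`: for `h ≥ 2` it is `= h - 1` by unit steps (`d1_row_succ`, `d1_dv`) and `d1_enter` (with `n' - 1`) gives `∃ x', Hit (shift (0,1) ω) (h - 1) 0 x'`; for
`h = 1` `Hit _ 0 0 0` holds with `n = 0`.  `mp_shift` gives the bounds `nh (h - 1)` and `lat (h - 1)` (measurability: `d3_measurableSet_ex`,
and the event of `lat` is a countable union of finite intersections, `measurableSet_orb_mem`).
`exc_down`: rotation by 180 degrees: `rotD (rotD (0, 1)) = (0, 3)` and `rho (rho s) = -s`; `orb_rot` twice, `mp_rotE` twice: the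
probability is the one in `exc_up` (the sites of `orb ω (0, 3) i` are the negatives of those of `orb (rotE (rotE ω)) (0, 1) i`); the event is measurable
(countable union over `n` of finite intersections, `measurableSet_orb_mem`; for fixed `n` the condition concerns the sites at the times `1, ..., n`).
-/

namespace Pool.Agent.GRP

open Pool.Agent.GRW MeasureTheory Filter Topology

/-- the rows at the times `1, ..., n` are positive, and at time `n` the row is at least `h`, or (if `b` holds) the column has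
absolute value at least `h` -/
def excT (b : Prop) (h : ℕ) (n : ℕ) (x : ℕ → ℤ × ℤ) : Prop :=
  (∀ m, 1 ≤ m → m ≤ n → 1 ≤ (x m).2) ∧ ((h : ℤ) ≤ (x n).2 ∨ (b ∧ (h : ℤ) ≤ |(x n).1|))

theorem exc_no_return {x : ℕ → ℤ × ℤ} (hx : Greedy x) {n : ℕ}
    (h : ∀ m, 1 ≤ m → m ≤ n → x m ≠ 0) : ∀ r < n, FreshStep x r := by
  intro r
  induction r using Nat.strong_induction_on with
  | _ r ih =>
    intro hr
    refine (hx.2 r).2 ?_
    intro hs
    have h1 := stuck_return (evenAt_zero x) (Nat.zero_le r) (fun r' _ h2 => ih r' h2 (by omega)) hs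
    rw [hx.1] at h1
    rcases Nat.eq_zero_or_pos r with h0 | h0
    · subst h0
      have h2 : freshDirs x 0 (x 0) = ∅ := hs
      rw [freshDirs_zero] at h2
      exact absurd h2 (by decide)
    · exact h r h0 (by omega) h1

theorem e2a_orb (ω : Env) (i : ℕ) :
    orb ω (0, 1) i = tr (0, 1) (orb (shift (0, 1) ω) (up 0) i) := by
  rw [← orb_tr]
  rfl

theorem e2a_hit {ω : Env} {h n : ℕ} (hn : 1 ≤ n) (hrow : ∀ m, 1 ≤ m → m ≤ n → 0 ≤ (orb ω (up 0) m).1.2)
    (hlast : (h : ℤ) ≤ (orb ω (up 0) n).1.2) : ∃ x', Hit ω h 0 x' := by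
  classical
  have hex : ∃ m, 1 ≤ m ∧ m ≤ n ∧ (h : ℤ) ≤ (orb ω (up 0) m).1.2 := ⟨n, hn, le_rfl, hlast⟩
  set i := Nat.find hex with hi
  obtain ⟨h1, h2, h3⟩ := Nat.find_spec hex
  rw [← hi] at h1 h2 h3
  have hmin : ∀ j, 1 ≤ j → j < i → (orb ω (up 0) j).1.2 < h := by
    intro j hj hji
    by_contra hcon
    exact Nat.find_min hex hji ⟨hj, by omega, not_lt.1 hcon⟩
  obtain ⟨N, hN⟩ : ∃ N, i = N + 1 := ⟨i - 1, by omega⟩
  rw [hN] at h1 h2 h3 hmin
  have h4 := d1_row_succ ω (up 0) N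
  have h5 := d1_dv (orb ω (up 0) N).2
  have h6 : (orb ω (up 0) N).1.2 < h := by
    rcases Nat.eq_zero_or_pos N with h0 | h0
    · rw [h0, orb_zero]
      show (-1 : ℤ) < h
      omega
    · exact hmin N h0 (by omega)
  refine d1_enter (ω := ω) (h := h) (x := 0) (n := N) ?_ ?_
  · intro j hj hjN
    exact ⟨hrow j hj (by omega), hmin j hj (by omega)⟩
  · have h7 : (orb ω (up 0) (N + 1)).1.2 = h := by omega
    exact h7

theorem e2a_le (B : Set Env) : P (shift (0, 1) ⁻¹' B) ≤ P B := by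
  have h1 := Measure.le_map_apply (μ := P) (mp_shift (0, 1)).measurable.aemeasurable B
  rwa [(mp_shift (0, 1)).map_eq] at h1

theorem e2a_row {b : Prop} {h n : ℕ} {ω : Env} (hex : excT b h n (fun i => (orb ω (0, 1) i).1)) :
    (∀ m, 1 ≤ m → m ≤ n → 0 ≤ (orb (shift (0, 1) ω) (up 0) m).1.2) ∧
      ((h : ℤ) ≤ (orb (shift (0, 1) ω) (up 0) n).1.2 + 1 ∨
        (b ∧ (h : ℤ) ≤ |(orb (shift (0, 1) ω) (up 0) n).1.1|)) := by
  obtain ⟨h1, h2⟩ := hex
  constructor
  · intro m hm hmn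
    have h3 : 1 ≤ (orb ω (0, 1) m).1.2 := h1 m hm hmn
    rw [e2a_orb] at h3
    have h4 : (1 : ℤ) ≤ (orb (shift (0, 1) ω) (up 0) m).1.2 + 1 := h3
    omega
  · rcases h2 with h2 | ⟨hb, h2⟩
    · left
      have h3 : (h : ℤ) ≤ (orb ω (0, 1) n).1.2 := h2
      rw [e2a_orb] at h3
      exact h3
    · right
      have h3 : (h : ℤ) ≤ |(orb ω (0, 1) n).1.1| := h2
      rw [e2a_orb] at h3
      have h4 : (h : ℤ) ≤ |(orb (shift (0, 1) ω) (up 0) n).1.1 + 0| := h3
      rw [add_zero] at h4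
      exact ⟨hb, h4⟩

theorem exc_up_false (h : ℕ) (hh : 1 ≤ h) :
    P {ω | ∃ n, 1 ≤ n ∧ excT False h n (fun i => (orb ω (0, 1) i).1)} ≤ nh (h - 1) := by
  calc P {ω | ∃ n, 1 ≤ n ∧ excT False h n (fun i => (orb ω (0, 1) i).1)}
      ≤ P (shift (0, 1) ⁻¹' {ω | ∃ x', Hit ω (h - 1) 0 x'}) := by
        apply measure_mono
        rintro ω ⟨n, hn, hex⟩
        obtain ⟨h1, h2⟩ := e2a_row hex
        have h3 : ((h - 1 : ℕ) : ℤ) ≤ (orb (shift (0, 1) ω) (up 0) n).1.2 := by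
          rcases h2 with h2 | ⟨hf, _⟩
          · omega
          · exact hf.elim
        exact e2a_hit hn h1 h3
    _ ≤ nh (h - 1) := e2a_le _

theorem exc_up_true (h : ℕ) (hh : 1 ≤ h) :
    P {ω | ∃ n, 1 ≤ n ∧ excT True h n (fun i => (orb ω (0, 1) i).1)} ≤ nh (h - 1) + lat (h - 1) := by
  calc P {ω | ∃ n, 1 ≤ n ∧ excT True h n (fun i => (orb ω (0, 1) i).1)}
      ≤ P (shift (0, 1) ⁻¹' ({ω | ∃ x', Hit ω (h - 1) 0 x'} ∪
          {ω | ∃ n, 0 < n ∧ (∀ i, 0 < i → i ≤ n → 0 ≤ (orb ω (up 0) i).1.2) ∧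
            ((h - 1 : ℕ) : ℤ) < |(orb ω (up 0) n).1.1|})) := by
        apply measure_mono
        rintro ω ⟨n, hn, hex⟩
        obtain ⟨h1, h2⟩ := e2a_row hex
        rcases h2 with h2 | ⟨_, h2⟩
        · left
          exact e2a_hit hn h1 (by omega)
        · right
          exact ⟨n, hn, h1, by omega⟩
    _ ≤ P ({ω | ∃ x', Hit ω (h - 1) 0 x'} ∪
          {ω | ∃ n, 0 < n ∧ (∀ i, 0 < i → i ≤ n → 0 ≤ (orb ω (up 0) i).1.2) ∧
            ((h - 1 : ℕ) : ℤ) < |(orb ω (up 0) n).1.1|}) := e2a_le _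
    _ ≤ nh (h - 1) + lat (h - 1) := measure_union_le _ _

theorem e2a_meas (b : Prop) (h : ℕ) :
    MeasurableSet {ω : Env | ∃ n, 1 ≤ n ∧ excT b h n (fun i => (orb ω (0, 1) i).1)} := by
  have h1 : {ω : Env | ∃ n, 1 ≤ n ∧ excT b h n (fun i => (orb ω (0, 1) i).1)} =
      ⋃ n : ℕ, ⋃ (_ : 1 ≤ n), ((⋂ m : ℕ, ⋂ (_ : 1 ≤ m), ⋂ (_ : m ≤ n),
        {ω : Env | orb ω (0, 1) m ∈ {x : Dart | 1 ≤ x.1.2}}) ∩
        {ω : Env | orb ω (0, 1) n ∈ {x : Dart | (h : ℤ) ≤ x.1.2 ∨ (b ∧ (h : ℤ) ≤ |x.1.1|)}}) := by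
    ext ω
    simp only [excT, Set.mem_iUnion, Set.mem_inter_iff, Set.mem_iInter, Set.mem_ofPred_eq,
      exists_prop]
  rw [h1]
  refine MeasurableSet.iUnion fun n => MeasurableSet.iUnion fun _ => MeasurableSet.inter ?_ ?_
  · exact MeasurableSet.iInter fun m => MeasurableSet.iInter fun _ => MeasurableSet.iInter fun _ =>
      measurableSet_orb_mem measurable_const m _
  · exact measurableSet_orb_mem measurable_const n _

theorem e2a_rot (ω : Env) (i : ℕ) : -(orb ω (0, 3) i).1 = (orb (rotE (rotE ω)) (0, 1) i).1 := by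
  have h1 : ((0, 3) : Dart) = rotD (rotD (0, 1)) := by
    unfold rotD rho
    simp
    decide
  rw [h1, orb_rot, orb_rot]
  show -(rho (rho (orb (rotE (rotE ω)) (0, 1) i).1)) = _
  rw [rho_rho, neg_neg]

theorem exc_down (b : Prop) (h : ℕ) :
    P {ω | ∃ n, 1 ≤ n ∧ excT b h n (fun i => -(orb ω (0, 3) i).1)} =
      P {ω | ∃ n, 1 ≤ n ∧ excT b h n (fun i => (orb ω (0, 1) i).1)} := by
  have h1 : {ω : Env | ∃ n, 1 ≤ n ∧ excT b h n (fun i => -(orb ω (0, 3) i).1)} =
      (fun ω => rotE (rotE ω)) ⁻¹' {ω | ∃ n, 1 ≤ n ∧ excT b h n (fun i => (orb ω (0, 1) i).1)} := by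
    ext ω
    have h2 : (fun i => -(orb ω (0, 3) i).1) = fun i => (orb (rotE (rotE ω)) (0, 1) i).1 := by
      funext i
      exact e2a_rot ω i
    show (∃ n, 1 ≤ n ∧ excT b h n (fun i => -(orb ω (0, 3) i).1)) ↔
      ∃ n, 1 ≤ n ∧ excT b h n (fun i => (orb (rotE (rotE ω)) (0, 1) i).1)
    rw [h2]
  rw [h1]
  exact (mp_rotE.comp mp_rotE).measure_preimage (e2a_meas b h).nullMeasurableSet

end Pool.Agent.GRP
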