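import Pool.Agent.GRP.E1
import Pool.Agent.GRP.E2a

/-!
# [GRP-E2b] the first excursion of the walk from the axis (uses the statements of E1, E2a)

PROOFS. `row_main`, `diam_main`: a.e. `x = (X j ω)` is greedy (`greedy_ae`).  If `n` is as in the event then `n ≥ 1` (`x 0 = 0`, `h ≥ 1`); let `x 1 = dv k`
(greedy).  `k = 0, 2` is impossible (the row of `x 1` is not `0`).  `k = 1`: unit steps and `≠ 0` give rows `≥ 1` for `1 ≤ m ≤ n`; by
`exc_no_return` the steps are fresh, and `x r ≠ 0`; so `ω` is in the left event of `grw_upper` with `T = excT b h` (`b = False` for `row_main`,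
`b = True` for `diam_main`).  `k = 3` similarly, with `T n x = excT b h n (fun i => - x i)` and `exc_down`.  Sum of the two bounds.
-/

namespace Pool.Agent.GRP

open Pool.Agent.GRW MeasureTheory Filter Topology

theorem e2b_congr (b : Prop) (h : ℕ) (n : ℕ) (x y : ℕ → ℤ × ℤ) (hxy : ∀ j ≤ n, x j = y j)
    (hx : excT b h n x) : excT b h n y := by
  obtain ⟨h1, h2⟩ := hx
  refine ⟨fun m hm hmn => ?_, ?_⟩
  · rw [← hxy m hmn]
    exact h1 m hm hmn
  · rw [← hxy n le_rfl]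
    exact h2

theorem e2b_dv (d : Fin 4) : -1 ≤ (dv d).2 ∧ (dv d).2 ≤ 1 := by
  revert d; decide

theorem e2b_dir (k : Fin 4) (h : (dv k).2 ≠ 0) : k = 1 ∨ k = 3 := by
  revert k; decide

theorem e2b_det {x : ℕ → ℤ × ℤ} (hx : Greedy x) {b : Prop} {h : ℕ} (hh : 1 ≤ h) {n : ℕ}
    (h1 : (h : ℤ) ≤ |(x n).2| ∨ (b ∧ (h : ℤ) ≤ |(x n).1|)) (h2 : ∀ m, 1 ≤ m → m ≤ n → (x m).2 ≠ 0) :
    (1 ≤ n ∧ x 0 = 0 ∧ (∀ r < n, FreshStep x r) ∧ (∀ r, 0 < r → r ≤ n → x r ≠ 0)) ∧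
      ((x 1 = dv 1 ∧ excT b h n x) ∨ (x 1 = dv 3 ∧ excT b h n (fun i => - x i))) := by
  have h0 : x 0 = 0 := hx.1
  have hn : 1 ≤ n := by
    by_contra hcon
    have hn0 : n = 0 := by omega
    subst hn0
    rw [h0] at h1
    simp only [Prod.snd_zero, Prod.fst_zero, abs_zero] at h1
    rcases h1 with h1 | ⟨-, h1⟩ <;> omega
  have hne : ∀ m, 1 ≤ m → m ≤ n → x m ≠ 0 := fun m hm hmn h3 => h2 m hm hmn (by rw [h3]; rfl)
  refine ⟨⟨hn, h0, exc_no_return hx hne, fun r hr hrn => hne r hr hrn⟩, ?_⟩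
  obtain ⟨k, hk⟩ := (hx.2 0).1
  rw [h0, zero_add, zero_add] at hk
  have hstep : ∀ m, (x m).2 - 1 ≤ (x (m + 1)).2 ∧ (x (m + 1)).2 ≤ (x m).2 + 1 := by
    intro m
    obtain ⟨d, hd⟩ := (hx.2 m).1
    have h3 := e2b_dv d
    rw [hd]
    simp only [Prod.snd_add]
    omega
  have h4 := h2 1 le_rfl hn
  rw [hk] at h4
  rcases e2b_dir k h4 with rfl | rfl
  · left
    have h5 : ∀ m, 1 ≤ m → m ≤ n → 1 ≤ (x m).2 := by
      intro m hm
      induction m, hm using Nat.le_induction with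
      | base =>
        intro _
        rw [hk]
        decide
      | succ m hm ih =>
        intro hmn
        have h6 := ih (by omega)
        have h7 := hstep m
        have h8 := h2 (m + 1) (by omega) hmn
        omega
    refine ⟨hk, h5, ?_⟩
    rcases h1 with h1 | h1
    · left
      rwa [abs_of_pos (by have := h5 n hn le_rfl; omega)] at h1
    · exact Or.inr h1
  · right
    have h5 : ∀ m, 1 ≤ m → m ≤ n → (x m).2 ≤ -1 := by
      intro m hm
      induction m, hm using Nat.le_induction with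
      | base =>
        intro _
        rw [hk]
        decide
      | succ m hm ih =>
        intro hmn
        have h6 := ih (by omega)
        have h7 := hstep m
        have h8 := h2 (m + 1) (by omega) hmn
        omega
    refine ⟨hk, fun m hm hmn => ?_, ?_⟩
    · have h6 := h5 m hm hmn
      simp only [Prod.snd_neg]
      omega
    · simp only [Prod.snd_neg, Prod.fst_neg, abs_neg]
      rcases h1 with h1 | h1
      · left
        rwa [abs_of_neg (by have := h5 n hn le_rfl; omega)] at h1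
      · exact Or.inr h1

theorem e2b_main {Ω : Type*} [MeasurableSpace Ω] {μ : Measure Ω} {X : ℕ → Ω → ℤ × ℤ}
    [IsProbabilityMeasure μ] (hX : IsGRW μ X) (b : Prop) (h : ℕ) (hh : 1 ≤ h) {B : ENNReal}
    (hB : P {ω | ∃ n, 1 ≤ n ∧ excT b h n (fun i => (orb ω (0, 1) i).1)} ≤ B) :
    μ {ω | ∃ n, ((h : ℤ) ≤ |(X n ω).2| ∨ (b ∧ (h : ℤ) ≤ |(X n ω).1|)) ∧
      ∀ m, 1 ≤ m → m ≤ n → (X m ω).2 ≠ 0} ≤ 2 * B := by
  have g1 := (grw_upper hX 1 (excT b h) (e2b_congr b h)).trans hB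
  have g3 := grw_upper hX 3 (fun n x => excT b h n (fun i => - x i))
    (fun n x y hxy hx => e2b_congr b h n _ _ (fun j hj => by rw [hxy j hj]) hx)
  have g3' := (g3.trans (exc_down b h).le).trans hB
  refine le_trans (le_trans (measure_mono_ae ?_) (measure_union_le _ _)) ((add_le_add g1 g3').trans ?_)
  · filter_upwards [greedy_ae hX] with ω hω
    rintro ⟨n, h1, h2⟩
    obtain ⟨⟨h3, h4, h5, h6⟩, h7⟩ := e2b_det hω hh h1 h2
    rcases h7 with ⟨h7, h8⟩ | ⟨h7, h8⟩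
    · exact Or.inl ⟨n, h3, h4, h7, h5, h6, h8⟩
    · exact Or.inr ⟨n, h3, h4, h7, h5, h6, h8⟩
  · rw [two_mul]

theorem row_main {Ω : Type*} [MeasurableSpace Ω] {μ : Measure Ω} {X : ℕ → Ω → ℤ × ℤ}
    [IsProbabilityMeasure μ] (hX : IsGRW μ X) (h : ℕ) (hh : 1 ≤ h) :
    μ {ω | ∃ n, (h : ℤ) ≤ |(X n ω).2| ∧ ∀ m, 1 ≤ m → m ≤ n → (X m ω).2 ≠ 0} ≤ 2 * nh (h - 1) := by
  refine le_trans (measure_mono ?_) (e2b_main hX False h hh (exc_up_false h hh))
  rintro ω ⟨n, h1, h2⟩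
  exact ⟨n, Or.inl h1, h2⟩

theorem diam_main {Ω : Type*} [MeasurableSpace Ω] {μ : Measure Ω} {X : ℕ → Ω → ℤ × ℤ}
    [IsProbabilityMeasure μ] (hX : IsGRW μ X) (h : ℕ) (hh : 1 ≤ h) :
    μ {ω | ∃ n, ((h : ℤ) ≤ |(X n ω).1| ∨ (h : ℤ) ≤ |(X n ω).2|) ∧
      ∀ m, 1 ≤ m → m ≤ n → (X m ω).2 ≠ 0} ≤ 2 * (nh (h - 1) + lat (h - 1)) := by
  refine le_trans (measure_mono ?_) (e2b_main hX True h hh (exc_up_true h hh))
  rintro ω ⟨n, h1, h2⟩
  refine ⟨n, ?_, h2⟩
  rcases h1 with h1 | h1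
  · exact Or.inr ⟨trivial, h1⟩
  · exact Or.inl h1

end Pool.Agent.GRP
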