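import Pool.Agent.GRP.F1
import Pool.Agent.GRP.D1
import Pool.Agent.GRP.D6

/-!
# [GRP-F2] polynomial decay of the lateral displacement (uses F1, D1, D6)

PROOF. Let `h = ⌊(d : ℝ)^(1/6)⌋₊ ≥ 1`, so `h^6 ≤ d` and `d^(1/6) < h + 1 ≤ 2 h`; `j = d / (2h+1)` (natural division), so
`j (2h+1) ≤ d` and `j ≥ d/(3h) - 1`.  Let `p = (pS h).toReal`; by `side_lower` (`2h+1 ≤ 3h`) `p ≥ 1 / (12 * 81 * h^4) = 1 / (972 h^4)`, and `p ≤ 1`.
`(1 - p)^j ≤ exp (-p j)` and `p j ≥ (d / (3h) - 1) / (972 h^4) ≥ h / 2916 - 1`; `exp (1 - h/2916) ≤ 3 * 2916 / h` (`exp x ≥ x`), so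
`2 (1 - p)^j ≤ 17496 / h ≤ 34992 d^(-1/6) ≤ 34992 d^(-1/126)`.  `nh h ≤ 30 h^(-1/21) ≤ 30 * 2^(1/21) * d^(-1/126) ≤ 60 d^(-1/126)` (`nh_poly`).
-/

namespace Pool.Agent.GRP

open Pool.Agent.GRW MeasureTheory Filter Topology

theorem f2_exp (h : ℝ) (j : ℕ) (p : ℝ) (hh : 1 ≤ h) (hp0 : 0 ≤ p) (hp1 : p ≤ 1)
    (hp : 1 ≤ 972 * h ^ 4 * p) (hj : h ^ 5 / 3 - 1 ≤ j) : (1 - p) ^ j ≤ 8748 / h := by
  have hpos : 0 < h := by linarith
  have e1 : 1 - p ≤ Real.exp (-p) := by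
    have := Real.add_one_le_exp (-p)
    linarith
  have e2 : (1 - p) ^ j ≤ Real.exp (-p) ^ j := pow_le_pow_left₀ (by linarith) e1 j
  have e3 : Real.exp (-p) ^ j = Real.exp (-(p * j)) := by
    rw [← Real.exp_nat_mul]
    congr 1
    ring
  have e4 : h / 2916 - 1 ≤ p * j := by
    have q1 : p * (h ^ 5 / 3 - 1) ≤ p * j := mul_le_mul_of_nonneg_left hj hp0
    have q2 : h * 1 ≤ h * (972 * h ^ 4 * p) := mul_le_mul_of_nonneg_left hp hpos.le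
    have q3 : h * (972 * h ^ 4 * p) = 2916 * (p * (h ^ 5 / 3)) := by ring
    rw [q3] at q2
    have q4 : p * (h ^ 5 / 3 - 1) = p * (h ^ 5 / 3) - p := by ring
    rw [q4] at q1
    linarith
  have e5 : Real.exp (-(p * j)) ≤ Real.exp (1 - h / 2916) := by
    apply Real.exp_le_exp.2
    linarith
  have e6 : Real.exp (1 - h / 2916) = Real.exp 1 * Real.exp (-(h / 2916)) := by
    rw [← Real.exp_add]
    congr 1
  have e7 : Real.exp (-(h / 2916)) ≤ 2916 / h := by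
    rw [Real.exp_neg]
    have q1 : h / 2916 ≤ Real.exp (h / 2916) := by
      have := Real.add_one_le_exp (h / 2916)
      linarith
    have q2 : (Real.exp (h / 2916))⁻¹ ≤ (h / 2916)⁻¹ := inv_anti₀ (by positivity) q1
    rwa [inv_div] at q2
  have e8 : Real.exp 1 ≤ 3 := by
    have := Real.exp_one_lt_d9
    linarith
  calc (1 - p) ^ j ≤ Real.exp (-p) ^ j := e2
    _ = Real.exp (-(p * j)) := e3
    _ ≤ Real.exp (1 - h / 2916) := e5
    _ = Real.exp 1 * Real.exp (-(h / 2916)) := e6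
    _ ≤ 3 * (2916 / h) := mul_le_mul e8 e7 (Real.exp_pos _).le (by norm_num)
    _ = 8748 / h := by ring

theorem f2_second {h d : ℕ} (hh : 1 ≤ h) (hd : h ^ 6 ≤ d) :
    2 * (1 - pS h) ^ (d / (2 * h + 1)) ≤ ENNReal.ofReal (17496 / (h : ℝ)) := by
  have hle : pS h ≤ 1 := prob_le_one
  have htop : pS h ≠ ⊤ := ne_top_of_le_ne_top ENNReal.one_ne_top hle
  set p := (pS h).toReal with hp
  have hp0 : 0 ≤ p := ENNReal.toReal_nonneg
  have hp1 : p ≤ 1 := by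
    have := ENNReal.toReal_mono ENNReal.one_ne_top hle
    rwa [ENNReal.toReal_one] at this
  have hpS : pS h = ENNReal.ofReal p := (ENNReal.ofReal_toReal htop).symm
  have hhr : (1 : ℝ) ≤ (h : ℝ) := by exact_mod_cast hh
  have hside : 1 ≤ 12 * (2 * (h : ℝ) + 1) ^ 4 * p := by
    have h1 := side_lower h
    have h2 : 12 * (2 * (h : ENNReal) + 1) ^ 4 = ((12 * (2 * h + 1) ^ 4 : ℕ) : ENNReal) := by
      push_cast
      rfl
    rw [h2] at h1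
    have h3 := ENNReal.toReal_mono (ENNReal.mul_ne_top (ENNReal.natCast_ne_top _) htop) h1
    rw [ENNReal.toReal_one, ENNReal.toReal_mul, ENNReal.toReal_natCast] at h3
    push_cast at h3
    exact h3
  have hside2 : 1 ≤ 972 * (h : ℝ) ^ 4 * p := by
    have h1 : (2 * (h : ℝ) + 1) ^ 4 ≤ (3 * (h : ℝ)) ^ 4 := pow_le_pow_left₀ (by positivity) (by linarith) 4
    have h2 : 12 * (2 * (h : ℝ) + 1) ^ 4 * p ≤ 12 * (3 * (h : ℝ)) ^ 4 * p := by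
      apply mul_le_mul_of_nonneg_right _ hp0
      linarith
    have h3 : 12 * (3 * (h : ℝ)) ^ 4 * p = 972 * (h : ℝ) ^ 4 * p := by ring
    linarith
  have hj : (h : ℝ) ^ 5 / 3 - 1 ≤ ((d / (2 * h + 1) : ℕ) : ℝ) := by
    have h1 : d < (2 * h + 1) * (d / (2 * h + 1) + 1) := Nat.lt_mul_div_succ d (by omega)
    have h2 : h ^ 6 < (3 * h) * (d / (2 * h + 1) + 1) := by
      calc h ^ 6 ≤ d := hd
        _ < (2 * h + 1) * (d / (2 * h + 1) + 1) := h1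
        _ ≤ (3 * h) * (d / (2 * h + 1) + 1) := Nat.mul_le_mul_right _ (by omega)
    have h3 : (h : ℝ) ^ 6 < (3 * (h : ℝ)) * (((d / (2 * h + 1) : ℕ) : ℝ) + 1) := by exact_mod_cast h2
    have h4 : (h : ℝ) * (h : ℝ) ^ 5 < (h : ℝ) * (3 * (((d / (2 * h + 1) : ℕ) : ℝ) + 1)) := by
      calc (h : ℝ) * (h : ℝ) ^ 5 = (h : ℝ) ^ 6 := by ring
        _ < _ := h3
        _ = _ := by ring
    have h5 := lt_of_mul_lt_mul_left h4 (by positivity)
    linarith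
  have key := f2_exp h (d / (2 * h + 1)) p hhr hp0 hp1 hside2 hj
  have e1 : (1 - pS h) ^ (d / (2 * h + 1)) = ENNReal.ofReal ((1 - p) ^ (d / (2 * h + 1))) := by
    rw [hpS, ENNReal.ofReal_pow (by linarith), ENNReal.ofReal_sub _ hp0, ENNReal.ofReal_one]
  rw [e1]
  have e2 : (2 : ENNReal) = ENNReal.ofReal 2 := by simp
  rw [e2, ← ENNReal.ofReal_mul (by norm_num)]
  apply ENNReal.ofReal_le_ofReal
  calc 2 * (1 - p) ^ (d / (2 * h + 1)) ≤ 2 * (8748 / (h : ℝ)) := by linarith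
    _ = 17496 / (h : ℝ) := by ring

theorem lat_poly (d : ℕ) (hd : 1 ≤ d) :
    lat d ≤ ENNReal.ofReal (36000 * (d : ℝ) ^ (-(1 / 126 : ℝ))) := by
  have hD : (1 : ℝ) ≤ (d : ℝ) := by exact_mod_cast hd
  have hD0 : (0 : ℝ) < (d : ℝ) := by linarith
  set s : ℝ := (d : ℝ) ^ (1 / 6 : ℝ) with hs
  have hs1 : 1 ≤ s := Real.one_le_rpow hD (by norm_num)
  have hs0 : 0 < s := by linarith
  set h := ⌊s⌋₊ with hh
  have hh1 : 1 ≤ h := (Nat.one_le_floor_iff s).2 hs1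
  have hhs : (h : ℝ) ≤ s := Nat.floor_le hs0.le
  have hsh : s < (h : ℝ) + 1 := Nat.lt_floor_add_one s
  have hhr : (1 : ℝ) ≤ (h : ℝ) := by exact_mod_cast hh1
  have hs2 : s / 2 ≤ (h : ℝ) := by linarith
  have hs6 : s ^ 6 = (d : ℝ) := by
    rw [hs, ← Real.rpow_natCast, ← Real.rpow_mul hD0.le]
    norm_num
  have hh6 : h ^ 6 ≤ d := by
    have h1 : (h : ℝ) ^ 6 ≤ s ^ 6 := pow_le_pow_left₀ (by positivity) hhs 6
    rw [hs6] at h1
    exact_mod_cast h1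
  have hlat := lat_le (h := h) (j := d / (2 * h + 1)) (d := d) (Nat.div_mul_le_self d (2 * h + 1))
  have hsec := f2_second hh1 hh6
  have hnh := nh_poly h hh1
  have r1 : (h : ℝ) ^ (-(1 / 21 : ℝ)) ≤ 2 * (d : ℝ) ^ (-(1 / 126 : ℝ)) := by
    have q1 : (h : ℝ) ^ (-(1 / 21 : ℝ)) ≤ (s / 2) ^ (-(1 / 21 : ℝ)) :=
      Real.rpow_le_rpow_of_nonpos (by positivity) hs2 (by norm_num)
    have q2 : (s / 2) ^ (-(1 / 21 : ℝ)) = s ^ (-(1 / 21 : ℝ)) / 2 ^ (-(1 / 21 : ℝ)) :=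
      Real.div_rpow hs0.le (by norm_num) _
    have q3 : s ^ (-(1 / 21 : ℝ)) = (d : ℝ) ^ (-(1 / 126 : ℝ)) := by
      rw [hs, ← Real.rpow_mul hD0.le]
      norm_num
    have q4 : (2 : ℝ) ^ (-(1 / 21 : ℝ)) ≥ 1 / 2 := by
      have := Real.rpow_le_rpow_of_exponent_le (x := 2) (by norm_num)
        (show (-1 : ℝ) ≤ -(1 / 21 : ℝ) by norm_num)
      rw [Real.rpow_neg_one] at this
      linarith
    rw [q2, q3] at q1
    have q5 : (0 : ℝ) < (d : ℝ) ^ (-(1 / 126 : ℝ)) := Real.rpow_pos_of_pos hD0 _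
    have q6 : (d : ℝ) ^ (-(1 / 126 : ℝ)) / 2 ^ (-(1 / 21 : ℝ)) ≤ (d : ℝ) ^ (-(1 / 126 : ℝ)) / (1 / 2) :=
      div_le_div_of_nonneg_left q5.le (by norm_num) q4
    linarith
  have r2 : 17496 / (h : ℝ) ≤ 34992 * (d : ℝ) ^ (-(1 / 126 : ℝ)) := by
    have q1 : 17496 / (h : ℝ) ≤ 17496 / (s / 2) :=
      div_le_div_of_nonneg_left (by norm_num) (by positivity) hs2
    have q2 : 17496 / (s / 2) = 34992 * s⁻¹ := by
      field_simp
      norm_num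
    have q3 : s⁻¹ = (d : ℝ) ^ (-(1 / 6 : ℝ)) := by
      rw [hs, Real.rpow_neg hD0.le]
    have q4 : (d : ℝ) ^ (-(1 / 6 : ℝ)) ≤ (d : ℝ) ^ (-(1 / 126 : ℝ)) :=
      Real.rpow_le_rpow_of_exponent_le hD (by norm_num)
    rw [q2, q3] at q1
    linarith
  have hpos : (0 : ℝ) < (d : ℝ) ^ (-(1 / 126 : ℝ)) := Real.rpow_pos_of_pos hD0 _
  calc lat d ≤ nh h + 2 * (1 - pS h) ^ (d / (2 * h + 1)) := hlat
    _ ≤ ENNReal.ofReal (30 * (h : ℝ) ^ (-(1 / 21 : ℝ))) + ENNReal.ofReal (17496 / (h : ℝ)) :=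
        add_le_add hnh hsec
    _ = ENNReal.ofReal (30 * (h : ℝ) ^ (-(1 / 21 : ℝ)) + 17496 / (h : ℝ)) :=
        (ENNReal.ofReal_add (by positivity) (by positivity)).symm
    _ ≤ ENNReal.ofReal (36000 * (d : ℝ) ^ (-(1 / 126 : ℝ))) := by
        apply ENNReal.ofReal_le_ofReal
        linarith

end Pool.Agent.GRP
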