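import Pool.Agent.GRP.E2b
import Pool.Agent.GRP.F2

/-!
# [GRP-E3] theorem A (uses `row_main`, `diam_main`, `nh_poly`, `lat_poly`)

PROOFS. For `h = 1` the right sides are `≥ 1`.  For `h ≥ 2`: `h - 1 ≥ h / 2`, so `(h-1)^(-1/21) ≤ 2^(1/21) h^(-1/21)`, `2^(1/21) ≤ 16/15`
(`2 ≤ (16/15)^21`), and `60 * 16/15 = 64`.  `2 * (30 + 36000) * 2^(1/126) ≤ 73000` (`2^(1/126) ≤ 101/100`, `72060 * 101/100 = 72780.6`).
-/

namespace Pool.Agent.GRP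

open Pool.Agent.GRW MeasureTheory Filter Topology

theorem e3_rpow {c a : ℝ} (n : ℕ) (hn : 0 < n) (hc : 1 ≤ c) (h2 : 2 ≤ c ^ n) (ha : a = 1 / n) {h : ℕ}
    (hh : 2 ≤ h) : ((h - 1 : ℕ) : ℝ) ^ (-a) ≤ c * (h : ℝ) ^ (-a) := by
  have hn' : (0 : ℝ) < n := by exact_mod_cast hn
  have ha0 : 0 < a := by rw [ha]; positivity
  have h1 : (1 : ℝ) ≤ ((h - 1 : ℕ) : ℝ) := by exact_mod_cast (by omega : 1 ≤ h - 1)
  have h3 : (h : ℝ) ≤ 2 * ((h - 1 : ℕ) : ℝ) := by exact_mod_cast (by omega : h ≤ 2 * (h - 1))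
  have hpos : (0 : ℝ) < ((h - 1 : ℕ) : ℝ) := by linarith
  have hhp : (0 : ℝ) < (h : ℝ) := by exact_mod_cast (by omega : 0 < h)
  have h4 : (h : ℝ) ^ a ≤ c * ((h - 1 : ℕ) : ℝ) ^ a := by
    have e1 : (h : ℝ) ≤ c ^ n * ((h - 1 : ℕ) : ℝ) := by nlinarith
    calc (h : ℝ) ^ a ≤ (c ^ n * ((h - 1 : ℕ) : ℝ)) ^ a :=
          Real.rpow_le_rpow hhp.le e1 ha0.le
      _ = c * ((h - 1 : ℕ) : ℝ) ^ a := by
          rw [Real.mul_rpow (by positivity) hpos.le, ha, ← Real.rpow_natCast c n, ← Real.rpow_mul (by linarith)]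
          rw [mul_one_div_cancel hn'.ne', Real.rpow_one]
  rw [Real.rpow_neg hpos.le, Real.rpow_neg hhp.le, inv_le_comm₀ (by positivity) (by positivity)]
  rw [mul_inv, inv_inv]
  have hc0 : 0 < c := by linarith
  rw [inv_mul_le_iff₀ hc0]
  exact h4

theorem e3_one_le {c a : ℝ} (hc : 1 ≤ c) : (1 : ENNReal) ≤ ENNReal.ofReal (c * ((1 : ℕ) : ℝ) ^ a) := by
  simpa using hc

theorem row_poly {Ω : Type*} [MeasurableSpace Ω] {μ : Measure Ω} {X : ℕ → Ω → ℤ × ℤ}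
    [IsProbabilityMeasure μ] (hX : IsGRW μ X) (h : ℕ) (hh : 1 ≤ h) :
    μ {ω | ∃ n, (h : ℤ) ≤ |(X n ω).2| ∧ ∀ m, 1 ≤ m → m ≤ n → (X m ω).2 ≠ 0} ≤
      ENNReal.ofReal (64 * (h : ℝ) ^ (-(1 / 21 : ℝ))) := by
  rcases Nat.lt_or_ge h 2 with h2 | h2
  · obtain rfl : h = 1 := by omega
    exact prob_le_one.trans (e3_one_le (by norm_num))
  refine (row_main hX h hh).trans ?_
  refine (mul_le_mul_right (nh_poly (h - 1) (by omega)) 2).trans ?_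
  rw [show (2 : ENNReal) = ENNReal.ofReal 2 by simp, ← ENNReal.ofReal_mul (by norm_num)]
  refine ENNReal.ofReal_le_ofReal ?_
  have := e3_rpow (c := 16 / 15) (a := 1 / 21) 21 (by norm_num) (by norm_num) (by norm_num) (by norm_num) h2
  linarith

theorem diam_poly {Ω : Type*} [MeasurableSpace Ω] {μ : Measure Ω} {X : ℕ → Ω → ℤ × ℤ}
    [IsProbabilityMeasure μ] (hX : IsGRW μ X) (h : ℕ) (hh : 1 ≤ h) :
    μ {ω | ∃ n, ((h : ℤ) ≤ |(X n ω).1| ∨ (h : ℤ) ≤ |(X n ω).2|) ∧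
      ∀ m, 1 ≤ m → m ≤ n → (X m ω).2 ≠ 0} ≤ ENNReal.ofReal (73000 * (h : ℝ) ^ (-(1 / 126 : ℝ))) := by
  rcases Nat.lt_or_ge h 2 with h2 | h2
  · obtain rfl : h = 1 := by omega
    exact prob_le_one.trans (e3_one_le (by norm_num))
  refine (diam_main hX h hh).trans ?_
  have e1 : nh (h - 1) ≤ ENNReal.ofReal (30 * ((h - 1 : ℕ) : ℝ) ^ (-(1 / 126 : ℝ))) := by
    refine (nh_poly (h - 1) (by omega)).trans (ENNReal.ofReal_le_ofReal ?_)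
    have h1 : (1 : ℝ) ≤ ((h - 1 : ℕ) : ℝ) := by exact_mod_cast (by omega : 1 ≤ h - 1)
    have := Real.rpow_le_rpow_of_exponent_le h1 (by norm_num : (-(1 / 21 : ℝ)) ≤ -(1 / 126 : ℝ))
    linarith
  refine (mul_le_mul_right (add_le_add e1 (lat_poly (h - 1) (by omega))) 2).trans ?_
  rw [← ENNReal.ofReal_add (by positivity) (by positivity),
    show (2 : ENNReal) = ENNReal.ofReal 2 by simp, ← ENNReal.ofReal_mul (by norm_num)]
  refine ENNReal.ofReal_le_ofReal ?_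
  have := e3_rpow (c := 101 / 100) (a := 1 / 126) 126 (by norm_num) (by norm_num) (by norm_num)
    (by norm_num) h2
  have hpos : 0 ≤ (h : ℝ) ^ (-(1 / 126 : ℝ)) := by positivity
  nlinarith

end Pool.Agent.GRP
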