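import Pool.Agent.GRP.FDefs
import Pool.Agent.GRP.A2

/-!
# [GRP-F1] lateral displacement of the trails in a strip (uses A1, A2)

PROOFS. `Rt_step`.  For `n : ℕ` and `0 ≤ y < h` let
`A n y = {ω | orb ω (up 0) n = ((c, y), 0) ∧ ∀ i, 0 < i → i ≤ n → col ≤ c ∧ 0 ≤ row < h}` (col, row of `(orb ω (up 0) i).1`),
`J y = {ω | Ex ω (rect (c+1) (c+1+2h) (y-h) (y+h)) ((c, y), 0) (rowS (y - h - 1))}`, `P (J y) = pS h` (`pS_south`).
(1) `Rt h c = ⋃ n y, A n y`: for `ω ∈ Rt h c` let `n'` be the first time with column `> c`; the site at time `1` is `(0,0)`, so `n' ≥ 2`, and by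
unit steps (`orb_base_succ`) the dart at time `n' - 1` is `((c, y), 0)` with `0 ≤ y < h`.  Conversely the site at time `n + 1` is `(c+1, y)`.
(2) the `A n y` are pairwise disjoint (if `n < n'`, the column at time `n + 1` is `c + 1`) and measurable.
(3) `A n y` depends only on the columns `≤ c` (`orb_congr_le`), so `P (A n y ∩ J y) = P (A n y) * pS h` (`P_inter_Ex`).
(4) `Rt h (c + (2h+1))` is contained in `Rt h c` and disjoint from `A n y ∩ J y`: let `n₁` be its time (column `> c + 2h + 1`, rows in `[0,h)` until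
`n₁`); `n < n₁`; with the witness `n'` of `J y`: for `n₁ ≤ n + n'` the column at time `n₁` is `≤ c + 1 + 2h`; for `n + n' + 1 ≤ n₁` the row at time
`n + n' + 1` is `y - h - 1 < 0`.
Hence `P (Rt h (c+2h+1)) + ∑ P (A n y ∩ J y) ≤ P (Rt h c)`.
`Rt_pow`: induction on `j` (`P ≤ 1`; `a + p b ≤ b` gives `a ≤ (1 - p) b`, all numbers are `≤ 1`).
`lat_le`: let `ω` be in the event of `lat d`, with time `n`.  If the row is `≥ h` at some time `≤ n`: `∃ x', Hit ω h 0 x'` (first such time, `d1_enter`;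
for `h = 0` `Hit ω 0 0 0` holds with `n = 0`).  Otherwise the rows are in `[0,h)`, and if the column at time `n` is `> d` then `ω ∈ Rt h (j (2h+1))`; if it is
`< -d` then `refE ω ∈ Rt h (j (2h+1))` (`orb_ref`, `refD (up 0) = up 0`), use `mp_refE`.
-/

namespace Pool.Agent.GRP

open Pool.Agent.GRW MeasureTheory Filter Topology

theorem f1_dvx (d : Fin 4) : (dv d).1 ≤ 1 ∧ -1 ≤ (dv d).1 ∧ ((dv d).1 = 1 → d = 0) := by
  revert d; decide

theorem f1_col_succ (ω : Env) (x : Dart) (n : ℕ) :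
    (orb ω x (n + 1)).1.1 = (orb ω x n).1.1 + (dv (orb ω x n).2).1 := by
  rw [orb_base_succ]; rfl

/-- first arrival at column `c`, going east, at the time `n` and in the row `y` -/
def f1A (h : ℕ) (c : ℤ) (p : ℕ × ℤ) : Set Env :=
  {ω | orb ω (up 0) p.1 = ((c, p.2), 0) ∧ ∀ i, 0 < i → i ≤ p.1 → (orb ω (up 0) i).1.1 ≤ c ∧
    0 ≤ (orb ω (up 0) i).1.2 ∧ (orb ω (up 0) i).1.2 < h}

/-- the following piece of the trail leaves the square through the south side -/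
def f1J (h : ℕ) (c : ℤ) (y : ℤ) : Set Env :=
  {ω | Ex ω (rect (c + 1) (c + 1 + 2 * h) (y - h) (y + h)) ((c, y), 0) (rowS (y - h - 1))}

theorem f1_pos {h : ℕ} {c : ℤ} {p : ℕ × ℤ} {ω : Env} (hω : ω ∈ f1A h c p) :
    0 < p.1 ∧ 0 ≤ p.2 ∧ p.2 < h := by
  obtain ⟨h1, h2⟩ := hω
  have hp : 0 < p.1 := by
    rcases Nat.eq_zero_or_pos p.1 with h0 | h0
    · rw [h0, orb_zero] at h1
      exact absurd (congrArg (fun d : Dart => d.2) h1) (by simp [up])
    · exact h0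
  have h3 := h2 p.1 hp le_rfl
  rw [h1] at h3
  exact ⟨hp, h3.2.1, h3.2.2⟩

theorem f1_next {h : ℕ} {c : ℤ} {p : ℕ × ℤ} {ω : Env} (hω : ω ∈ f1A h c p) :
    (orb ω (up 0) (p.1 + 1)).1 = (c + 1, p.2) := by
  rw [orb_base_succ, hω.1]
  simp [dv]

theorem f1_measA (h : ℕ) (c : ℤ) (p : ℕ × ℤ) : MeasurableSet (f1A h c p) := by
  have heq : f1A h c p = {ω : Env | orb ω (up 0) p.1 ∈ ({((c, p.2), 0)} : Set Dart)} ∩
      ⋂ i : ℕ, ⋂ _ : 0 < i, ⋂ _ : i ≤ p.1,
        {ω : Env | orb ω (up 0) i ∈ {d : Dart | d.1.1 ≤ c ∧ 0 ≤ d.1.2 ∧ d.1.2 < h}} := by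
    ext ω
    simp [f1A]
  rw [heq]
  refine MeasurableSet.inter ?_ ?_
  · exact measurableSet_orb_mem (g := fun _ => up 0) measurable_const p.1 _
  · refine MeasurableSet.iInter fun i => MeasurableSet.iInter fun _ => MeasurableSet.iInter fun _ => ?_
    exact measurableSet_orb_mem (g := fun _ => up 0) measurable_const i _

theorem f1_locA {h : ℕ} {c : ℤ} {p : ℕ × ℤ} {ω ω' : Env} (hs : ∀ s : ℤ × ℤ, s.1 ≤ c → ω s = ω' s)
    (hω : ω ∈ f1A h c p) : ω' ∈ f1A h c p := by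
  obtain ⟨h1, h2⟩ := hω
  have key := orb_congr_le (ω := ω) (ω' := ω') (x := up 0) p.1 (fun i hi hin =>
    (hs _ (h2 i hi hin).1).symm)
  refine ⟨?_, ?_⟩
  · rw [key p.1 le_rfl, h1]
  · intro i hi hin
    rw [key i hin]
    exact h2 i hi hin

theorem f1_indep (h : ℕ) (c : ℤ) (p : ℕ × ℤ) :
    P (f1A h c p ∩ f1J h c p.2) = P (f1A h c p) * pS h := by
  have h1 := P_inter_Ex (rect (c + 1) (c + 1 + 2 * h) (p.2 - h) (p.2 + h)) (f1_measA h c p)
    (fun ω ω' hs => by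
      have hs' : ∀ s : ℤ × ℤ, s.1 ≤ c → ω s = ω' s := by
        intro s hsc
        apply hs
        rw [mem_rect]
        rintro ⟨⟨h3, _⟩, _⟩
        omega
      exact ⟨fun hh => f1_locA hs' hh, fun hh => f1_locA (fun s h4 => (hs' s h4).symm) hh⟩)
    ((c, p.2), 0) (rowS (p.2 - h - 1))
  rw [pS_south h c p.2] at h1
  exact h1

theorem f1_eq (h c : ℕ) : Rt h (c : ℤ) = ⋃ p : ℕ × ℤ, f1A h (c : ℤ) p := by
  classical
  ext ω
  simp only [Set.mem_iUnion]
  constructor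
  · rintro ⟨n, hn0, hn, hc⟩
    have hex : ∃ k, 0 < k ∧ (c : ℤ) < (orb ω (up 0) k).1.1 := ⟨n, hn0, hc⟩
    obtain ⟨k, ⟨hk0, hk⟩, hkm⟩ : ∃ k, (0 < k ∧ (c : ℤ) < (orb ω (up 0) k).1.1) ∧
        ∀ i, i < k → ¬ (0 < i ∧ (c : ℤ) < (orb ω (up 0) i).1.1) :=
      ⟨Nat.find hex, Nat.find_spec hex, fun i hi => Nat.find_min hex hi⟩
    have hkn : k ≤ n := by
      by_contra hcon
      exact hkm n (by omega) ⟨hn0, hc⟩
    obtain ⟨m, rfl⟩ : ∃ m, k = m + 1 := ⟨k - 1, by omega⟩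
    have h1 := f1_col_succ ω (up 0) m
    have h2 := f1_dvx (orb ω (up 0) m).2
    rcases Nat.eq_zero_or_pos m with h0 | h0
    · subst h0
      rw [h1, orb_zero] at hk
      simp [up, dv] at hk
      omega
    · have h3 : (orb ω (up 0) m).1.1 ≤ c := by
        by_contra hcon
        exact hkm m (by omega) ⟨h0, not_le.1 hcon⟩
      have h4 : (dv (orb ω (up 0) m).2).1 = 1 := by omega
      refine ⟨(m, (orb ω (up 0) m).1.2), ?_, ?_⟩
      · refine Prod.ext (Prod.ext ?_ rfl) (h2.2.2 h4)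
        show (orb ω (up 0) m).1.1 = (c : ℤ)
        omega
      · intro i hi him
        have him' : i ≤ m := him
        refine ⟨?_, hn i hi (by omega)⟩
        by_contra hcon
        exact hkm i (by omega) ⟨hi, not_le.1 hcon⟩
  · rintro ⟨p, hp⟩
    have h1 := f1_pos hp
    have h2 := f1_next hp
    refine ⟨p.1 + 1, by omega, ?_, ?_⟩
    · intro i hi hin
      rcases Nat.lt_or_ge p.1 i with h3 | h3
      · have h4 : i = p.1 + 1 := by omega
        rw [h4, h2]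
        exact h1.2
      · exact (hp.2 i hi h3).2
    · rw [h2]
      show (c : ℤ) < (c : ℤ) + 1
      omega

theorem f1_disj (h : ℕ) (c : ℤ) {p q : ℕ × ℤ} {ω : Env} (hp : ω ∈ f1A h c p) (hq : ω ∈ f1A h c q) :
    p = q := by
  rcases lt_trichotomy p.1 q.1 with h1 | h1 | h1
  · have h2 := (hq.2 (p.1 + 1) (by omega) (by omega)).1
    rw [f1_next hp] at h2
    simp at h2
  · refine Prod.ext h1 ?_
    have h2 := hp.1
    rw [h1, hq.1] at h2
    exact (congrArg (fun d : Dart => d.1.2) h2).symm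
  · have h2 := (hp.2 (q.1 + 1) (by omega) (by omega)).1
    rw [f1_next hq] at h2
    simp at h2

theorem f1_far {h : ℕ} {c : ℤ} {p : ℕ × ℤ} {ω : Env} (hp : ω ∈ f1A h c p) (hJ : ω ∈ f1J h c p.2)
    (hR : ω ∈ Rt h (c + (2 * h + 1))) : False := by
  obtain ⟨n₁, hn0, hn, hc⟩ := hR
  obtain ⟨n', hn'1, hn'2⟩ := hJ
  have hadd : ∀ i, orb ω (up 0) (p.1 + i) = orb ω ((c, p.2), 0) i := by
    intro i
    rw [orb_add, hp.1]
  have h1 : p.1 < n₁ := by
    by_contra hcon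
    have := (hp.2 n₁ hn0 (by omega)).1
    omega
  rcases Nat.lt_or_ge (p.1 + n') n₁ with h2 | h2
  · have h3 := (hn (p.1 + (n' + 1)) (by omega) (by omega)).1
    rw [hadd] at h3
    have h4 : (orb ω ((c, p.2), 0) (n' + 1)).1.2 = p.2 - h - 1 := hn'2
    rw [h4] at h3
    have h5 := f1_pos hp
    omega
  · obtain ⟨i, rfl⟩ : ∃ i, n₁ = p.1 + i := ⟨n₁ - p.1, by omega⟩
    have h3 := hn'1 i (by omega) (by omega)
    rw [← hadd] at h3
    have h4 := (mem_rect.1 (Finset.mem_coe.1 h3)).1.2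
    omega

theorem measurableSet_Rt (h : ℕ) (c : ℤ) : MeasurableSet (Rt h c) := by
  have heq : Rt h c = ⋃ n : ℕ, ⋃ _ : 0 < n, ((⋂ i : ℕ, ⋂ _ : 0 < i, ⋂ _ : i ≤ n,
      {ω : Env | orb ω (up 0) i ∈ {d : Dart | 0 ≤ d.1.2 ∧ d.1.2 < h}}) ∩
      {ω : Env | orb ω (up 0) n ∈ {d : Dart | c < d.1.1}}) := by
    ext ω
    simp only [Rt, Set.mem_setOf_eq, Set.mem_iUnion, Set.mem_inter_iff, Set.mem_iInter, exists_prop]
  rw [heq]
  refine MeasurableSet.iUnion fun n => MeasurableSet.iUnion fun _ => MeasurableSet.inter ?_ ?_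
  · refine MeasurableSet.iInter fun i => MeasurableSet.iInter fun _ => MeasurableSet.iInter fun _ => ?_
    exact measurableSet_orb_mem (g := fun _ => up 0) measurable_const i _
  · exact measurableSet_orb_mem (g := fun _ => up 0) measurable_const n _

theorem Rt_step (h c : ℕ) : P (Rt h ((c : ℤ) + (2 * h + 1))) + pS h * P (Rt h c) ≤ P (Rt h c) := by
  have hmJ : ∀ y, MeasurableSet (f1J h (c : ℤ) y) := fun y => measurableSet_Ex _ _ _
  have hm : ∀ p : ℕ × ℤ, MeasurableSet (f1A h (c : ℤ) p ∩ f1J h (c : ℤ) p.2) := fun p =>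
    (f1_measA h c p).inter (hmJ p.2)
  have h1 : P (⋃ p : ℕ × ℤ, (f1A h (c : ℤ) p ∩ f1J h (c : ℤ) p.2)) = pS h * P (Rt h c) := by
    rw [f1_eq, measure_iUnion (fun p q hpq => Set.disjoint_left.2 fun ω ha hb =>
      hpq (f1_disj h c ha.1 hb.1)) hm, measure_iUnion (fun p q hpq => Set.disjoint_left.2 fun ω ha hb =>
      hpq (f1_disj h c ha hb)) (fun p => f1_measA h c p), ← ENNReal.tsum_mul_left]
    refine tsum_congr fun p => ?_
    rw [f1_indep, mul_comm]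
  rw [← h1, ← measure_union (Set.disjoint_left.2 fun ω ha hb => by
    obtain ⟨p, hp⟩ := Set.mem_iUnion.1 hb
    exact f1_far hp.1 hp.2 ha) (MeasurableSet.iUnion hm)]
  refine measure_mono (Set.union_subset ?_ ?_)
  · rintro ω ⟨n, hn0, hn, hc⟩
    exact ⟨n, hn0, hn, by omega⟩
  · rw [f1_eq]
    exact Set.iUnion_mono fun p => Set.inter_subset_left

theorem Rt_pow (h j : ℕ) : P (Rt h (((j * (2 * h + 1) : ℕ)) : ℤ)) ≤ (1 - pS h) ^ j := by
  induction j with
  | zero => simpa using prob_le_one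
  | succ j ih =>
    have h1 := Rt_step h (j * (2 * h + 1))
    have h2 : (((j + 1) * (2 * h + 1) : ℕ) : ℤ) = ((j * (2 * h + 1) : ℕ) : ℤ) + (2 * h + 1) := by
      push_cast
      ring
    rw [h2]
    have hb : P (Rt h (((j * (2 * h + 1) : ℕ)) : ℤ)) ≠ ⊤ := measure_ne_top _ _
    have hp : pS h ≤ 1 := prob_le_one
    have hpb : pS h * P (Rt h (((j * (2 * h + 1) : ℕ)) : ℤ)) ≠ ⊤ :=
      ENNReal.mul_ne_top (ne_top_of_le_ne_top ENNReal.one_ne_top hp) hb
    calc P (Rt h (((j * (2 * h + 1) : ℕ) : ℤ) + (2 * h + 1)))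
        ≤ P (Rt h (((j * (2 * h + 1) : ℕ)) : ℤ)) - pS h * P (Rt h (((j * (2 * h + 1) : ℕ)) : ℤ)) :=
          ENNReal.le_sub_of_add_le_right hpb h1
      _ = (1 - pS h) * P (Rt h (((j * (2 * h + 1) : ℕ)) : ℤ)) := by
          rw [ENNReal.sub_mul (fun _ _ => hb), one_mul]
      _ ≤ (1 - pS h) * (1 - pS h) ^ j := by gcongr
      _ = (1 - pS h) ^ (j + 1) := by rw [pow_succ']

theorem lat_le {h j d : ℕ} (hd : j * (2 * h + 1) ≤ d) : lat d ≤ nh h + 2 * (1 - pS h) ^ j := by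
  classical
  set c : ℤ := ((j * (2 * h + 1) : ℕ) : ℤ) with hc
  have hcd : c ≤ d := by rw [hc]; exact_mod_cast hd
  have hup : refD (up 0) = up 0 := by decide
  have hsub : {ω : Env | ∃ n, 0 < n ∧ (∀ i, 0 < i → i ≤ n → 0 ≤ (orb ω (up 0) i).1.2) ∧
      (d : ℤ) < |(orb ω (up 0) n).1.1|} ⊆
      {ω | ∃ x', Hit ω h 0 x'} ∪ (Rt h c ∪ refE ⁻¹' (Rt h c)) := by
    rintro ω ⟨n, hn0, hn, hnd⟩
    by_cases hex : ∃ k, 0 < k ∧ k ≤ n ∧ (h : ℤ) ≤ (orb ω (up 0) k).1.2
    · left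
      obtain ⟨k, ⟨hk0, hkn, hk⟩, hkm⟩ : ∃ k, (0 < k ∧ k ≤ n ∧ (h : ℤ) ≤ (orb ω (up 0) k).1.2) ∧
          ∀ i, i < k → ¬ (0 < i ∧ i ≤ n ∧ (h : ℤ) ≤ (orb ω (up 0) i).1.2) :=
        ⟨Nat.find hex, Nat.find_spec hex, fun i hi => Nat.find_min hex hi⟩
      obtain ⟨m, rfl⟩ : ∃ m, k = m + 1 := ⟨k - 1, by omega⟩
      have hlt : ∀ i, 0 < i → i ≤ m → 0 ≤ (orb ω (up 0) i).1.2 ∧ (orb ω (up 0) i).1.2 < h := by
        intro i hi him
        refine ⟨hn i hi (by omega), ?_⟩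
        by_contra hcon
        exact hkm i (by omega) ⟨hi, by omega, not_lt.1 hcon⟩
      refine d1_enter (n := m) hlt ?_
      have h1 := d1_row_succ ω (up 0) m
      have h2 := d1_dv (orb ω (up 0) m).2
      have h3 : (orb ω (up 0) m).1.2 ≤ (h : ℤ) - 1 := by
        rcases Nat.eq_zero_or_pos m with h0 | h0
        · subst h0
          rw [orb_zero]
          show (-1 : ℤ) ≤ (h : ℤ) - 1
          omega
        · have := (hlt m h0 le_rfl).2
          omega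
      have h4 : (orb ω (up 0) (m + 1)).1.2 = h := by omega
      exact h4
    · right
      have hrow : ∀ i, 0 < i → i ≤ n → 0 ≤ (orb ω (up 0) i).1.2 ∧ (orb ω (up 0) i).1.2 < h := by
        intro i hi hin
        refine ⟨hn i hi hin, ?_⟩
        by_contra hcon
        exact hex ⟨i, hi, hin, not_lt.1 hcon⟩
      rcases lt_abs.1 hnd with h1 | h1
      · left
        exact ⟨n, hn0, hrow, by omega⟩
      · right
        have hr : ∀ i, orb ω (up 0) i = refD (orb (refE ω) (up 0) i) := by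
          intro i
          rw [← orb_ref, hup]
        have hr1 : ∀ i, (orb ω (up 0) i).1.1 = -(orb (refE ω) (up 0) i).1.1 := by
          intro i
          rw [hr i]; rfl
        have hr2 : ∀ i, (orb ω (up 0) i).1.2 = (orb (refE ω) (up 0) i).1.2 := by
          intro i
          rw [hr i]; rfl
        refine ⟨n, hn0, ?_, ?_⟩
        · intro i hi hin
          rw [← hr2 i]
          exact hrow i hi hin
        · have := hr1 n
          omega
  calc lat d ≤ P ({ω | ∃ x', Hit ω h 0 x'} ∪ (Rt h c ∪ refE ⁻¹' (Rt h c))) := measure_mono hsub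
    _ ≤ P {ω | ∃ x', Hit ω h 0 x'} + (P (Rt h c) + P (refE ⁻¹' (Rt h c))) :=
        (measure_union_le _ _).trans (by gcongr; exact measure_union_le _ _)
    _ = nh h + 2 * P (Rt h c) := by
        rw [mp_refE.measure_preimage (measurableSet_Rt h c).nullMeasurableSet, two_mul]
        rfl
    _ ≤ nh h + 2 * (1 - pS h) ^ j := by
        gcongr
        exact Rt_pow h j

end Pool.Agent.GRP
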