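import Pool.Agent.GRP.FDefs
import Pool.Agent.GRP.C1
import Pool.Agent.GRW.A1
import Pool.Agent.GRW.Walk
import Pool.Agent.GRW.K1
import Pool.Agent.GRW.A2
import Pool.Agent.GRW.C3

/-!
# [GRP-F8] from the cylinder to the plane (uses C1)

PROOFS. `fresh_of_open`: let `x r = (orb ω z r).1`.  `FreshStep x r` for `r < N` with the direction `(orb ω z r).2`: if the edge `s(x r, x (r+1))` were
crossed at a time `k < r`, then either `x k = x r`, `x (k+1) = x (r+1)` and the directions agree (`dv_inj`), so `orb ω z k = orb ω z r` and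
`orb ω z (r - k) = z` by `orb_add` and `orb_injective` with `0 < r - k < N`: contradiction; or `x k = x (r+1)`, `x (k+1) = x r` and
`orb ω z r = R ω (orb ω z (k+1))` (the direction of `orb ω z r` is opposite to that of `orb ω z k`, `dv_add_two`).  Claim: `orb ω z a = R ω (orb ω z b)` is
impossible for `b ≤ a`: by induction on `a - b`; `a = b`: `R_ne`; `a = b + 1`: then `F ω (orb ω z b) = R ω (orb ω z b)`, contradiction to `F_base_ne`;
`a ≥ b + 2`: `F_R_F` gives `F ω (R ω (orb ω z (b+1))) = R ω (orb ω z b) = orb ω z a = F ω (orb ω z (a-1))`, so `orb ω z (a-1) = R ω (orb ω z (b+1))`.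
`open_of_exit`: if `orb ω z i = z` with `0 < i < N` then by `orb_add` the site at time `N` is the site at time `N - i`; as `0 < N - i < N`, it is in `Q`.
`plane_exit`: let `ω` be in the event of `p0 r r` with time `N₀`, `z = up 0`.  Let `N ≤ N₀ + 1` be the first time `> 0` at which the site under `per r ω` is in row
`r` or has `|column| > r` (it exists: time `N₀ + 1`).  At the times `1..N-1` the sites are in the box `Q = [-r, r] × [-r, r-1]`, where `per r ω = ω`, so the
orbits of `z` under `ω` and `per r ω` have the same sites up to time `N` (`orb_congr_le` with `N - 1`, `orb_base_succ`).  The site at time `N` is not in `Q`.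
By translation (`orb_tr` with `(0, 1)`: `(0, 1) = tr (0, 1) (up 0)`) the trail of the dart `(0, 1)` in the environment `ω'` with `shift (0, 1) ω' = ω` is at time `N` at a
site with `|column| = r + 1` or row `r + 1`; by `open_of_exit` and `fresh_of_open` its steps `< N` are fresh.
`p0_le_plane`: the event of `p0 r r` is contained in the preimage of the event on the right under the measure preserving map `shift (0, -1)`
(`mp_shift`; `shift (0,1) (shift (0,-1) ω) = ω`).
-/

namespace Pool.Agent.GRP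

open Pool.Agent.GRW MeasureTheory Filter Topology

/-- the path is at distance `≥ n` (in the maximum norm) at time `N` and its first `N` steps are fresh -/
def Esc (n : ℕ) (N : ℕ) (x : ℕ → ℤ × ℤ) : Prop :=
  (∀ r < N, FreshStep x r) ∧ ((n : ℤ) ≤ |(x N).1| ∨ (n : ℤ) ≤ |(x N).2|)

theorem f8_noR (ω : Env) (z : Dart) : ∀ t b : ℕ, orb ω z (b + t) ≠ R ω (orb ω z b)
  | 0, b => fun h => R_ne ω (orb ω z b) h.symm
  | 1, b => fun h => by
    rw [orb_succ] at h
    exact F_base_ne ω (orb ω z b) (by rw [h]; rfl)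
  | t + 2, b => fun h => by
    have e : b + (t + 2) = (b + 1 + t) + 1 := by omega
    rw [e, orb_succ, ← F_R_F ω (orb ω z b), ← orb_succ ω z b] at h
    exact f8_noR ω z t (b + 1) (F_injective ω h)

theorem fresh_of_open {ω : Env} {z : Dart} {N : ℕ} (h : ∀ i, 0 < i → i < N → orb ω z i ≠ z) :
    ∀ r < N, FreshStep (fun i => (orb ω z i).1) r := by
  intro r hr
  refine ⟨(orb ω z r).2, ?_, orb_base_succ ω z r⟩
  rw [mem_freshDirs]
  intro k hk he
  have h1 := orb_base_succ ω z k
  rw [Sym2.eq_iff] at he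
  rcases he with ⟨e1, e2⟩ | ⟨e1, e2⟩
  · have h2 : (orb ω z r).2 = (orb ω z k).2 := by
      simp only at e1 e2
      rw [h1, ← e1] at e2
      exact dv_inj (add_left_cancel e2)
    have h3 : orb ω z r = orb ω z k := Prod.ext e1 h2
    have h4 : orb ω z ((r - k) + k) = orb ω z k := by
      rw [Nat.sub_add_cancel hk.le, h3]
    rw [orb_add] at h4
    exact h (r - k) (by omega) (by omega) (orb_injective ω k h4)
  · simp only at e1 e2
    refine f8_noR ω z (r - (k + 1)) (k + 1) ?_
    have e3 : k + 1 + (r - (k + 1)) = r := by omega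
    rw [e3]
    refine Prod.ext e1 ?_
    have h2 : dv (orb ω z r).2 = dv ((orb ω z k).2 + 2) := by
      rw [dv_add_two]
      rw [e1, h1] at e2
      have := eq_neg_of_add_eq_zero_right (a := dv (orb ω z k).2) (b := dv (orb ω z r).2) (by
        have h5 : (orb ω z k).1 + (dv (orb ω z k).2 + dv (orb ω z r).2) = (orb ω z k).1 + 0 := by
          rw [← add_assoc, e2, add_zero]
        exact add_left_cancel h5)
      exact this
    have h3 := dv_inj h2
    rw [h3, orb_succ]
    simp only [F, R, pr_pr]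

theorem open_of_exit {ω : Env} {z : Dart} {N : ℕ} {Q : Set (ℤ × ℤ)}
    (hQ : ∀ i, 0 < i → i < N → (orb ω z i).1 ∈ Q) (hN : (orb ω z N).1 ∉ Q) :
    ∀ i, 0 < i → i < N → orb ω z i ≠ z := by
  intro i hi hiN he
  have h1 : orb ω z N = orb ω z (N - i) := by
    have e : N = i + (N - i) := by omega
    conv_lhs => rw [e, orb_add, he]
  rw [h1] at hN
  exact hN (hQ (N - i) (by omega) (by omega))

theorem plane_exit {r : ℕ} {ω : Env} (h : ∃ N, ReachAt (per r ω) r 0 N) :
    ∃ N, 1 ≤ N ∧ Esc (r + 1) N (fun i => (orb (shift (0, -1) ω) (0, 1) i).1) := by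
  classical
  obtain ⟨N₀, h1, h2⟩ := h
  have hex : ∃ N, 0 < N ∧ ((orb (per r ω) (up 0) N).1.2 = r ∨
      (r : ℤ) < |(orb (per r ω) (up 0) N).1.1|) := ⟨N₀ + 1, by omega, Or.inl h2⟩
  set N := Nat.find hex with hNdef
  obtain ⟨hN0, hN⟩ := Nat.find_spec hex
  have hNle : N ≤ N₀ + 1 := Nat.find_min' hex ⟨by omega, Or.inl h2⟩
  have hbox : ∀ i, 0 < i → i < N → (-(r : ℤ) ≤ (orb (per r ω) (up 0) i).1.2 ∧
      (orb (per r ω) (up 0) i).1.2 < r) ∧ |(orb (per r ω) (up 0) i).1.1| ≤ r := by
    intro i hi hiN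
    refine ⟨h1 i hi (by omega), ?_⟩
    have := Nat.find_min hex hiN
    push Not at this
    exact (this hi).2
  have hagree : ∀ i, i ≤ N - 1 → orb ω (up 0) i = orb (per r ω) (up 0) i := by
    refine orb_congr_le (N - 1) fun i hi hiN => ?_
    exact (per_eq (hbox i hi (by omega)).2).symm
  have hsite : ∀ i, i ≤ N → (orb ω (up 0) i).1 = (orb (per r ω) (up 0) i).1 := by
    intro i hi
    rcases Nat.lt_or_ge i N with h3 | h3
    · rw [hagree i (by omega)]
    · obtain rfl : i = N := by omega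
      obtain ⟨j, hj⟩ : ∃ j, N = j + 1 := ⟨N - 1, by omega⟩
      rw [hj, orb_base_succ, orb_base_succ, hagree j (by omega)]
  have htr : ∀ i, (orb (shift (0, -1) ω) (0, 1) i).1 = (orb ω (up 0) i).1 + (0, 1) := by
    intro i
    have e1 : (((0 : ℤ × ℤ), (1 : Fin 4)) : Dart) = tr (0, 1) (up 0) := by
      simp only [tr, up]
      rfl
    have e2 : shift (0, 1) (shift (0, -1) ω) = ω := by
      funext s
      change ω (s + (0, 1) + (0, -1)) = ω s
      rw [add_assoc]
      congr 1
      exact add_zero s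
    rw [e1, orb_tr, e2]
    rfl
  have hin : ∀ i, 0 < i → i < N → (orb (shift (0, -1) ω) (0, 1) i).1 ∈
      {s : ℤ × ℤ | |s.1| ≤ r ∧ |s.2| ≤ r} := by
    intro i hi hiN
    obtain ⟨⟨b1, b2⟩, b3⟩ := hbox i hi hiN
    rw [htr i, hsite i hiN.le]
    refine ⟨by simpa using b3, ?_⟩
    simp only [Prod.snd_add]
    rw [abs_le]
    omega
  have hout : ((r + 1 : ℕ) : ℤ) ≤ |(orb (shift (0, -1) ω) (0, 1) N).1.1| ∨
      ((r + 1 : ℕ) : ℤ) ≤ |(orb (shift (0, -1) ω) (0, 1) N).1.2| := by
    rw [htr N, hsite N le_rfl]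
    rcases hN with h3 | h3
    · right
      simp only [Prod.snd_add]
      rw [h3]
      push_cast
      exact le_abs_self _
    · left
      simp only [Prod.fst_add, add_zero]
      push_cast
      exact h3
  refine ⟨N, hN0, ?_, hout⟩
  refine fresh_of_open (open_of_exit hin ?_)
  rintro ⟨c1, c2⟩
  push_cast at hout
  omega

theorem p0_le_plane (r : ℕ) :
    p0 r r ≤ P {ω | ∃ N, 1 ≤ N ∧ Esc (r + 1) N (fun i => (orb ω (0, 1) i).1)} := by
  have h1 : {ω : Env | ∃ N, ReachAt (per r ω) r 0 N} ⊆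
      (shift (0, -1)) ⁻¹' {ω | ∃ N, 1 ≤ N ∧ Esc (r + 1) N (fun i => (orb ω (0, 1) i).1)} :=
    fun ω hω => plane_exit hω
  refine (measure_mono h1).trans ?_
  have h2 := mp_shift (0, -1)
  calc P ((shift (0, -1)) ⁻¹' {ω | ∃ N, 1 ≤ N ∧ Esc (r + 1) N (fun i => (orb ω (0, 1) i).1)})
      ≤ (P.map (shift (0, -1))) {ω | ∃ N, 1 ≤ N ∧ Esc (r + 1) N (fun i => (orb ω (0, 1) i).1)} :=
        Measure.le_map_apply h2.measurable.aemeasurable _
    _ = _ := by rw [h2.map_eq]

end Pool.Agent.GRP
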