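import Pool.Agent.GRP.Defs
import Pool.Agent.GRW.K6

/-!
# [GRP-F9] comparison of the environment with the walk (uses only the library GRW)

PROOFS. `card_fresh_le`: let the steps `< N` of `x` be fresh, `N ≥ 1`.  The edge of the step `N - 1` is crossed, so `card (freshDirs x N (x N)) ≤ 3`.  If moreover
`x m = x N` for some `0 < m < N` then the edges of the steps `m - 1`, `m`, `N - 1` are three different edges at `x N` (all steps are fresh), all
crossed: `card ≤ 1`.
`cyl_lower`: induction on `N ≥ 1`.  `N = 1`: `P ≤ 1` and `μ (cyl X 1 x) = μ (cyl X 0 x) * 4⁻¹ = 4⁻¹` (`IsGRW.step`, `IsGRW.start`, `freshDirs_zero`).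
Step: let `f = card (freshDirs x N (x N))`, `1 ≤ f` (the step `N` is fresh), `μ (cyl X (N+1) x) = μ (cyl X N x) * f⁻¹`.  If `f = 1`: `Follow (N+1) ⊆ Follow N`.
Otherwise `f ≤ 3` and `x m ≠ x N` for `0 < m < N` (`card_fresh_le`), so the event `{ω | ∀ i ≤ N, (orb ω (0, k) i).1 = x i}` does not depend on
`ω (x N)` (as in `k5_congr`, with `D = ∅`, `L = 0`); with `a` the direction back to `x (N-1)` and `b` the direction of the step `N`, `a ≠ b` (freshness),
the event for `N + 1` is contained in `{event for N} ∩ {ω | pr (ω (x N)) a = b}` and there is exactly one pairing `p` with `pr p a = b` (`decide`), so by `P_single` its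
probability is at most `P (event N) / 3 ≤ P (event N) * f⁻¹`.
`grw_lower`: as `grw_upper` (row E1): with `T' n x` = `T n x`, fresh steps `< n`, and no `1 ≤ m < n` with these properties, the left event is the union over `n ≥ 1` and
`y : Fin (n+1) → ℤ × ℤ` with `k6_pad n y 0 = 0`, `k6_pad n y 1 = dv k` and `T' n` of the events `{ω | ∀ i ≤ n, (orb ω (0,k) i).1 = k6_pad n y i}`; by
`cyl_lower` its probability is at most `∑ 4 * μ (cyl X n (k6_pad n y))`; these cylinders are disjoint, measurable (`measurableSet_cyl`) and contained in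
the right event.
-/

namespace Pool.Agent.GRP

open Pool.Agent.GRW MeasureTheory Filter Topology

theorem card_fresh_le {x : ℕ → ℤ × ℤ} {N : ℕ} (hN : 1 ≤ N) (hf : ∀ r < N, FreshStep x r) :
    (freshDirs x N (x N)).card ≤ 3 ∧
      ((∃ m, 0 < m ∧ m < N ∧ x m = x N) → (freshDirs x N (x N)).card ≤ 1) := by
  obtain ⟨n, rfl⟩ : ∃ n, N = n + 1 := ⟨N - 1, by omega⟩
  obtain ⟨a, ha, hxa⟩ := hf n (by omega)
  obtain ⟨h1, h2⟩ := freshDirs_succ_new hxa ha
  have h3 := Finset.card_erase_of_mem h1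
  have h4 : ∀ S : Finset (Fin 4), S.card ≤ 4 := fun S => by
    simpa using Finset.card_le_univ S
  refine ⟨by rw [h2, h3]; have := h4 (freshDirs x n (x (n + 1))); omega, ?_⟩
  rintro ⟨m, hm0, hmN, hm⟩
  have hmn : m ≠ n := by
    rintro rfl
    rw [hxa] at hm
    exact dv_ne_zero a (by simpa using hm)
  obtain ⟨l, rfl⟩ : ∃ l, m = l + 1 := ⟨m - 1, by omega⟩
  obtain ⟨b, hb, hxb⟩ := hf l (by omega)
  obtain ⟨k1, k2⟩ := freshDirs_succ_new hxb hb
  obtain ⟨c, hc, hxc⟩ := hf (l + 1) (by omega)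
  have k3 := freshDirs_succ_self hxc hc
  have k4 := Finset.card_erase_of_mem hc
  have k5 := Finset.card_erase_of_mem k1
  have k6 := Finset.card_le_card (freshDirs_anti x (by omega : l + 1 + 1 ≤ n) (x (l + 1)))
  rw [k3, k4, k2, k5] at k6
  have k7 := h4 (freshDirs x l (x (l + 1)))
  rw [h2, h3, ← hm]
  omega

theorem f9_pr_unique {p q : Fin 3} {a b : Fin 4} (h1 : pr p a = b) (h2 : pr q a = b) : p = q := by
  revert p q a b; decide

theorem f9_follow {x : ℕ → ℤ × ℤ} (h0 : x 0 = 0) (k : Fin 4) (N : ℕ) :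
    {ω : Env | ∀ i ≤ N, (orb ω (0, k) i).1 = x i} = Follow ∅ (fun _ => 0) x 0 k N := by
  ext ω
  have e : modEnv ∅ (fun _ => 0) ω = ω := by
    funext u
    simp [modEnv]
  simp only [Follow, Set.mem_ofPred_eq, e, h0, Nat.sub_zero, zero_add]

theorem cyl_lower {Ω : Type*} [MeasurableSpace Ω] {μ : Measure Ω} {X : ℕ → Ω → ℤ × ℤ}
    [IsProbabilityMeasure μ] (hX : IsGRW μ X) {x : ℕ → ℤ × ℤ} {k : Fin 4} (h0 : x 0 = 0)
    (h1 : x 1 = dv k) (N : ℕ) (hN : 1 ≤ N) (hf : ∀ r < N, FreshStep x r) :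
    P {ω | ∀ i ≤ N, (orb ω (0, k) i).1 = x i} ≤ 4 * μ (cyl X N x) := by
  induction N, hN using Nat.le_induction with
  | base =>
    have e0 : μ (cyl X 0 x) = 1 := by
      have h2 : cyl X 0 x =ᵐ[μ] Set.univ := by
        filter_upwards [hX.start] with ω hω
        refine propext ⟨fun _ => trivial, fun _ => ?_⟩
        intro j hj
        obtain rfl : j = 0 := by omega
        rw [hω, h0]
      rw [measure_congr h2, measure_univ]
    have e1 : μ (cyl X 1 x) = μ (cyl X 0 x) * greedyProb x 0 (x 1) := hX.step 0 x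
    have e2 : greedyProb x 0 (x 1) = (4 : ENNReal)⁻¹ := by
      unfold greedyProb
      rw [freshDirs_zero]
      have h2 : (Finset.univ : Finset (Fin 4)) ≠ ∅ := by decide
      rw [if_neg h2, if_pos ⟨k, Finset.mem_univ _, by rw [h0, h1, zero_add]⟩]
      simp
    rw [e1, e0, e2, one_mul, ENNReal.mul_inv_cancel (by norm_num) (by norm_num)]
    exact prob_le_one
  | succ N hN ih =>
    have hf' : ∀ r < N, FreshStep x r := fun r hr => hf r (by omega)
    have ih' := ih hf'
    obtain ⟨hc3, hc1⟩ := card_fresh_le hN hf'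
    obtain ⟨b, hb, hxb⟩ := hf N (by omega)
    have hcpos : 0 < (freshDirs x N (x N)).card := Finset.card_pos.2 ⟨b, hb⟩
    have hgp : greedyProb x N (x (N + 1)) = ((freshDirs x N (x N)).card : ENNReal)⁻¹ := by
      unfold greedyProb
      rw [if_neg (Finset.card_pos.1 hcpos).ne_empty, if_pos ⟨b, hb, hxb⟩]
    have hstep : μ (cyl X (N + 1) x) = μ (cyl X N x) * ((freshDirs x N (x N)).card : ENNReal)⁻¹ := by
      have := hX.step N x
      rw [hgp] at this
      exact this
    have hmono : {ω : Env | ∀ i ≤ N + 1, (orb ω (0, k) i).1 = x i} ⊆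
        {ω | ∀ i ≤ N, (orb ω (0, k) i).1 = x i} := fun ω hω i hi => hω i (by omega)
    rw [hstep, ← mul_assoc]
    by_cases hcase : (freshDirs x N (x N)).card = 1
    · rw [hcase, Nat.cast_one, inv_one, mul_one]
      exact (measure_mono hmono).trans ih'
    · have hne : ∀ r, 0 < r → r < N → x r ≠ x N := by
        intro r hr1 hr2 heq
        have := hc1 ⟨r, hr1, hr2, heq⟩
        omega
      obtain ⟨n, rfl⟩ : ∃ n, N = n + 1 := ⟨N - 1, by omega⟩
      obtain ⟨a, ha, hxa⟩ := hf n (by omega)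
      obtain ⟨hn1, hn2⟩ := freshDirs_succ_new hxa ha
      have hab : a + 2 ≠ b := by
        intro h
        rw [hn2, ← h] at hb
        simp at hb
      obtain ⟨p, hp⟩ := pr_exists (a + 2) b hab
      have hsub : {ω : Env | ∀ i ≤ n + 1 + 1, (orb ω (0, k) i).1 = x i} ⊆
          {ω | ∀ i ≤ n + 1, (orb ω (0, k) i).1 = x i} ∩ {ω | ω (x (n + 1)) = p} := by
        intro ω hω
        refine ⟨hmono hω, ?_⟩
        have g1 : (orb ω (0, k) n).1 = x n := hω n (by omega)
        have g2 : (orb ω (0, k) (n + 1)).1 = x (n + 1) := hω (n + 1) (by omega)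
        have g3 : (orb ω (0, k) (n + 1 + 1)).1 = x (n + 1 + 1) := hω (n + 1 + 1) le_rfl
        have g4 : (orb ω (0, k) n).2 = a := by
          rw [orb_base_succ, g1, hxa] at g2
          exact dv_inj (add_left_cancel g2)
        have g5 : (orb ω (0, k) (n + 1)).2 = b := by
          rw [orb_base_succ, g2, hxb] at g3
          exact dv_inj (add_left_cancel g3)
        rw [orb_succ] at g5
        simp only [F] at g5
        rw [g1, g4, ← hxa] at g5
        exact f9_pr_unique g5 hp
      have hPs := P_single (x (n + 1)) (measurableSet_follow ∅ (fun _ => 0) x 0 k (n + 1)) (fun ω c' => by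
        constructor
        · intro h
          refine k5_congr (by omega) hne (fun u hu => ?_) h
          rw [Function.update_of_ne hu]
        · intro h
          refine k5_congr (by omega) hne (fun u hu => ?_) h
          rw [Function.update_of_ne hu]) p
      rw [← f9_follow h0] at hPs
      calc P {ω : Env | ∀ i ≤ n + 1 + 1, (orb ω (0, k) i).1 = x i}
          ≤ P ({ω | ∀ i ≤ n + 1, (orb ω (0, k) i).1 = x i} ∩ {ω | ω (x (n + 1)) = p}) :=
            measure_mono hsub
        _ = P {ω | ∀ i ≤ n + 1, (orb ω (0, k) i).1 = x i} * (3 : ENNReal)⁻¹ := hPs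
        _ ≤ 4 * μ (cyl X (n + 1) x) * ((freshDirs x (n + 1) (x (n + 1))).card : ENNReal)⁻¹ := by
            refine mul_le_mul' ih' ?_
            rw [ENNReal.inv_le_inv]
            exact_mod_cast hc3

open scoped Classical in
theorem grw_lower {Ω : Type*} [MeasurableSpace Ω] {μ : Measure Ω} {X : ℕ → Ω → ℤ × ℤ}
    [IsProbabilityMeasure μ] (hX : IsGRW μ X) (k : Fin 4) (T : ℕ → (ℕ → ℤ × ℤ) → Prop)
    (hT : ∀ (n : ℕ) (x y : ℕ → ℤ × ℤ), (∀ j ≤ n, x j = y j) → T n x → T n y) :
    P {ω | ∃ n, 1 ≤ n ∧ (∀ r < n, FreshStep (fun i => (orb ω (0, k) i).1) r) ∧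
        T n (fun i => (orb ω (0, k) i).1)} ≤
      4 * μ {ω | ∃ n, 1 ≤ n ∧ X 1 ω = dv k ∧ (∀ r < n, FreshStep (fun j => X j ω) r) ∧
        T n (fun j => X j ω)} := by
  let Q := Σ n : ℕ, (Fin (n + 1) → ℤ × ℤ)
  let pd : Q → ℕ → ℤ × ℤ := fun q => k6_pad q.1 q.2
  let Good : Q → Prop := fun q => 1 ≤ q.1 ∧ pd q 0 = 0 ∧ pd q 1 = dv k ∧
    (∀ r < q.1, FreshStep (pd q) r) ∧ T q.1 (pd q) ∧ ∀ m, 1 ≤ m → m < q.1 → ¬ T m (pd q)
  let FE : Q → Set Env := fun q => if Good q then {ω | ∀ i ≤ q.1, (orb ω (0, k) i).1 = pd q i} else ∅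
  let CE : Q → Set Ω := fun q => if Good q then cyl X q.1 (pd q) else ∅
  have hpd : ∀ (n : ℕ) (x : ℕ → ℤ × ℤ), ∀ j ≤ n, pd ⟨n, fun i => x i⟩ j = x j := by
    intro n x j hj
    change k6_pad n _ j = x j
    unfold k6_pad
    rw [dif_pos (by omega)]
  have hmk : ∀ (n : ℕ) (x : ℕ → ℤ × ℤ), 1 ≤ n → x 0 = 0 → x 1 = dv k → (∀ r < n, FreshStep x r) →
      T n x → (∀ m, 1 ≤ m → m < n → ¬ T m x) → Good ⟨n, fun i => x i⟩ := by
    intro n x h1 h2 h3 h4 h5 h6
    refine ⟨h1, ?_, ?_, ?_, ?_, ?_⟩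
    · rw [hpd n x 0 (by omega), h2]
    · rw [hpd n x 1 h1, h3]
    · intro r hr
      exact k6_fresh_congr (x := x) (s := n) (fun j hj => (hpd n x j hj).symm) hr (h4 r hr)
    · exact hT n x _ (fun j hj => (hpd n x j hj).symm) h5
    · intro m hm1 hm2 hTm
      have hm3 : m < n := hm2
      exact h6 m hm1 hm3 (hT m _ x (fun j hj => hpd n x j (by omega)) hTm)
  have hL : {ω : Env | ∃ n, 1 ≤ n ∧ (∀ r < n, FreshStep (fun i => (orb ω (0, k) i).1) r) ∧
        T n (fun i => (orb ω (0, k) i).1)} ⊆ ⋃ q, FE q := by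
    intro ω hω
    let n := Nat.find hω
    obtain ⟨h1, h2, h3⟩ := Nat.find_spec hω
    have hmin : ∀ m, 1 ≤ m → m < n → ¬ T m (fun i => (orb ω (0, k) i).1) := by
      intro m hm1 hm2 hTm
      exact Nat.find_min hω hm2 ⟨hm1, fun r hr => h2 r (by omega), hTm⟩
    have hg := hmk n (fun i => (orb ω (0, k) i).1) h1 rfl (by
      change (orb ω (0, k) (0 + 1)).1 = dv k
      rw [orb_base_succ, orb_zero, zero_add]) h2 h3 hmin
    refine Set.mem_iUnion.2 ⟨⟨n, fun i => (orb ω (0, k) i).1⟩, ?_⟩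
    simp only [FE]
    rw [if_pos hg]
    intro i hi
    exact (hpd n (fun i => (orb ω (0, k) i).1) i hi).symm
  have hR : (⋃ q, CE q) ⊆ {ω | ∃ n, 1 ≤ n ∧ X 1 ω = dv k ∧ (∀ r < n, FreshStep (fun j => X j ω) r) ∧
        T n (fun j => X j ω)} := by
    intro ω hω
    obtain ⟨q, hq⟩ := Set.mem_iUnion.1 hω
    by_cases hg : Good q
    · simp only [CE] at hq
      rw [if_pos hg] at hq
      obtain ⟨h1, h2, h3, h4, h5, h6⟩ := hg
      have hq' : ∀ j ≤ q.1, X j ω = pd q j := hq
      refine ⟨q.1, h1, ?_, ?_, ?_⟩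
      · rw [hq' 1 h1, h3]
      · intro r hr
        exact k6_fresh_congr (fun j hj => (hq' j hj).symm) hr (h4 r hr)
      · exact hT q.1 (pd q) _ (fun j hj => (hq' j hj).symm) h5
    · simp only [CE] at hq
      rw [if_neg hg] at hq
      exact absurd hq (Set.notMem_empty _)
  have hCm : ∀ q, MeasurableSet (CE q) := by
    intro q
    by_cases hg : Good q
    · simp only [CE]
      rw [if_pos hg]
      exact measurableSet_cyl hX.meas _ _
    · simp only [CE]
      rw [if_neg hg]
      exact MeasurableSet.empty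
  have hCd : Pairwise (Function.onFun Disjoint CE) := by
    intro q q' hqq
    refine Set.disjoint_left.2 fun ω h1 h2 => hqq ?_
    by_cases hg : Good q
    · by_cases hg' : Good q'
      · simp only [CE] at h1 h2
        rw [if_pos hg] at h1
        rw [if_pos hg'] at h2
        have e1 : ∀ j ≤ q.1, X j ω = pd q j := h1
        have e2 : ∀ j ≤ q'.1, X j ω = pd q' j := h2
        obtain ⟨a1, _, _, _, a5, a6⟩ := hg
        obtain ⟨b1, _, _, _, b5, b6⟩ := hg'
        have hn : q.1 = q'.1 := by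
          rcases lt_trichotomy q.1 q'.1 with h | h | h
          · exact absurd (hT q.1 (pd q) (pd q') (fun j hj => by rw [← e1 j hj, e2 j (by omega)]) a5)
              (b6 q.1 a1 h)
          · exact h
          · exact absurd (hT q'.1 (pd q') (pd q) (fun j hj => by rw [← e2 j hj, e1 j (by omega)]) b5)
              (a6 q'.1 b1 h)
        obtain ⟨n, y⟩ := q
        obtain ⟨n', y'⟩ := q'
        obtain rfl : n = n' := hn
        congr 1
        funext j
        have hj := j.2
        have c1 : k6_pad n y j = y j := by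
          unfold k6_pad
          rw [dif_pos j.2]
        have c2 : k6_pad n y' j = y' j := by
          unfold k6_pad
          rw [dif_pos j.2]
        rw [← c1, ← c2]
        have d1 := e1 j (by change (j : ℕ) ≤ n; omega)
        have d2 := e2 j (by change (j : ℕ) ≤ n; omega)
        exact d1.symm.trans d2
      · simp only [CE] at h2
        rw [if_neg hg'] at h2
        exact absurd h2 (Set.notMem_empty _)
    · simp only [CE] at h1
      rw [if_neg hg] at h1
      exact absurd h1 (Set.notMem_empty _)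
  have hle : ∀ q, P (FE q) ≤ 4 * μ (CE q) := by
    intro q
    by_cases hg : Good q
    · simp only [FE, CE]
      rw [if_pos hg, if_pos hg]
      exact cyl_lower hX hg.2.1 hg.2.2.1 q.1 hg.1 hg.2.2.2.1
    · simp only [FE, CE]
      rw [if_neg hg, if_neg hg]
      simp
  calc P {ω | ∃ n, 1 ≤ n ∧ (∀ r < n, FreshStep (fun i => (orb ω (0, k) i).1) r) ∧
        T n (fun i => (orb ω (0, k) i).1)} ≤ P (⋃ q, FE q) := measure_mono hL
    _ ≤ ∑' q, P (FE q) := measure_iUnion_le _
    _ ≤ ∑' q, 4 * μ (CE q) := ENNReal.tsum_le_tsum hle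
    _ = 4 * ∑' q, μ (CE q) := ENNReal.tsum_mul_left
    _ = 4 * μ (⋃ q, CE q) := by rw [measure_iUnion hCd hCm]
    _ ≤ _ := mul_le_mul_right (measure_mono hR) 4

end Pool.Agent.GRP
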