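import Pool.Agent.GRP.F7
import Pool.Agent.GRP.F8
import Pool.Agent.GRP.F9

/-!
# [GRP-F10] theorem C (uses `p0_lower`, `p0_le_plane`, `grw_lower`)

PROOF. Let `r = n - 1 ≥ 2`, `H = r`.  `p0_lower` : `ofReal (log (log n) / 60) ≤ (2r+1) p0 r r`, and `2 r + 1 ≤ 2 n`, so
`p0 r r ≥ ofReal (log (log n) / (120 n))`.  `p0_le_plane` and `grw_lower` with `k = 1`, `T N x = (n ≤ |(x N).1| ∨ n ≤ |(x N).2|)` give
`p0 r r ≤ 4 * μ {...}`, and `4 * 120 = 480`.  `FreshStep x r` for all `r < N` means that the edges of the steps are pairwise different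
(`mem_freshDirs`).
-/

namespace Pool.Agent.GRP

open Pool.Agent.GRW MeasureTheory Filter Topology

theorem f10_edges {x : ℕ → ℤ × ℤ} {N : ℕ} (h : ∀ r < N, FreshStep x r) (i j : ℕ) (hij : i < j)
    (hj : j < N) : s(x i, x (i + 1)) ≠ s(x j, x (j + 1)) := by
  obtain ⟨d, hd, hx⟩ := h j hj
  rw [mem_freshDirs] at hd
  have := hd i hij
  rw [← hx] at this
  exact this.symm

theorem escape_main {Ω : Type*} [MeasurableSpace Ω] {μ : Measure Ω} {X : ℕ → Ω → ℤ × ℤ}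
    [IsProbabilityMeasure μ] (hX : IsGRW μ X) (n : ℕ) (hn : 3 ≤ n) :
    ENNReal.ofReal (Real.log (Real.log n) / (480 * n)) ≤
      μ {ω | ∃ N, ((n : ℤ) ≤ |(X N ω).1| ∨ (n : ℤ) ≤ |(X N ω).2|) ∧
        ∀ i j, i < j → j < N → s(X i ω, X (i + 1) ω) ≠ s(X j ω, X (j + 1) ω)} := by
  obtain ⟨r, rfl⟩ : ∃ r, n = r + 1 := ⟨n - 1, by omega⟩
  set E : Set Ω := {ω | ∃ N, (((r + 1 : ℕ) : ℤ) ≤ |(X N ω).1| ∨ ((r + 1 : ℕ) : ℤ) ≤ |(X N ω).2|) ∧
        ∀ i j, i < j → j < N → s(X i ω, X (i + 1) ω) ≠ s(X j ω, X (j + 1) ω)} with hE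
  have h1 := p0_lower (r := r) (H := r) (by omega) (by omega)
  have h2 := p0_le_plane r
  have h3 := grw_lower hX 1 (fun N x => ((r + 1 : ℕ) : ℤ) ≤ |(x N).1| ∨ ((r + 1 : ℕ) : ℤ) ≤ |(x N).2|)
    (by
      intro n x y hxy hT
      simpa only [hxy n le_rfl] using hT)
  have h4 : P {ω | ∃ N, 1 ≤ N ∧ Esc (r + 1) N (fun i => (orb ω (0, 1) i).1)} ≤ 4 * μ E := by
    refine h3.trans ?_
    refine mul_le_mul_right (measure_mono ?_) 4
    rintro ω ⟨N, _, _, hf, hT⟩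
    exact ⟨N, hT, f10_edges hf⟩
  have h5 : p0 r r ≤ 4 * μ E := h2.trans h4
  have h6 : ENNReal.ofReal (Real.log (Real.log ((r : ℝ) + 1)) / 60) ≤
      (2 * (r : ENNReal) + 1) * (4 * μ E) := h1.trans (mul_le_mul_right h5 _)
  have h7 : (2 * (r : ENNReal) + 1) * (4 * μ E) ≤ ENNReal.ofReal (8 * ((r : ℝ) + 1)) * μ E := by
    rw [← mul_assoc]
    refine mul_le_mul_left ?_ _
    have e1 : (2 * (r : ENNReal) + 1) * 4 = ENNReal.ofReal ((2 * (r : ℝ) + 1) * 4) := by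
      rw [ENNReal.ofReal_mul (by positivity), ENNReal.ofReal_add (by positivity) (by norm_num),
        ENNReal.ofReal_mul (by norm_num)]
      simp
    rw [e1]
    exact ENNReal.ofReal_le_ofReal (by linarith)
  have hpos : (0 : ℝ) < 8 * ((r : ℝ) + 1) := by positivity
  have h8 : ENNReal.ofReal (8 * ((r : ℝ) + 1)) *
      ENNReal.ofReal (Real.log (Real.log ((r + 1 : ℕ) : ℝ)) / (480 * ((r + 1 : ℕ) : ℝ))) ≤
      ENNReal.ofReal (8 * ((r : ℝ) + 1)) * μ E := by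
    rw [← ENNReal.ofReal_mul hpos.le]
    refine le_trans (le_of_eq ?_) (h6.trans h7)
    congr 1
    push_cast
    field_simp
    ring
  exact (ENNReal.mul_le_mul_iff_right (by simpa using hpos) ENNReal.ofReal_ne_top).1 h8

end Pool.Agent.GRP
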