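import Pool.Agent.GRP.FDefs
import Pool.Agent.GRP.A1
import Pool.Agent.GRP.C1

/-!
# [GRP-F3a] horizontal displacement on the cylinder (uses A1, C1)

PROOFS. `P_hit_per`: `Hit (per r ω) H x x' ↔ Hit (shift (x, 0) (per r ω)) H 0 (x' - x)` (`Hit_shift`), `P_per_shift`
(the set `{ω | ∃ x', Hit ω H 0 x'}` is measurable, `d3_measurableSet_ex`).
`P_disp`: as before one may take `x = 0` (`Ex_tr`, `P_per_shift`: `Ret ω H x x' ↔ Ret (shift (x,0) ω) H 0 (x' - x)`).  The set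
`{ω | ∃ x', Ret (per r ω) H 0 x' ∧ d < |x'|}` is contained in the event of `lat d`: let `n` be the witness of `Ex`; the column at time
`n + 1` is `x'`; let `i ≤ n + 1` be the first time with `|column| > d` (`i ≥ 2`, the site at time `1` is `(0,0)`); in fact `i ≤ n` because the last step
is vertical (from row `0` to row `-1`), so the column at time `n` is `x'` too.  At the times `1..i-1` the columns are in `[-d, d] ⊆ [-r, r]`, where
`per r ω = ω` (`per_eq`), so the orbits of `up 0` under `ω` and `per r ω` have the same sites up to time `i` (`orb_congr_le` with `N = i - 1`, and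
`orb_base_succ`); their rows are `≥ 0` up to time `i ≤ n`.
-/

namespace Pool.Agent.GRP

open Pool.Agent.GRW MeasureTheory Filter Topology

theorem P_hit_per (r H : ℕ) (x : ℤ) : P {ω | ∃ x', Hit (per r ω) H x x'} = tt r H := by
  have h1 := P_per_shift r x (d3_measurableSet_ex H 0)
  have e1 : {ω : Env | ∃ x', Hit (per r ω) H x x'} =
      {ω : Env | shift (x, 0) (per r ω) ∈ {ω : Env | ∃ x', Hit ω H 0 x'}} := by
    ext ω
    show (∃ x', Hit (per r ω) H x x') ↔ ∃ x', Hit (shift (x, 0) (per r ω)) H 0 x'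
    constructor
    · rintro ⟨x', hx'⟩
      refine ⟨x' - x, ?_⟩
      rw [Hit_shift, zero_add, sub_add_cancel]
      exact hx'
    · rintro ⟨x', hx'⟩
      rw [Hit_shift, zero_add] at hx'
      exact ⟨_, hx'⟩
  rw [e1, h1]
  rfl

theorem f3a_dv (d : Fin 4) : (dv d).1 = 0 ∨ (dv d).2 = 0 := by
  revert d; decide

theorem f3a_up (x : ℤ) : up x = tr (x, 0) (up 0) := by
  unfold up tr
  ext
  · simp
  · simp
  · rfl

theorem f3a_ret_shift (ω : Env) (H : ℕ) (x x' : ℤ) :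
    Ret ω H x x' ↔ Ret (shift (x, 0) ω) H 0 (x' - x) := by
  unfold Ret
  rw [f3a_up x, Ex_tr]
  have e1 : {s : ℤ × ℤ | s + (x, 0) ∈ rows 0 ((H : ℤ) - 1)} = rows 0 ((H : ℤ) - 1) := by
    ext s
    show (0 ≤ s.2 + 0 ∧ s.2 + 0 ≤ (H : ℤ) - 1) ↔ (0 ≤ s.2 ∧ s.2 ≤ (H : ℤ) - 1)
    rw [add_zero]
  have e2 : {s : ℤ × ℤ | s + (x, 0) ∈ ({(x', -1)} : Set (ℤ × ℤ))} = {(x' - x, -1)} := by
    ext s
    show s + (x, 0) = (x', -1) ↔ s = (x' - x, -1)
    constructor
    · intro h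
      have h1 : s.1 + x = x' := congrArg Prod.fst h
      have h2 : s.2 + 0 = -1 := congrArg Prod.snd h
      exact Prod.ext (by show s.1 = x' - x; omega) (by show s.2 = -1; omega)
    · intro h
      rw [h]
      exact Prod.ext (by show x' - x + x = x'; omega) rfl
  rw [e1, e2]

theorem f3a_meas (H d : ℕ) : MeasurableSet {ω : Env | ∃ x', Ret ω H 0 x' ∧ (d : ℤ) < |x'|} := by
  have h1 : {ω : Env | ∃ x', Ret ω H 0 x' ∧ (d : ℤ) < |x'|} =
      ⋃ x' : ℤ, ⋃ (_ : (d : ℤ) < |x'|), {ω : Env | Ret ω H 0 x'} := by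
    ext ω
    simp only [Set.mem_iUnion, Set.mem_ofPred_eq, exists_prop]
    exact exists_congr fun _ => and_comm
  rw [h1]
  exact MeasurableSet.iUnion fun x' => MeasurableSet.iUnion fun _ => measurableSet_Ex _ _ _

theorem f3a_incl {r H d : ℕ} (hd : d ≤ r) {ω : Env} {x' : ℤ} (h : Ret (per r ω) H 0 x')
    (hx : (d : ℤ) < |x'|) : ∃ n, 0 < n ∧ (∀ i, 0 < i → i ≤ n → 0 ≤ (orb ω (up 0) i).1.2) ∧
      (d : ℤ) < |(orb ω (up 0) n).1.1| := by
  classical
  obtain ⟨n, hn, hn'⟩ := h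
  rw [Set.mem_singleton_iff] at hn'
  have hd' : (d : ℤ) ≤ r := by exact_mod_cast hd
  have hsucc : ∀ m, (orb (per r ω) (up 0) (m + 1)).1 =
      (orb (per r ω) (up 0) m).1 + dv (orb (per r ω) (up 0) m).2 := fun m => orb_base_succ _ _ _
  have hn0 : 0 < n := by
    rcases Nat.eq_zero_or_pos n with h0 | h0
    · subst h0
      have h1 := congrArg Prod.fst (hsucc 0)
      rw [hn'] at h1
      have h2 : x' = 0 + 0 := h1
      rw [h2] at hx
      simp at hx
      omega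
    · exact h0
  have hrow : 0 ≤ (orb (per r ω) (up 0) n).1.2 := (hn n hn0 le_rfl).1
  have hcol : (orb (per r ω) (up 0) n).1.1 = x' := by
    have h1 := congrArg Prod.fst (hsucc n)
    have h2 := congrArg Prod.snd (hsucc n)
    rw [hn'] at h1 h2
    have h3 : x' = (orb (per r ω) (up 0) n).1.1 + (dv (orb (per r ω) (up 0) n).2).1 := h1
    have h4 : (-1 : ℤ) = (orb (per r ω) (up 0) n).1.2 + (dv (orb (per r ω) (up 0) n).2).2 := h2
    rcases f3a_dv (orb (per r ω) (up 0) n).2 with h5 | h5 <;> omega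
  have hex : ∃ m, 0 < m ∧ m ≤ n ∧ (d : ℤ) < |(orb (per r ω) (up 0) m).1.1| :=
    ⟨n, hn0, le_rfl, by rw [hcol]; exact hx⟩
  set i := Nat.find hex with hi
  obtain ⟨h1, h2, h3⟩ := Nat.find_spec hex
  rw [← hi] at h1 h2 h3
  have hmin : ∀ j, 0 < j → j < i → |(orb (per r ω) (up 0) j).1.1| ≤ (r : ℤ) := by
    intro j hj hji
    by_contra hcon
    exact Nat.find_min hex hji ⟨hj, by omega, lt_of_le_of_lt hd' (not_le.1 hcon)⟩
  obtain ⟨N, hN⟩ : ∃ N, i = N + 1 := ⟨i - 1, by omega⟩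
  rw [hN] at h1 h2 h3 hmin
  have hag : ∀ j, j ≤ N → orb ω (up 0) j = orb (per r ω) (up 0) j :=
    orb_congr_le N (fun j hj hjN => (per_eq (hmin j hj (by omega))).symm)
  have hsite : ∀ j, j ≤ N + 1 → (orb ω (up 0) j).1 = (orb (per r ω) (up 0) j).1 := by
    intro j hj
    rcases Nat.lt_or_ge N j with h4 | h4
    · have h5 : j = N + 1 := by omega
      rw [h5, orb_base_succ, orb_base_succ, hag N le_rfl]
    · rw [hag j h4]
  refine ⟨N + 1, h1, ?_, ?_⟩
  · intro j hj hjN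
    rw [hsite j hjN]
    exact (hn j hj (by omega)).1
  · rw [hsite (N + 1) le_rfl]
    exact h3

theorem P_disp {r H d : ℕ} (hd : d ≤ r) (x : ℤ) :
    P {ω | ∃ x', Ret (per r ω) H x x' ∧ (d : ℤ) < |x' - x|} ≤ lat d := by
  have h1 := P_per_shift r x (f3a_meas H d)
  have e1 : {ω : Env | ∃ x', Ret (per r ω) H x x' ∧ (d : ℤ) < |x' - x|} =
      {ω : Env | shift (x, 0) (per r ω) ∈ {ω : Env | ∃ x', Ret ω H 0 x' ∧ (d : ℤ) < |x'|}} := by
    ext ω
    show (∃ x', Ret (per r ω) H x x' ∧ (d : ℤ) < |x' - x|) ↔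
      ∃ x', Ret (shift (x, 0) (per r ω)) H 0 x' ∧ (d : ℤ) < |x'|
    constructor
    · rintro ⟨x', hx', hd'⟩
      exact ⟨x' - x, (f3a_ret_shift _ _ _ _).1 hx', hd'⟩
    · rintro ⟨x', hx', hd'⟩
      refine ⟨x' + x, (f3a_ret_shift _ _ _ _).2 ?_, ?_⟩
      · rwa [add_sub_cancel_right]
      · rwa [add_sub_cancel_right]
  rw [e1, h1]
  apply measure_mono
  rintro ω ⟨x', hx', hd'⟩
  exact f3a_incl hd hx' hd'

end Pool.Agent.GRP
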