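import Pool.Agent.GRP.FDefs
import Pool.Agent.GRP.A1
import Pool.Agent.GRP.C1
import Pool.Agent.GRP.F3a

/-!
# [GRP-F3b] three probabilities on the cylinder (uses A1, C1, F3a)

PROOFS. `P_lhit`: rotation by 180 degrees about `(0, -1/2)`: `s ↦ (0, -1) - s` exchanges `down v` and `up (-v)`, the rows `-H..-1` and `0..H-1`, the rows
`-H-1` and `H`; `Ex_rot` twice and `Ex_tr` with `(0, -1)`; for the periodised environment `per r (rotE (rotE (shift (0,-1) ω))) =
rotE (rotE (shift (0,-1) (per r ω)))` because `red r (-x) = -red r x`.  Then `Ex (per r ω) (rows 0 (H-1)) (up x) (rowS H) ↔ ∃ x', Hit (per r ω) H x x'`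
(`d1_enter`; conversely the dart at time `n` has direction `1` and row `H - 1`; for `H = 0` both are true) and `P_hit_per`.
`measurableSet_reach`: countable union over `N` of finite intersections (`measurableSet_orb_mem`), composed with `measurable_per`.
`P_reach_per`: `ReachAt (per r ω) H x N ↔ ReachAt (shift (x,0) (per r ω)) H 0 N` (`orb_tr`), `P_per_shift`; `tt_le_p0`: `Hit` gives `ReachAt` (time
`n`, the site at time `n + 1` is in row `H`).
-/

namespace Pool.Agent.GRP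

open Pool.Agent.GRW MeasureTheory Filter Topology

theorem f3b_red_neg (r : ℕ) (x : ℤ) : red r (-x) = -red r x := by
  obtain ⟨j, hj⟩ := red_dvd r x
  have h1 := red_add_period r (-red r x) (-j)
  have h2 : -red r x + -j * (2 * (r : ℤ) + 1) = -x := by linear_combination hj
  rw [h2] at h1
  rw [h1]
  apply red_eq_self
  rw [abs_neg]
  exact abs_le.2 (red_mem r x)

theorem f3b_per (r : ℕ) (ω : Env) : rotE (rotE (shift (0, -1) (per r ω))) =
    per r (rotE (rotE (shift (0, -1) ω))) := by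
  funext s
  have h1 : red r (-s.1) = -red r s.1 := f3b_red_neg r s.1
  simp only [rotE, shift, per, rho, sw_sw, Prod.mk_add_mk, add_zero, h1]

theorem f3b_hit (ω : Env) (H : ℕ) (x : ℤ) :
    Ex ω (rows 0 ((H : ℤ) - 1)) (up x) (rowS H) ↔ ∃ x', Hit ω H x x' := by
  constructor
  · rintro ⟨n, h1, h2⟩
    refine d1_enter (n := n) (fun i hi hin => ?_) h2
    have h3 := h1 i hi hin
    have h4 : 0 ≤ (orb ω (up x) i).1.2 ∧ (orb ω (up x) i).1.2 ≤ (H : ℤ) - 1 := h3
    exact ⟨h4.1, by have := h4.2; unfold up at this; omega⟩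
  · rintro ⟨x', n, h1, h2⟩
    refine ⟨n, fun i hi hin => ?_, ?_⟩
    · have h3 := h2 i hi hin
      exact ⟨h3.1, Int.le_sub_one_of_lt h3.2⟩
    · have h3 : (orb ω (up x) (n + 1)).1.2 = (H : ℤ) := by
        have h4 : orb ω (up x) n = ((x', (H : ℤ) - 1), 1) := h1
        rw [orb_base_succ, h4]
        simp [dv]
      exact h3

theorem P_lhit (r H : ℕ) (x : ℤ) : P {ω | LHit (per r ω) H x} = tt r H := by
  rw [← P_hit_per r H (-x)]
  have hz : down x = tr (0, -1) (rotD (rotD (up (-x)))) := by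
    unfold down tr rotD up rho
    ext <;> simp
  have hQ : {s : ℤ × ℤ | rho s ∈ {s : ℤ × ℤ | rho s ∈ {s : ℤ × ℤ | s + (0, -1) ∈ rows (-(H : ℤ)) (-1)}}} =
      rows 0 ((H : ℤ) - 1) := by
    ext s
    simp only [Set.mem_ofPred_eq, rows, rho, Prod.snd_add]
    omega
  have hW : {s : ℤ × ℤ | rho s ∈ {s : ℤ × ℤ | rho s ∈ {s : ℤ × ℤ | s + (0, -1) ∈ rowS (-(H : ℤ) - 1)}}} =
      rowS H := by
    ext s
    simp only [Set.mem_ofPred_eq, rowS, rho, Prod.snd_add]
    omega
  have h1 : {ω | LHit (per r ω) H x} =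
      shift (0, -1) ⁻¹' (rotE ⁻¹' (rotE ⁻¹' {ω | Ex (per r ω) (rows 0 ((H : ℤ) - 1)) (up (-x)) (rowS H)})) := by
    ext ω
    simp only [Set.mem_ofPred_eq, Set.mem_preimage]
    unfold LHit
    rw [hz, Ex_tr, Ex_rot, Ex_rot, hQ, hW, f3b_per]
  have hm : MeasurableSet {ω | Ex (per r ω) (rows 0 ((H : ℤ) - 1)) (up (-x)) (rowS H)} :=
    measurable_per r (measurableSet_Ex _ _ _)
  have hm1 := mp_rotE.measurable hm
  have hm2 := mp_rotE.measurable hm1
  rw [h1, (mp_shift (0, -1)).measure_preimage hm2.nullMeasurableSet,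
    mp_rotE.measure_preimage hm1.nullMeasurableSet, mp_rotE.measure_preimage hm.nullMeasurableSet]
  congr 1
  ext ω
  exact f3b_hit (per r ω) H (-x)

theorem f3b_meas (H : ℕ) (x : ℤ) : MeasurableSet {ω | ∃ N, ReachAt ω H x N} := by
  have h1 : {ω | ∃ N, ReachAt ω H x N} = ⋃ N : ℕ,
      ((⋂ i : ℕ, {ω | orb ω ((fun _ : Env => up x) ω) i ∈
        {d : Dart | 0 < i → i ≤ N → -(H : ℤ) ≤ d.1.2 ∧ d.1.2 < H}}) ∩
      {ω | orb ω ((fun _ : Env => up x) ω) (N + 1) ∈ {d : Dart | d.1.2 = H}}) := by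
    ext ω
    simp only [ReachAt, Set.mem_ofPred_eq, Set.mem_iUnion, Set.mem_inter_iff, Set.mem_iInter]
  rw [h1]
  exact MeasurableSet.iUnion fun N => (MeasurableSet.iInter fun i =>
    measurableSet_orb_mem measurable_const i _).inter (measurableSet_orb_mem measurable_const _ _)

theorem measurableSet_reach (r H : ℕ) (x : ℤ) : MeasurableSet {ω | ∃ N, ReachAt (per r ω) H x N} :=
  measurable_per r (f3b_meas H x)

theorem P_reach_per (r H : ℕ) (x : ℤ) : P {ω | ∃ N, ReachAt (per r ω) H x N} = p0 r H := by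
  unfold p0
  have h1 := P_per_shift r x (f3b_meas H 0)
  simp only [Set.mem_ofPred_eq] at h1
  rw [← h1]
  congr 1
  ext ω
  simp only [Set.mem_ofPred_eq]
  have h2 : up x = tr (x, 0) (up 0) := by
    unfold up tr
    ext <;> simp
  have h3 : ∀ i, (orb (per r ω) (up x) i).1.2 = (orb (shift (x, 0) (per r ω)) (up 0) i).1.2 := by
    intro i
    rw [h2, orb_tr]
    simp [tr]
  unfold ReachAt
  simp only [h3]

theorem tt_le_p0 (r H : ℕ) : tt r H ≤ p0 r H := by
  unfold tt p0
  refine measure_mono ?_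
  rintro ω ⟨x', n, h1, h2⟩
  refine ⟨n, fun i hi hin => ?_, ?_⟩
  · have h3 : 0 ≤ (orb (per r ω) (up 0) i).1.2 ∧ (orb (per r ω) (up 0) i).1.2 < H := h2 i hi hin
    omega
  · have h4 : orb (per r ω) (up 0) n = ((x', (H : ℤ) - 1), 1) := h1
    rw [orb_base_succ, h4]
    simp [dv]

end Pool.Agent.GRP
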