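import Pool.Agent.GRP.F3a

/-!
# [GRP-F4] the entropy bound (uses F3a)

PROOF. Induction on `M` (for all `d` and `a`).  `M = 0`: the set is empty.  `M + 1`: if `GChain g ω H m a` with `m < M + 1` then either `m = 0` and
`∃ x', Hit ω H a x'`, or `m = m' + 1` and there is `v` with `Ret ω H a v` and `GChain g ω H m' (g v)`, `m' < M`; here either `d 0 < |v - a|`, or `v` is
one of the `2 d 0 + 1` numbers in `Icc (a - d 0) (a + d 0)`.  So (with `ω := per r ω`) the set is contained in
`{∃ x', Hit a x'} ∪ {∃ v, Ret a v ∧ d 0 < |v - a|} ∪ ⋃ v ∈ Icc (a - d 0) (a + d 0), {∃ m < M, GChain g m (g v)}`; use `P_hit_per`, `P_disp` and the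
induction hypothesis for `fun i => d (i + 1)`.  No independence is used.
-/

namespace Pool.Agent.GRP

open Pool.Agent.GRW MeasureTheory Filter Topology

theorem ent_bound {r H : ℕ} (g : ℤ → ℤ) (M : ℕ) (d : ℕ → ℕ) (hd : ∀ i < M, d i ≤ r) (a : ℤ) :
    P {ω | ∃ m < M, GChain g (per r ω) H m a} ≤ ent r H M d := by
  induction M generalizing d a with
  | zero => simp
  | succ M ih =>
    have hsub : {ω | ∃ m < M + 1, GChain g (per r ω) H m a} ⊆
        ({ω | ∃ x', Hit (per r ω) H a x'} ∪ {ω | ∃ x', Ret (per r ω) H a x' ∧ (d 0 : ℤ) < |x' - a|}) ∪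
          ⋃ v ∈ Finset.Icc (a - d 0) (a + d 0), {ω | ∃ m < M, GChain g (per r ω) H m (g v)} := by
      rintro ω ⟨m, hm, hG⟩
      cases m with
      | zero => exact Or.inl (Or.inl hG)
      | succ m =>
        obtain ⟨v, hv, hG'⟩ := hG
        by_cases hlt : (d 0 : ℤ) < |v - a|
        · exact Or.inl (Or.inr ⟨v, hv, hlt⟩)
        · refine Or.inr ?_
          simp only [Set.mem_iUnion]
          refine ⟨v, ?_, m, by omega, hG'⟩
          rw [not_lt, abs_le] at hlt
          rw [Finset.mem_Icc]
          omega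
    have h1 := ih (fun i => d (i + 1)) (fun i hi => hd (i + 1) (by omega))
    calc P {ω | ∃ m < M + 1, GChain g (per r ω) H m a}
        ≤ (P {ω | ∃ x', Hit (per r ω) H a x'} +
            P {ω | ∃ x', Ret (per r ω) H a x' ∧ (d 0 : ℤ) < |x' - a|}) +
          ∑ v ∈ Finset.Icc (a - d 0) (a + d 0), P {ω | ∃ m < M, GChain g (per r ω) H m (g v)} := by
          refine (measure_mono hsub).trans ((measure_union_le _ _).trans ?_)
          exact add_le_add (measure_union_le _ _) (measure_biUnion_finset_le _ _)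
      _ ≤ (tt r H + lat (d 0)) +
          ∑ v ∈ Finset.Icc (a - d 0) (a + d 0), ent r H M (fun i => d (i + 1)) := by
          refine add_le_add (add_le_add (P_hit_per r H a).le (P_disp (hd 0 (by omega)) a)) ?_
          exact Finset.sum_le_sum fun v _ => h1 (g v)
      _ = ent r H (M + 1) d := by
          rw [Finset.sum_const, Int.card_Icc]
          have e : (a + (d 0 : ℤ) + 1 - (a - (d 0 : ℤ))).toNat = 2 * d 0 + 1 := by omega
          rw [e, nsmul_eq_mul]
          simp only [ent]
          push_cast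
          rfl

end Pool.Agent.GRP
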