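import Pool.Agent.GRP.FDefs
import Pool.Agent.GRP.C1
import Pool.Agent.GRW.D1

/-!
# [GRP-F5a] one excursion above and below the level (deterministic; uses C1)

PROOFS. `reachAt_unique`: if `N < N'` then the row at time `N + 1` is `H` but should be `< H`.  `reachAt_per`: `orb_per`.
`strand_step`: if no time `0 < i ≤ N` has row `-1` then by unit steps the rows are in `[0, H)` for `0 < i ≤ N` (the site at time `1` is `(x, 0)`) and
`d1_enter` gives `Hit`.  Otherwise let `i₁` be the first such time: `i₁ ≥ 2`, rows in `[0,H)` before, and the dart at time `i₁ - 1` is `((v, 0), 3) = down v`, the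
site at time `i₁` is `(v, -1)`: `Ret ω H x v` with `n = i₁ - 1`.  Let `i₂ > i₁` be the first time with row `≥ 0` (it exists and `i₂ ≤ N`: the row at time
`N + 1` is `H`, so the row at time `N` is `≥ H - 1 ≥ 0`; `H ≥ 1` because a time `0 < i ≤ N` exists).  By unit steps the dart at time `i₂ - 1`
is `((x₁, -1), 1) = up x₁` and the site at time `i₂` is `(x₁, 0)`; rows in `[-H, -1]` at the times `i₁, ..., i₂ - 1`: `LRet ω H v x₁` (trail from time
`i₁ - 1`, `orb_add`).  `ReachAt ω H x₁ N₁` with `N₁ = N - (i₂ - 1) < N`.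
-/

namespace Pool.Agent.GRP

open Pool.Agent.GRW

theorem reachAt_unique {ω : Env} {H : ℕ} {x : ℤ} {N N' : ℕ} (h1 : ReachAt ω H x N) (h2 : ReachAt ω H x N') :
    N = N' := by
  rcases lt_trichotomy N N' with h | h | h
  · have h3 := (h2.1 (N + 1) (by omega) (by omega)).2
    rw [h1.2] at h3
    exact absurd h3 (lt_irrefl _)
  · exact h
  · have h3 := (h1.1 (N' + 1) (by omega) (by omega)).2
    rw [h2.2] at h3
    exact absurd h3 (lt_irrefl _)

theorem reachAt_per {r : ℕ} {ω : Env} (h : IsPer r ω) {H : ℕ} {x : ℤ} {N : ℕ} (j : ℤ)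
    (h1 : ReachAt ω H x N) : ReachAt ω H (x + j * (2 * r + 1)) N := by
  have h2 : up (x + j * (2 * r + 1)) = tr (j * (2 * r + 1), 0) (up x) := by
    unfold up tr
    ext <;> simp
  have h3 : ∀ i, (orb ω (up (x + j * (2 * r + 1))) i).1.2 = (orb ω (up x) i).1.2 := by
    intro i
    rw [h2, orb_per h]
    simp [tr]
  unfold ReachAt
  simp only [h3]
  exact h1

theorem f5a_one (ω : Env) (x : ℤ) : (orb ω (up x) 1).1 = (x, 0) := by
  rw [orb_base_succ, orb_zero]
  unfold up
  ext <;> simp [dv]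

theorem f5a_nonneg {ω : Env} {x : ℤ} {n : ℕ} (h : ∀ i, 0 < i → i ≤ n → (orb ω (up x) i).1.2 ≠ -1) :
    ∀ i, 0 < i → i ≤ n → 0 ≤ (orb ω (up x) i).1.2 := by
  intro i
  induction i with
  | zero => intro h0; omega
  | succ i ih =>
    intro _ hn
    rcases Nat.eq_zero_or_pos i with h0 | h0
    · subst h0
      rw [f5a_one]
    · have h1 := ih h0 (by omega)
      have h2 := d1_row_succ ω (up x) i
      have h3 := (d1_dv (orb ω (up x) i).2).2.1
      have h4 := h (i + 1) (by omega) hn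
      omega

theorem f5a_south (d : Fin 4) (h : (dv d).2 = -1) : d = 3 := by
  revert d; decide

theorem f5a_col (d : Fin 4) (h : d = 1 ∨ d = 3) : (dv d).1 = 0 := by
  revert d; decide

theorem strand_step {ω : Env} {H : ℕ} {x : ℤ} {N : ℕ} (h1 : ReachAt ω H x N) :
    (∃ x', Hit ω H x x') ∨
      ∃ v x₁ N₁, N₁ < N ∧ Ret ω H x v ∧ LRet ω H v x₁ ∧ ReachAt ω H x₁ N₁ := by
  classical
  by_cases hA : ∀ i, 0 < i → i ≤ N → (orb ω (up x) i).1.2 ≠ -1
  · left
    have h2 := f5a_nonneg hA
    exact d1_enter (fun i hi hiN => ⟨h2 i hi hiN, (h1.1 i hi hiN).2⟩) h1.2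
  · right
    push Not at hA
    obtain ⟨i₀, hi₀, hi₀N, hi₀r⟩ := hA
    have hex : ∃ i, 0 < i ∧ (orb ω (up x) i).1.2 = -1 := ⟨i₀, hi₀, hi₀r⟩
    obtain ⟨i₁, hi₁, hi₁p⟩ : ∃ i₁, (0 < i₁ ∧ (orb ω (up x) i₁).1.2 = -1) ∧
        ∀ i, 0 < i → i < i₁ → (orb ω (up x) i).1.2 ≠ -1 :=
      ⟨Nat.find hex, Nat.find_spec hex, fun i hi hlt h => Nat.find_min hex hlt ⟨hi, h⟩⟩
    have hi₁N : i₁ ≤ N := by
      by_contra hcon
      exact hi₁p i₀ hi₀ (by omega) hi₀r
    have h2 : 2 ≤ i₁ := by
      by_contra hcon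
      have h3 : i₁ = 1 := by omega
      rw [h3, f5a_one] at hi₁
      have := hi₁.2
      simp at this
    have hpos : ∀ i, 0 < i → i ≤ i₁ - 1 → 0 ≤ (orb ω (up x) i).1.2 :=
      f5a_nonneg (fun i hi hin => hi₁p i hi (by omega))
    have hH : 1 ≤ H := by
      have h3 := (h1.1 1 (by omega) (by omega)).2
      rw [f5a_one] at h3
      simp only at h3
      omega
    -- the dart at time `i₁ - 1`
    have e1 : i₁ - 1 + 1 = i₁ := by omega
    have h3 := orb_base_succ ω (up x) (i₁ - 1)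
    rw [e1] at h3
    have h3r := congrArg Prod.snd h3
    have h3c := congrArg Prod.fst h3
    rw [Prod.snd_add, hi₁.2] at h3r
    rw [Prod.fst_add] at h3c
    have h4 := hpos (i₁ - 1) (by omega) le_rfl
    have h5 := (d1_dv (orb ω (up x) (i₁ - 1)).2).2.1
    have h6 := f5a_south (orb ω (up x) (i₁ - 1)).2 (by omega)
    have h6c := f5a_col _ (Or.inr h6)
    set v := (orb ω (up x) (i₁ - 1)).1.1 with hv
    have hd1 : orb ω (up x) (i₁ - 1) = down v := by
      unfold down
      exact Prod.ext (Prod.ext rfl (by simp only; omega)) h6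
    have hs1 : (orb ω (up x) i₁).1 = (v, -1) := Prod.ext (by simp only; omega) hi₁.2
    -- the first return to the rows `≥ 0`
    have hNr : 0 ≤ (orb ω (up x) N).1.2 := by
      have h7 := d1_row_succ ω (up x) N
      rw [h1.2] at h7
      have h8 := (d1_dv (orb ω (up x) N).2).1
      omega
    have hex2 : ∃ i, i₁ < i ∧ 0 ≤ (orb ω (up x) i).1.2 := by
      refine ⟨N, ?_, hNr⟩
      rcases Nat.lt_or_ge i₁ N with h7 | h7
      · exact h7
      · have h8 : i₁ = N := by omega
        have h9 := hi₁.2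
        rw [h8] at h9
        omega
    obtain ⟨i₂, hi₂, hi₂p⟩ : ∃ i₂, (i₁ < i₂ ∧ 0 ≤ (orb ω (up x) i₂).1.2) ∧
        ∀ i, i₁ < i → i < i₂ → (orb ω (up x) i).1.2 < 0 :=
      ⟨Nat.find hex2, Nat.find_spec hex2, fun i hi hlt => not_le.1 fun h => Nat.find_min hex2 hlt ⟨hi, h⟩⟩
    have hi₂N : i₂ ≤ N := by
      by_contra hcon
      obtain ⟨i, hi, hir⟩ := hex2
      have h7 : i₁ < N := by
        rcases Nat.lt_or_ge i₁ N with h7 | h7
        · exact h7
        · have h8 : i₁ = N := by omega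
          have h9 := hi₁.2
          rw [h8] at h9
          omega
      have h8 := hi₂p N h7 (by omega)
      omega
    have hneg : ∀ i, i₁ ≤ i → i < i₂ → (orb ω (up x) i).1.2 < 0 := by
      intro i hi hi2
      rcases Nat.lt_or_ge i₁ i with h7 | h7
      · exact hi₂p i h7 hi2
      · have h8 : i = i₁ := by omega
        rw [h8, hi₁.2]
        norm_num
    -- the dart at time `i₂ - 1`
    have e2 : i₂ - 1 + 1 = i₂ := by omega
    have g3 := orb_base_succ ω (up x) (i₂ - 1)
    rw [e2] at g3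
    have g3r := congrArg Prod.snd g3
    have g3c := congrArg Prod.fst g3
    rw [Prod.snd_add] at g3r
    rw [Prod.fst_add] at g3c
    have g4 := hneg (i₂ - 1) (by omega) (by omega)
    have g5 := d1_dv (orb ω (up x) (i₂ - 1)).2
    have g6 := g5.2.2 (by have := g5.1; have := hi₂.2; omega)
    have g6c := f5a_col _ (Or.inl g6)
    set x₁ := (orb ω (up x) (i₂ - 1)).1.1 with hx₁
    have g7 : (orb ω (up x) (i₂ - 1)).1.2 = -1 := by
      have := g5.1
      have := hi₂.2
      omega
    have hd2 : orb ω (up x) (i₂ - 1) = up x₁ := Prod.ext (Prod.ext rfl g7) g6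
    have hs2 : (orb ω (up x) i₂).1 = (x₁, 0) := by
      refine Prod.ext (by simp only; omega) ?_
      have := g5.1
      have := hi₂.2
      simp only
      omega
    refine ⟨v, x₁, N - (i₂ - 1), by omega, ?_, ?_, ?_⟩
    · refine ⟨i₁ - 1, fun i hi hin => ?_, ?_⟩
      · have h7 := hpos i hi hin
        have h8 := (h1.1 i hi (by omega)).2
        exact ⟨h7, by omega⟩
      · rw [e1]
        exact hs1
    · refine ⟨i₂ - i₁, fun i hi hin => ?_, ?_⟩
      · rw [← hd1, ← orb_add]
        have h7 := hneg (i₁ - 1 + i) (by omega) (by omega)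
        have h8 := (h1.1 (i₁ - 1 + i) (by omega) (by omega)).1
        exact ⟨h8, by omega⟩
      · rw [← hd1, ← orb_add]
        have e3 : i₁ - 1 + (i₂ - i₁ + 1) = i₂ := by omega
        rw [e3]
        exact hs2
    · refine ⟨fun i hi hin => ?_, ?_⟩
      · rw [← hd2, ← orb_add]
        exact h1.1 (i₂ - 1 + i) (by omega) (by omega)
      · rw [← hd2, ← orb_add]
        have e3 : i₂ - 1 + (N - (i₂ - 1) + 1) = N + 1 := by omega
        rw [e3]
        exact h1.2

end Pool.Agent.GRP
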