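import Pool.Agent.GRP.F5a

/-!
# [GRP-F5b] the number of excursions and the number of points in the level (uses C1, F5a)

PROOF. `chain_count`: strong induction on `N`.  The set `S N = {y ∈ Icc (-r) r | ∃ N' ≤ N, ReachAt ω H y N'}` contains `red r x` (`red_mem`, `red_dvd`,
`reachAt_per`).  Apply `strand_step`.  In the case `Hit`: `m = 0`.  Otherwise apply the induction hypothesis to `x₁, N₁`: `m₁ + 1 ≤ card (S N₁)`, `S N₁ ⊆ S N`, and
`red r x ∉ S N₁` because its only exit time is `N > N₁` (`reachAt_unique`): `m = m₁ + 1`.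
-/

namespace Pool.Agent.GRP

open Pool.Agent.GRW

theorem f5b_red {r : ℕ} {ω : Env} (h : IsPer r ω) {H : ℕ} {x : ℤ} {N : ℕ} (h1 : ReachAt ω H x N) :
    ReachAt ω H (red r x) N := by
  obtain ⟨j, hj⟩ := red_dvd r x
  have h2 := reachAt_per h (-j) h1
  have e : x + -j * (2 * (r : ℤ) + 1) = red r x := by
    nth_rewrite 1 [hj]
    ring
  rwa [e] at h2

open scoped Classical in
theorem chain_count {r : ℕ} {ω : Env} (h : IsPer r ω) {H : ℕ} (N : ℕ) (x : ℤ) (h1 : ReachAt ω H x N) :
    ∃ m, Chain ω H m x ∧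
      m + 1 ≤ ((Finset.Icc (-(r : ℤ)) r).filter fun y => ∃ N' ≤ N, ReachAt ω H y N').card := by
  induction N using Nat.strong_induction_on generalizing x with
  | _ N ih =>
    have hr := f5b_red h h1
    have hmem : red r x ∈ (Finset.Icc (-(r : ℤ)) r).filter fun y => ∃ N' ≤ N, ReachAt ω H y N' := by
      rw [Finset.mem_filter, Finset.mem_Icc]
      exact ⟨red_mem r x, N, le_rfl, hr⟩
    rcases strand_step h1 with h2 | ⟨v, x₁, N₁, hN, hv, hl, h3⟩
    · exact ⟨0, h2, Finset.card_pos.2 ⟨_, hmem⟩⟩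
    · obtain ⟨m, hm, hc⟩ := ih N₁ hN x₁ h3
      refine ⟨m + 1, ⟨v, x₁, hv, hl, hm⟩, ?_⟩
      have hnot : red r x ∉ (Finset.Icc (-(r : ℤ)) r).filter fun y => ∃ N' ≤ N₁, ReachAt ω H y N' := by
        rw [Finset.mem_filter]
        rintro ⟨_, N', hN', h4⟩
        have := reachAt_unique hr h4
        omega
      have hsub : insert (red r x) ((Finset.Icc (-(r : ℤ)) r).filter fun y => ∃ N' ≤ N₁, ReachAt ω H y N') ⊆
          (Finset.Icc (-(r : ℤ)) r).filter fun y => ∃ N' ≤ N, ReachAt ω H y N' := by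
        intro y hy
        rw [Finset.mem_insert] at hy
        rcases hy with rfl | hy
        · exact hmem
        · rw [Finset.mem_filter] at hy ⊢
          obtain ⟨hy1, N', hN', hy2⟩ := hy
          exact ⟨hy1, N', by omega, hy2⟩
      have := Finset.card_le_card hsub
      rw [Finset.card_insert_of_notMem hnot] at this
      omega

end Pool.Agent.GRP
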