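import Pool.Agent.GRP.F5a
import Pool.Agent.GRP.C2b

/-!
# [GRP-F5c] a strand which crosses the double slab (uses C1, C2b)

PROOF. `exists_hit` for the environment `shift (0, -H) ω` (also periodic) and `2 H` rows gives `y, y'`: let `z = ((y, -H-1), 1) = tr (0,-H) (up y)`; `orb ω z i` has
row in `[-H, H)` for `0 < i ≤ N` and `orb ω z N = ((y', H-1), 1)`.  Let `i₀` be the first time `> 0` with row `≥ 0` (`i₀ ≤ N + 1`): the dart at time `i₀ - 1` is
`((x₀, -1), 1) = up x₀` (for `H ≥ 1` the site at time `1` is in row `-H ≤ -1`), so `ReachAt ω H x₀ (N - (i₀ - 1))`.  `F ω (down x₀) = R ω (up x₀)`, so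
`orb ω (down x₀) (1 + j) = R ω (orb ω z (i₀ - 1 - j))` for `j ≤ i₀ - 1` (`orb_R`): rows in `[-H, -1]` for `j < i₀ - 1`, row `-H - 1` for `j = i₀ - 1`:
`LHit ω H x₀`.  Finally replace `x₀` by `red r x₀` (everything is periodic: `orb_per`, `reachAt_per`, `red_mem`, `red_dvd`).
-/

namespace Pool.Agent.GRP

open Pool.Agent.GRW

theorem f5c_per {r : ℕ} {ω : Env} (h : IsPer r ω) (a : ℤ) : IsPer r (shift (0, a) ω) := by
  intro s
  have h1 := h (s + (0, a))
  unfold shift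
  rw [← h1]
  congr 1
  refine Prod.ext ?_ rfl
  simp

theorem f5c_LHit {r : ℕ} {ω : Env} (h : IsPer r ω) {H : ℕ} {x : ℤ} (j : ℤ) (h1 : LHit ω H x) :
    LHit ω H (x + j * (2 * r + 1)) := by
  obtain ⟨n, hn, hn'⟩ := h1
  have key : ∀ i, orb ω (down (x + j * (2 * r + 1))) i =
      tr (j * (2 * r + 1), 0) (orb ω (down x) i) := by
    intro i
    rw [← orb_per h]
    congr 1
  refine ⟨n, ?_, ?_⟩
  · intro i hi hin
    have h2 := hn i hi hin
    rw [key]
    simpa [tr, rows] using h2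
  · rw [key]
    simpa [tr, rowS] using hn'

theorem strand_exists {r : ℕ} {ω : Env} (h : IsPer r ω) {H : ℕ} (hH : 0 < H) :
    ∃ x : ℤ, -(r : ℤ) ≤ x ∧ x ≤ r ∧ LHit ω H x ∧ ∃ N, ReachAt ω H x N := by
  obtain ⟨y, y', -, -, N, hN, hN'⟩ := exists_hit (f5c_per h (-(H : ℤ))) (2 * H)
  have horb : ∀ i, orb ω (tr (0, -(H : ℤ)) ((y, -1), 1)) i =
      tr (0, -(H : ℤ)) (orb (shift (0, -(H : ℤ)) ω) ((y, -1), 1) i) := fun i => orb_tr ω _ _ i
  have hrow : ∀ i, (orb ω (tr (0, -(H : ℤ)) ((y, -1), 1)) i).1.2 =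
      (orb (shift (0, -(H : ℤ)) ω) ((y, -1), 1) i).1.2 - H := by
    intro i
    rw [horb i]
    simp [tr, sub_eq_add_neg]
  have hrow2 : ∀ i, 0 < i → i ≤ N → -(H : ℤ) ≤ (orb ω (tr (0, -(H : ℤ)) ((y, -1), 1)) i).1.2 ∧
      (orb ω (tr (0, -(H : ℤ)) ((y, -1), 1)) i).1.2 < H := by
    intro i hi hiN
    have h1 := hN' i hi hiN
    rw [hrow i]
    push_cast at h1
    omega
  have hrow0 : (orb ω (tr (0, -(H : ℤ)) ((y, -1), 1)) 0).1.2 = -(H : ℤ) - 1 := by
    rw [orb_zero]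
    simp [tr]
    ring
  have hrow3 : (orb ω (tr (0, -(H : ℤ)) ((y, -1), 1)) (N + 1)).1.2 = H := by
    rw [hrow, d1_row_succ, hN]
    simp [dv]
    ring
  have hrow1 : (orb ω (tr (0, -(H : ℤ)) ((y, -1), 1)) 1).1.2 = -(H : ℤ) := by
    have h1 := d1_row_succ ω (tr (0, -(H : ℤ)) ((y, -1), 1)) 0
    rw [zero_add, hrow0] at h1
    rw [h1, orb_zero]
    simp [tr, dv]
  generalize tr (0, -(H : ℤ)) ((y, -1), 1) = z at *
  clear horb hrow hN hN'
  have hex : ∃ i, 0 < i ∧ 0 ≤ (orb ω z i).1.2 := ⟨N + 1, Nat.succ_pos _, by rw [hrow3]; omega⟩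
  classical
  obtain ⟨m, hm, hm1, hm2, hmN⟩ : ∃ m, 0 < m ∧ (∀ i, 0 < i → i ≤ m → (orb ω z i).1.2 < 0) ∧
      0 ≤ (orb ω z (m + 1)).1.2 ∧ m ≤ N := by
    have h1 := Nat.find_spec hex
    have h2 : Nat.find hex ≤ N + 1 := Nat.find_min' hex ⟨Nat.succ_pos _, by rw [hrow3]; omega⟩
    have h3 : Nat.find hex ≠ 1 := by
      intro h4
      rw [h4, hrow1] at h1
      omega
    refine ⟨Nat.find hex - 1, by omega, ?_, ?_, by omega⟩
    · intro i hi hi2
      have h4 := Nat.find_min hex (m := i) (by omega)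
      by_contra h5
      exact h4 ⟨hi, by omega⟩
    · rw [Nat.sub_add_cancel (by omega)]
      exact h1.2
  obtain ⟨x₀, hx₀⟩ : ∃ x₀, orb ω z m = up x₀ := by
    have h1 := d1_row_succ ω z m
    have h2 := d1_dv (orb ω z m).2
    have h3 := hm1 m hm le_rfl
    refine ⟨(orb ω z m).1.1, ?_⟩
    unfold up
    refine Prod.ext (Prod.ext rfl ?_) (h2.2.2 (by omega))
    change (orb ω z m).1.2 = -1
    omega
  have hreach : ReachAt ω H x₀ (N - m) := by
    constructor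
    · intro i hi hi2
      rw [← hx₀, ← orb_add]
      exact hrow2 (m + i) (by omega) (by omega)
    · rw [← hx₀, ← orb_add]
      rw [show m + (N - m + 1) = N + 1 by omega]
      exact hrow3
  have hdown : F ω (down x₀) = R ω (up x₀) := by
    simp [F, R, down, up, dv]
  have hsite : ∀ j, j ≤ m → (orb ω (down x₀) (j + 1)).1 = (orb ω z (m - j)).1 := by
    intro j hj
    rw [orb_succ', hdown, ← hx₀, orb_R ω z hj]
    rfl
  have hL : LHit ω H x₀ := by
    refine ⟨m, ?_, ?_⟩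
    · intro i hi hi2
      have h1 := hsite (i - 1) (by omega)
      rw [Nat.sub_add_cancel hi] at h1
      rw [h1]
      have h2 := hm1 (m - (i - 1)) (by omega) (by omega)
      have h3 := hrow2 (m - (i - 1)) (by omega) (by omega)
      exact ⟨h3.1, by omega⟩
    · rw [hsite m le_rfl, Nat.sub_self]
      exact hrow0
  obtain ⟨j, hj⟩ := red_dvd r x₀
  have hj2 : red r x₀ = x₀ + (-j) * (2 * r + 1) := by linear_combination -hj
  refine ⟨red r x₀, (red_mem r x₀).1, (red_mem r x₀).2, ?_, N - m, ?_⟩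
  · rw [hj2]
    exact f5c_LHit h (-j) hL
  · rw [hj2]
    exact reachAt_per h (-j) hreach

end Pool.Agent.GRP
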