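import Pool.Agent.GRP.Defs
import Pool.Agent.GRW.C1

/-!
# [GRP-F6a] conditioning on a finite set of sites (uses only the library GRW)

PROOF. For a pattern `c : {s // s ∈ D} → Fin 3` let `cyl c = {ω | ∀ s ∈ D, ω s = c1ext D c s}`.  As in `c1_decomp`
`A ⊆ L = ⋃ c (c1ext D c ∈ L), cyl c` (disjoint finite union); for such `c` with `J` from `h`: `P (A ∩ cyl c) ≤ P (J ∩ cyl c) = P J * 3^(-|D|) ≤ κ * P (cyl c)`
(`P_inter_cyl`, `P (cyl c) = 3^(-|D|)`).  Sum over `c`: `P A ≤ κ * P L`.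
-/

namespace Pool.Agent.GRP

open Pool.Agent.GRW MeasureTheory Filter Topology

theorem cond_bound (D : Finset (ℤ × ℤ)) {A L : Set Env} (hAL : A ⊆ L)
    (hL : ∀ ω ω' : Env, (∀ s ∈ D, ω s = ω' s) → (ω ∈ L ↔ ω' ∈ L)) {κ : ENNReal}
    (h : ∀ c ∈ L, ∃ J : Set Env, MeasurableSet J ∧
      (∀ ω ω' : Env, (∀ s, s ∉ D → ω s = ω' s) → (ω ∈ J ↔ ω' ∈ J)) ∧ P J ≤ κ ∧
      A ∩ {ω | ∀ s ∈ D, ω s = c s} ⊆ J) :
    P A ≤ P L * κ := by
  classical
  have hPL : P L = ((Finset.univ.filter fun c : {s // s ∈ D} → Fin 3 =>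
      c1ext D c ∈ L).card : ENNReal) * (3 : ENNReal)⁻¹ ^ D.card := by
    have h1 : L = Set.univ ∩ L := (Set.univ_inter L).symm
    conv_lhs => rw [h1]
    rw [c1_decomp D Set.univ hL, measure_biUnion_finset]
    · rw [Finset.sum_congr rfl fun c _ => P_inter_cyl D MeasurableSet.univ
        (fun _ _ _ => Iff.rfl) (c1ext D c), Finset.sum_const, nsmul_eq_mul, measure_univ, one_mul]
    · intro c _ c' _ hcc
      refine Set.disjoint_left.2 fun ω h2 h3 => hcc ?_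
      funext s
      have h4 := h2.2 s s.2
      have h5 := h3.2 s s.2
      rw [c1_ext D c s.2] at h4
      rw [c1_ext D c' s.2] at h5
      exact h4.symm.trans h5
    · exact fun c _ => MeasurableSet.univ.inter (c1_meas_cyl D _)
  have hA : A ∩ L = A := Set.inter_eq_left.2 hAL
  calc P A = P (A ∩ L) := by rw [hA]
    _ = P (⋃ c ∈ (Finset.univ.filter fun c : {s // s ∈ D} → Fin 3 => c1ext D c ∈ L),
      (A ∩ {ω | ∀ s ∈ D, ω s = c1ext D c s})) := by rw [c1_decomp D A hL]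
    _ ≤ ∑ c ∈ (Finset.univ.filter fun c : {s // s ∈ D} → Fin 3 => c1ext D c ∈ L),
      P (A ∩ {ω | ∀ s ∈ D, ω s = c1ext D c s}) := measure_biUnion_finset_le _ _
    _ ≤ ∑ c ∈ (Finset.univ.filter fun c : {s // s ∈ D} → Fin 3 => c1ext D c ∈ L),
      κ * (3 : ENNReal)⁻¹ ^ D.card := by
        refine Finset.sum_le_sum fun c hc => ?_
        obtain ⟨J, hJ1, hJ2, hJ3, hJ4⟩ := h (c1ext D c) (Finset.mem_filter.1 hc).2
        calc P (A ∩ {ω | ∀ s ∈ D, ω s = c1ext D c s})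
            ≤ P (J ∩ {ω | ∀ s ∈ D, ω s = c1ext D c s}) :=
              measure_mono fun ω hω => ⟨hJ4 hω, hω.2⟩
          _ = P J * (3 : ENNReal)⁻¹ ^ D.card := P_inter_cyl D hJ1 hJ2 (c1ext D c)
          _ ≤ κ * (3 : ENNReal)⁻¹ ^ D.card := mul_le_mul_left hJ3 _
    _ = P L * κ := by
        rw [Finset.sum_const, nsmul_eq_mul, hPL]
        ring

end Pool.Agent.GRP
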