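import Pool.Agent.GRP.F3b
import Pool.Agent.GRP.F4
import Pool.Agent.GRP.F6a

/-!
# [GRP-F6b] a crossing strand with few excursions (uses A1, C1, F3b, F4, F6a)

PROOF. `cond_bound` with `A` the event on the left, `D = rect (-r) r (-H) (-1)`, `L = {ω | LHit (per r ω) H x}` (it depends on `D` only: `Ex_congr`, the rows `-H..-1` of
`per r ω` are determined by `ω` on `D`, `red_mem`), `κ = ent r H M d`, `P L = tt r H` (`P_lhit`).  For `c ∈ L` let `g v` be the number `x₁` with
`LRet (per r c) H v x₁` if there is one (it is unique: the site at the exit time; the exit time is unique) and `0` otherwise, and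
`J = {ω | ∃ m < M, GChain g (per r ω) H m x}`, which depends on the rows `≥ 0` only and is measurable (countable unions; `Ret`: `measurableSet_Ex`,
`Hit`: `measurableSet_Hit`, composed with `measurable_per`), `P J ≤ ent r H M d` (`ent_bound`).  For `ω = c` on `D`: `LRet (per r ω) H v x₁ ↔
LRet (per r c) H v x₁` (`Ex_congr`), so `Chain (per r ω) H m x → GChain g (per r ω) H m x` by induction on `m`.
-/

namespace Pool.Agent.GRP

open Pool.Agent.GRW MeasureTheory Filter Topology

theorem f6b_low {r H : ℕ} {ω ω' : Env}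
    (h : ∀ s ∈ rect (-(r : ℤ)) r (-(H : ℤ)) (-1), ω s = ω' s) (s : ℤ × ℤ)
    (hs : s ∈ rows (-(H : ℤ)) (-1)) : per r ω s = per r ω' s := by
  refine h (red r s.1, s.2) (mem_rect.2 ⟨red_mem r s.1, hs⟩)

theorem f6b_up {r H : ℕ} {ω ω' : Env}
    (h : ∀ s, s ∉ rect (-(r : ℤ)) r (-(H : ℤ)) (-1) → ω s = ω' s) (s : ℤ × ℤ)
    (hs : 0 ≤ s.2) : per r ω s = per r ω' s := by
  refine h (red r s.1, s.2) fun hm => ?_
  have := (mem_rect.1 hm).2.2
  simp only at this
  omega

theorem f6b_lret_unique {ω : Env} {H : ℕ} {v x x' : ℤ} (h1 : LRet ω H v x) (h2 : LRet ω H v x') :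
    x = x' := by
  obtain ⟨n, a, b⟩ := h1
  obtain ⟨n', a', b'⟩ := h2
  have b1 : (orb ω (down v) (n + 1)).1 = (x, 0) := b
  have b2 : (orb ω (down v) (n' + 1)).1 = (x', 0) := b'
  rcases lt_trichotomy n n' with h | h | h
  · have := (a' (n + 1) (by omega) (by omega)).2
    rw [b1] at this
    simp at this
  · subst h
    rw [b1] at b2
    exact (Prod.ext_iff.1 b2).1
  · have := (a (n' + 1) (by omega) (by omega)).2
    rw [b2] at this
    simp at this

theorem f6b_gchain_congr {g : ℤ → ℤ} {H : ℕ} {ω ω' : Env} (h : ∀ s : ℤ × ℤ, 0 ≤ s.2 → ω s = ω' s)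
    (m : ℕ) (x : ℤ) : GChain g ω H m x ↔ GChain g ω' H m x := by
  induction m generalizing x with
  | zero =>
    simp only [GChain]
    exact exists_congr fun x' => Hit_congr (fun s hs _ => h s hs) x x'
  | succ m ih =>
    simp only [GChain]
    refine exists_congr fun v => and_congr ?_ (ih (g v))
    exact Ex_congr fun s hs => h s hs.1

theorem f6b_gchain_meas (g : ℤ → ℤ) (r H m : ℕ) (x : ℤ) :
    MeasurableSet {ω | GChain g (per r ω) H m x} := by
  induction m generalizing x with
  | zero =>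
    simp only [GChain]
    exact measurable_per r (d3_measurableSet_ex H x)
  | succ m ih =>
    have e : {ω | GChain g (per r ω) H (m + 1) x} =
        ⋃ v : ℤ, ((per r) ⁻¹' {ω | Ex ω (rows 0 ((H : ℤ) - 1)) (up x) {(v, -1)}} ∩
          {ω | GChain g (per r ω) H m (g v)}) := by
      ext ω
      simp only [GChain, Set.mem_iUnion]
      rfl
    rw [e]
    exact MeasurableSet.iUnion fun v => (measurable_per r (measurableSet_Ex _ _ _)).inter (ih (g v))

theorem bad_bound {r H M : ℕ} (d : ℕ → ℕ) (hd : ∀ i < M, d i ≤ r) (x : ℤ) :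
    P {ω | LHit (per r ω) H x ∧ ∃ m < M, Chain (per r ω) H m x} ≤ tt r H * ent r H M d := by
  classical
  rw [← P_lhit r H x]
  refine cond_bound (rect (-(r : ℤ)) r (-(H : ℤ)) (-1)) (L := {ω | LHit (per r ω) H x})
    (fun ω hω => hω.1) (fun ω ω' h => Ex_congr (f6b_low h)) ?_
  intro c _
  let g : ℤ → ℤ := fun v => if h : ∃ x₁, LRet (per r c) H v x₁ then h.choose else 0
  have hg : ∀ v x₁, LRet (per r c) H v x₁ → g v = x₁ := by
    intro v x₁ h1
    have hex : ∃ x₁, LRet (per r c) H v x₁ := ⟨x₁, h1⟩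
    simp only [g]
    rw [dif_pos hex]
    exact f6b_lret_unique hex.choose_spec h1
  refine ⟨{ω | ∃ m < M, GChain g (per r ω) H m x}, ?_, ?_, ent_bound g M d hd x, ?_⟩
  · have e : {ω : Env | ∃ m < M, GChain g (per r ω) H m x} =
        ⋃ m : ℕ, ⋃ (_ : m < M), {ω | GChain g (per r ω) H m x} := by
      ext ω
      simp
    rw [e]
    exact MeasurableSet.iUnion fun m => MeasurableSet.iUnion fun _ => f6b_gchain_meas g r H m x
  · intro ω ω' h
    refine exists_congr fun m => and_congr Iff.rfl ?_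
    exact f6b_gchain_congr (f6b_up h) m x
  · rintro ω ⟨⟨_, m, hm, hch⟩, hc⟩
    have key : ∀ (m : ℕ) (x : ℤ), Chain (per r ω) H m x → GChain g (per r ω) H m x := by
      intro m
      induction m with
      | zero => exact fun x hch => hch
      | succ m ih =>
        rintro x ⟨v, x₁, h1, h2, h3⟩
        have h4 : LRet (per r c) H v x₁ := (Ex_congr (f6b_low hc)).1 h2
        refine ⟨v, h1, ?_⟩
        rw [hg v x₁ h4]
        exact ih x₁ h3
    exact ⟨m, hm, key m x hch⟩

end Pool.Agent.GRP
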