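import Pool.Agent.GRP.F6b
import Pool.Agent.GRP.F5b
import Pool.Agent.GRP.F5c

/-!
# [GRP-F6c] counting (uses C1, F3b, F5b, F5c, F6b)

PROOF. Let `N ω = card {y ∈ Icc (-r) r | ∃ N', ReachAt (per r ω) H y N'}`; `∫ N = (2r+1) p0` (`P_reach_per`, `Int.card_Icc`).  Let
`Bad = ⋃ x ∈ Icc (-r) r, {LHit (per r ω) H x ∧ ∃ m < M, Chain (per r ω) H m x}`, `P Bad ≤ (2r+1) * (tt r H * ent r H M d)` (`bad_bound`).  If `ω ∉ Bad` then
`N ω ≥ M + 1`: `strand_exists` (`isPer_per`) gives `x ∈ Icc (-r) r` with `LHit` and `ReachAt`, `chain_count` gives `m` with `Chain` and `m + 1 ≤ N ω`; `m < M` is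
impossible.  So `M + 1 ≤ N ω + (M + 1) * 1_Bad ω` for all `ω`; integrate.  (`Bad` need not be measurable: replace it by a measurable set of the same
measure, `toMeasurable P Bad`; `lintegral_indicator_one`; compare the proof of `P_two` in GRW/D4.)
-/

namespace Pool.Agent.GRP

open Pool.Agent.GRW MeasureTheory Filter Topology

theorem main_ineq {r H M : ℕ} (hH : 0 < H) (d : ℕ → ℕ) (hd : ∀ i < M, d i ≤ r) :
    (M : ENNReal) + 1 ≤ (2 * (r : ENNReal) + 1) * p0 r H +
      ((M : ENNReal) + 1) * ((2 * (r : ENNReal) + 1) * (tt r H * ent r H M d)) := by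
  classical
  obtain ⟨Bad, hBad⟩ : ∃ Bad : Set Env, Bad = ⋃ x ∈ Finset.Icc (-(r : ℤ)) r,
      {ω | LHit (per r ω) H x ∧ ∃ m < M, Chain (per r ω) H m x} := ⟨_, rfl⟩
  have hcard : ((Finset.Icc (-(r : ℤ)) r).card : ENNReal) = 2 * (r : ENNReal) + 1 := by
    have h1 : (Finset.Icc (-(r : ℤ)) r).card = 2 * r + 1 := by
      rw [Int.card_Icc]
      omega
    rw [h1]
    push_cast
    rfl
  have hPB : P Bad ≤ (2 * (r : ENNReal) + 1) * (tt r H * ent r H M d) := by
    rw [hBad]
    calc P (⋃ x ∈ Finset.Icc (-(r : ℤ)) r,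
          {ω | LHit (per r ω) H x ∧ ∃ m < M, Chain (per r ω) H m x})
        ≤ ∑ x ∈ Finset.Icc (-(r : ℤ)) r,
          P {ω | LHit (per r ω) H x ∧ ∃ m < M, Chain (per r ω) H m x} :=
          measure_biUnion_finset_le _ _
      _ ≤ ∑ x ∈ Finset.Icc (-(r : ℤ)) r, tt r H * ent r H M d :=
          Finset.sum_le_sum fun x _ => bad_bound d hd x
      _ = _ := by rw [Finset.sum_const, nsmul_eq_mul, hcard]
  have hN : ∫⁻ ω, ∑ y ∈ Finset.Icc (-(r : ℤ)) r,
      Set.indicator {ω | ∃ N, ReachAt (per r ω) H y N} (fun _ => (1 : ENNReal)) ω ∂P =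
      (2 * (r : ENNReal) + 1) * p0 r H := by
    rw [lintegral_finsetSum]
    · have h1 : ∀ y ∈ Finset.Icc (-(r : ℤ)) r, ∫⁻ ω,
          Set.indicator {ω | ∃ N, ReachAt (per r ω) H y N} (fun _ => (1 : ENNReal)) ω ∂P =
          p0 r H := by
        intro y _
        rw [lintegral_indicator (measurableSet_reach r H y)]
        simp only [lintegral_const, one_mul, Measure.restrict_apply_univ]
        exact P_reach_per r H y
      rw [Finset.sum_congr rfl h1, Finset.sum_const, nsmul_eq_mul, hcard]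
    · intro y _
      exact measurable_const.indicator (measurableSet_reach r H y)
  have hpt : ∀ ω : Env, (M : ENNReal) + 1 ≤ (∑ y ∈ Finset.Icc (-(r : ℤ)) r,
      Set.indicator {ω | ∃ N, ReachAt (per r ω) H y N} (fun _ => (1 : ENNReal)) ω) +
      ((M : ENNReal) + 1) *
        Set.indicator (toMeasurable P Bad) (fun _ => (1 : ENNReal)) ω := by
    intro ω
    by_cases hω : ω ∈ Bad
    · rw [Set.indicator_of_mem (subset_toMeasurable P Bad hω), mul_one]
      exact le_add_self
    · refine le_trans ?_ le_self_add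
      obtain ⟨x, hx1, hx2, hx3, N, hx4⟩ := strand_exists (isPer_per r ω) hH
      obtain ⟨m, hm1, hm2⟩ := chain_count (isPer_per r ω) N x hx4
      have hMm : M ≤ m := by
        by_contra hlt
        apply hω
        rw [hBad]
        simp only [Set.mem_iUnion, Set.mem_ofPred_eq, exists_prop]
        exact ⟨x, Finset.mem_Icc.2 ⟨hx1, hx2⟩, hx3, m, not_le.1 hlt, hm1⟩
      have hsum : ∑ y ∈ Finset.Icc (-(r : ℤ)) r,
          Set.indicator {ω | ∃ N, ReachAt (per r ω) H y N} (fun _ => (1 : ENNReal)) ω =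
          (((Finset.Icc (-(r : ℤ)) r).filter
            fun y => ∃ N, ReachAt (per r ω) H y N).card : ENNReal) := by
        rw [Finset.card_filter]
        push_cast
        refine Finset.sum_congr rfl fun y _ => ?_
        by_cases hy : ∃ N, ReachAt (per r ω) H y N
        · rw [Set.indicator_of_mem (show ω ∈ {ω | ∃ N, ReachAt (per r ω) H y N} from hy),
            if_pos hy]
        · rw [Set.indicator_of_notMem (show ω ∉ {ω | ∃ N, ReachAt (per r ω) H y N} from hy),
            if_neg hy]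
      rw [hsum]
      have h2 : M + 1 ≤ ((Finset.Icc (-(r : ℤ)) r).filter
          fun y => ∃ N, ReachAt (per r ω) H y N).card := by
        refine le_trans (by omega) (hm2.trans (Finset.card_le_card ?_))
        intro y hy
        obtain ⟨hy1, N', -, hy2⟩ := Finset.mem_filter.1 hy
        exact Finset.mem_filter.2 ⟨hy1, N', hy2⟩
      exact_mod_cast h2
  calc (M : ENNReal) + 1 = ∫⁻ _ω : Env, ((M : ENNReal) + 1) ∂P := by
        rw [lintegral_const, measure_univ, mul_one]
    _ ≤ ∫⁻ ω, ((∑ y ∈ Finset.Icc (-(r : ℤ)) r,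
        Set.indicator {ω | ∃ N, ReachAt (per r ω) H y N} (fun _ => (1 : ENNReal)) ω) +
        ((M : ENNReal) + 1) *
          Set.indicator (toMeasurable P Bad) (fun _ => (1 : ENNReal)) ω) ∂P :=
        lintegral_mono hpt
    _ = (2 * (r : ENNReal) + 1) * p0 r H + ((M : ENNReal) + 1) * P Bad := by
        have hm : Measurable (Set.indicator (toMeasurable P Bad) (fun _ : Env => (1 : ENNReal))) :=
          measurable_const.indicator (measurableSet_toMeasurable P Bad)
        rw [lintegral_add_right _ (hm.const_mul _), lintegral_const_mul _ hm, hN,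
          lintegral_indicator (measurableSet_toMeasurable P Bad)]
        simp only [lintegral_const, one_mul, Measure.restrict_apply_univ, measure_toMeasurable]
    _ ≤ _ := by
        gcongr

end Pool.Agent.GRP
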