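import Pool.Agent.GRP.F6c
import Pool.Agent.GRP.F2

/-!
# [GRP-F7] parameters (analysis; uses the statements `main_ineq`, `lat_poly`, `tt_le_p0` only)

PROOFS. `ent_geo`: induction on `M` for all `Y ≥ 6`.  `M = 0`: `ent = 0`.  `M + 1`: the shifted sequence is `fun i => (Y^254)^(254^i)`, so
`ent (M+1) = t + lat Y + (2Y+1) * ent M (Y^254 ..) ≤ t + C Y^(-1/126) + 3 Y (2 C Y^(-254/126) + t * Y^(254 (254^M - 1)))` with `C = 36000`
(`lat_poly`); `3 Y * 2 * Y^(-254/126) ≤ Y^(-1/126)` because `6 ≤ Y^(127/126)`; and `1 + 3 Y Y^(254^(M+1) - 254) ≤ Y^(254^(M+1) - 1)` because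
`Y^(252) ≥ 4`.  In the statement the exponent is `254^M - 1` (natural subtraction; for `M = 0` it is `0`).
`p0_M`: let `K = (2r+1) * tt r H`.  If `M ≤ K` use `tt_le_p0`.  Otherwise `K < M`; apply `main_ineq` with `d i = Y^(254^i)`; `d i ≤ r` for `i < M` because
`4 * M^2 * Y^(254^M) ≤ 2r+1`.  `K * ent ≤ M * 72000 * Y^(-1/126) + K * tt * Y^(254^M) ≤ 1/4 + M^2/(2r+1) * Y^(254^M) ≤ 1/2`
(`288000 M ≤ Y^(1/126)`).  So `M + 1 ≤ (2r+1) p0 + (M+1)/2`.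
`p0_lower`: if `log (log (r+1)) < 60`... more precisely let `L = log (log (r + 1))`, `M = ⌊L / 15⌋₊`.  If `M = 0` then `L < 15` and `main_ineq` with `M = 0`
gives `1 ≤ (2r+1) p0`, while `L / 60 ≤ 1`.  If `M ≥ 1` let `Y = (288000 M)^126`: then `Y^(1/126) = 288000 M` and
`4 M^2 Y^(254^M) = 4 M^2 (288000 M)^(126 * 254^M) ≤ exp (exp (15 M)) ≤ r + 1 ≤ 2r+1`: indeed `log (288000 M) ≤ 14 M ≤ exp (3M)`, `126 ≤ exp (5M)`,
`254^M ≤ exp (6M)`, `log (4M^2) ≤ exp (2M)`, and `exp (14 M) + exp (2 M) ≤ exp (15 M)`.  `p0_M` gives `(2r+1) p0 ≥ M / 2 ≥ L / 60`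
(`M ≥ L/30` because `M + 1 > L/15` and `M ≥ 1`).
-/

namespace Pool.Agent.GRP

open Pool.Agent.GRW MeasureTheory Filter Topology

theorem f7_real {Y : ℝ} (hY : 6 ≤ Y) :
    36000 * Y ^ (-(1 / 126 : ℝ)) + 3 * Y * (72000 * (Y ^ (254 : ℕ)) ^ (-(1 / 126 : ℝ))) ≤
      72000 * Y ^ (-(1 / 126 : ℝ)) := by
  have hpos : (0 : ℝ) < Y := by linarith
  have e1 : (Y ^ (254 : ℕ)) ^ (-(1 / 126 : ℝ)) = Y ^ (-(254 / 126) : ℝ) := by
    rw [← Real.rpow_natCast, ← Real.rpow_mul hpos.le]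
    norm_num
  have e2 : Y * Y ^ (-(254 / 126) : ℝ) = Y ^ (-(1 / 126 : ℝ)) * Y ^ (-(127 / 126) : ℝ) := by
    rw [← Real.rpow_add hpos, ← Real.rpow_one_add' hpos.le (by norm_num)]
    norm_num
  have e3 : Y ^ (-(127 / 126) : ℝ) ≤ 1 / 6 := by
    rw [Real.rpow_neg hpos.le, ← one_div]
    refine one_div_le_one_div_of_le (by norm_num) (hY.trans ?_)
    calc Y = Y ^ (1 : ℝ) := (Real.rpow_one Y).symm
      _ ≤ Y ^ (127 / 126 : ℝ) := Real.rpow_le_rpow_of_exponent_le (by linarith) (by norm_num)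
  have e4 : 0 < Y ^ (-(1 / 126 : ℝ)) := by positivity
  rw [e1]
  have e5 : 3 * Y * (72000 * Y ^ (-(254 / 126) : ℝ)) =
      216000 * (Y ^ (-(1 / 126 : ℝ)) * Y ^ (-(127 / 126) : ℝ)) := by
    rw [← e2]; ring
  rw [e5]
  nlinarith

theorem f7_nat {Y E : ℕ} (hY : 6 ≤ Y) (hE : 1 ≤ E) :
    1 + 3 * Y * (Y ^ 254) ^ (E - 1) ≤ Y ^ (254 * E - 1) := by
  have e1 : 254 * E - 1 = 254 * (E - 1) + 253 := by omega
  rw [e1, pow_add, pow_mul]
  have h1 : 1 ≤ (Y ^ 254) ^ (E - 1) := Nat.one_le_pow _ _ (by positivity)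
  have h2 : 4 * Y ≤ Y ^ 253 := by
    have h3 : 6 ^ 252 ≤ Y ^ 252 := Nat.pow_le_pow_left hY 252
    have h4 : (4 : ℕ) ≤ 6 ^ 252 := by norm_num
    calc 4 * Y ≤ Y ^ 252 * Y := Nat.mul_le_mul_right Y (h4.trans h3)
      _ = Y ^ 253 := by rw [← pow_succ]
  calc 1 + 3 * Y * (Y ^ 254) ^ (E - 1) ≤ 4 * Y * (Y ^ 254) ^ (E - 1) := by nlinarith
    _ ≤ Y ^ 253 * (Y ^ 254) ^ (E - 1) := Nat.mul_le_mul_right _ h2
    _ = _ := mul_comm _ _

theorem ent_geo (r H M Y : ℕ) (hY : 6 ≤ Y) :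
    ent r H M (fun i => Y ^ 254 ^ i) ≤
      ENNReal.ofReal (72000 * (Y : ℝ) ^ (-(1 / 126 : ℝ))) + tt r H * (Y : ENNReal) ^ (254 ^ M - 1) := by
  induction M generalizing Y with
  | zero => simp [ent]
  | succ M ih =>
    have e1 : (fun i => Y ^ 254 ^ (i + 1)) = fun i => (Y ^ 254) ^ 254 ^ i := by
      funext i
      rw [← pow_mul, pow_succ, mul_comm]
    have h254 : 6 ≤ Y ^ 254 := hY.trans (Nat.le_self_pow (by norm_num) Y)
    have ih' := ih (Y ^ 254) h254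
    have h1 : lat Y ≤ ENNReal.ofReal (36000 * (Y : ℝ) ^ (-(1 / 126 : ℝ))) := lat_poly Y (by omega)
    have hYr : (6 : ℝ) ≤ (Y : ℝ) := by exact_mod_cast hY
    have h2 : 2 * (Y : ENNReal) + 1 ≤ 3 * (Y : ENNReal) := by
      exact_mod_cast (by omega : 2 * Y + 1 ≤ 3 * Y)
    have h3 : ENNReal.ofReal (36000 * (Y : ℝ) ^ (-(1 / 126 : ℝ))) +
        3 * (Y : ENNReal) * ENNReal.ofReal (72000 * ((Y ^ 254 : ℕ) : ℝ) ^ (-(1 / 126 : ℝ))) ≤
        ENNReal.ofReal (72000 * (Y : ℝ) ^ (-(1 / 126 : ℝ))) := by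
      have e2 : 3 * (Y : ENNReal) = ENNReal.ofReal (3 * (Y : ℝ)) := by
        rw [ENNReal.ofReal_mul (by norm_num)]
        simp
      rw [e2, ← ENNReal.ofReal_mul (by positivity), ← ENNReal.ofReal_add (by positivity) (by positivity)]
      refine ENNReal.ofReal_le_ofReal ?_
      push_cast
      exact f7_real hYr
    have h4 : tt r H + 3 * (Y : ENNReal) * (tt r H * ((Y ^ 254 : ℕ) : ENNReal) ^ (254 ^ M - 1)) ≤
        tt r H * (Y : ENNReal) ^ (254 ^ (M + 1) - 1) := by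
      have h5 := f7_nat (Y := Y) (E := 254 ^ M) hY (Nat.one_le_pow _ _ (by norm_num))
      have h6 : (1 : ENNReal) + 3 * (Y : ENNReal) * ((Y ^ 254 : ℕ) : ENNReal) ^ (254 ^ M - 1) ≤
          (Y : ENNReal) ^ (254 ^ (M + 1) - 1) := by
        have e3 : 254 ^ (M + 1) - 1 = 254 * 254 ^ M - 1 := by rw [pow_succ, mul_comm]
        rw [e3]
        exact_mod_cast h5
      calc tt r H + 3 * (Y : ENNReal) * (tt r H * ((Y ^ 254 : ℕ) : ENNReal) ^ (254 ^ M - 1))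
          = tt r H * (1 + 3 * (Y : ENNReal) * ((Y ^ 254 : ℕ) : ENNReal) ^ (254 ^ M - 1)) := by ring
        _ ≤ _ := mul_le_mul_right h6 _
    simp only [ent]
    rw [pow_zero, pow_one, e1]
    calc tt r H + lat Y + (2 * (Y : ENNReal) + 1) * ent r H M (fun i => (Y ^ 254) ^ 254 ^ i)
        ≤ tt r H + ENNReal.ofReal (36000 * (Y : ℝ) ^ (-(1 / 126 : ℝ))) + 3 * (Y : ENNReal) *
          (ENNReal.ofReal (72000 * ((Y ^ 254 : ℕ) : ℝ) ^ (-(1 / 126 : ℝ))) +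
            tt r H * ((Y ^ 254 : ℕ) : ENNReal) ^ (254 ^ M - 1)) :=
          add_le_add (add_le_add le_rfl h1) (mul_le_mul' h2 ih')
      _ = (ENNReal.ofReal (36000 * (Y : ℝ) ^ (-(1 / 126 : ℝ))) +
          3 * (Y : ENNReal) * ENNReal.ofReal (72000 * ((Y ^ 254 : ℕ) : ℝ) ^ (-(1 / 126 : ℝ)))) +
          (tt r H + 3 * (Y : ENNReal) * (tt r H * ((Y ^ 254 : ℕ) : ENNReal) ^ (254 ^ M - 1))) := by
          ring
      _ ≤ _ := add_le_add h3 h4

theorem f7_tt_ne (r H : ℕ) : tt r H ≠ ⊤ := measure_ne_top _ _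

theorem f7_p0_ne (r H : ℕ) : p0 r H ≠ ⊤ := measure_ne_top _ _

theorem p0_M {r H M Y : ℕ} (hH : 0 < H) (hM : 1 ≤ M) (hY : 6 ≤ Y)
    (h1 : 288000 * (M : ℝ) ≤ (Y : ℝ) ^ (1 / 126 : ℝ)) (h2 : 4 * M ^ 2 * Y ^ 254 ^ M ≤ 2 * r + 1) :
    ENNReal.ofReal ((M : ℝ) / 2) ≤ (2 * (r : ENNReal) + 1) * p0 r H := by
  have hYr : (6 : ℝ) ≤ (Y : ℝ) := by exact_mod_cast hY
  have hMr : (1 : ℝ) ≤ (M : ℝ) := by exact_mod_cast hM
  have hYpos : (0 : ℝ) < (Y : ℝ) := by linarith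
  have hpow : Y ^ 254 ^ M ≤ r := by
    have h3 : 1 ≤ M ^ 2 := Nat.one_le_pow _ _ hM
    have h4 : 4 * Y ^ 254 ^ M ≤ 2 * r + 1 := by
      calc 4 * Y ^ 254 ^ M = 4 * 1 * Y ^ 254 ^ M := by ring
        _ ≤ 4 * M ^ 2 * Y ^ 254 ^ M := Nat.mul_le_mul_right _ (Nat.mul_le_mul_left 4 h3)
        _ ≤ 2 * r + 1 := h2
    have h5 : 1 ≤ Y ^ 254 ^ M := Nat.one_le_pow _ _ (by omega)
    omega
  have hd : ∀ i < M, (fun i => Y ^ 254 ^ i) i ≤ r := by
    intro i hi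
    refine le_trans ?_ hpow
    exact Nat.pow_le_pow_right (by omega) (Nat.pow_le_pow_right (by norm_num) hi.le)
  have hmain := main_ineq hH (fun i => Y ^ 254 ^ i) hd
  have hgeo := ent_geo r H M Y hY
  have htp := tt_le_p0 r H
  set t : ℝ := (tt r H).toReal with ht
  set p : ℝ := (p0 r H).toReal with hp
  have ht0 : 0 ≤ t := ENNReal.toReal_nonneg
  have hp0 : 0 ≤ p := ENNReal.toReal_nonneg
  have htE : tt r H = ENNReal.ofReal t := (ENNReal.ofReal_toReal (f7_tt_ne r H)).symm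
  have hpE : p0 r H = ENNReal.ofReal p := (ENNReal.ofReal_toReal (f7_p0_ne r H)).symm
  have htp' : t ≤ p := ENNReal.toReal_mono (f7_p0_ne r H) htp
  have hR : 2 * (r : ENNReal) + 1 = ENNReal.ofReal (2 * (r : ℝ) + 1) := by
    rw [ENNReal.ofReal_add (by positivity) (by norm_num), ENNReal.ofReal_mul (by norm_num)]
    simp
  have hME : (M : ENNReal) + 1 = ENNReal.ofReal ((M : ℝ) + 1) := by
    rw [ENNReal.ofReal_add (by positivity) (by norm_num)]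
    simp
  -- real bound for `ent`
  set B : ℝ := 72000 * (Y : ℝ) ^ (-(1 / 126 : ℝ)) + t * (Y : ℝ) ^ (254 ^ M) with hB
  have hB0 : 0 ≤ B := by positivity
  have hentB : ent r H M (fun i => Y ^ 254 ^ i) ≤ ENNReal.ofReal B := by
    refine hgeo.trans ?_
    rw [hB, ENNReal.ofReal_add (by positivity) (by positivity), ENNReal.ofReal_mul ht0, ← htE]
    refine add_le_add le_rfl (mul_le_mul_right ?_ _)
    have e1 : ENNReal.ofReal ((Y : ℝ) ^ (254 ^ M)) = (Y : ENNReal) ^ (254 ^ M) := by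
      rw [ENNReal.ofReal_pow (by positivity)]
      simp
    rw [e1]
    exact pow_le_pow_right₀ (by exact_mod_cast (by omega : 1 ≤ Y)) (Nat.sub_le _ _)
  rw [hR, hpE, ← ENNReal.ofReal_mul (by positivity)]
  refine ENNReal.ofReal_le_ofReal ?_
  have hRpos : (0 : ℝ) < 2 * (r : ℝ) + 1 := by positivity
  rcases le_or_gt (M : ℝ) ((2 * (r : ℝ) + 1) * t) with hK | hK
  · nlinarith
  · have hmain' : (M : ℝ) + 1 ≤ (2 * (r : ℝ) + 1) * p + ((M : ℝ) + 1) * ((2 * (r : ℝ) + 1) * (t * B)) := by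
      have h6 : ENNReal.ofReal ((M : ℝ) + 1) ≤ ENNReal.ofReal ((2 * (r : ℝ) + 1) * p +
          ((M : ℝ) + 1) * ((2 * (r : ℝ) + 1) * (t * B))) := by
        have e5 : ENNReal.ofReal ((2 * (r : ℝ) + 1) * p +
            ((M : ℝ) + 1) * ((2 * (r : ℝ) + 1) * (t * B))) =
            (2 * (r : ENNReal) + 1) * p0 r H +
              ((M : ENNReal) + 1) * ((2 * (r : ENNReal) + 1) * (tt r H * ENNReal.ofReal B)) := by
          rw [ENNReal.ofReal_add (mul_nonneg (by positivity) hp0) (by positivity),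
            ENNReal.ofReal_mul (by positivity), ENNReal.ofReal_mul (by positivity),
            ENNReal.ofReal_mul (by positivity), ENNReal.ofReal_mul ht0, ← htE, ← hpE, ← hR, ← hME]
        rw [e5, ← hME]
        refine hmain.trans (add_le_add le_rfl ?_)
        exact mul_le_mul_right (mul_le_mul_right (mul_le_mul_right hentB _) _) _
      exact (ENNReal.ofReal_le_ofReal_iff (by positivity)).1 h6
    -- `K * B ≤ 1 / 2`
    have hinv : (Y : ℝ) ^ (-(1 / 126 : ℝ)) * (288000 * (M : ℝ)) ≤ 1 := by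
      calc (Y : ℝ) ^ (-(1 / 126 : ℝ)) * (288000 * (M : ℝ))
          ≤ (Y : ℝ) ^ (-(1 / 126 : ℝ)) * (Y : ℝ) ^ (1 / 126 : ℝ) := by gcongr
        _ = 1 := by rw [← Real.rpow_add hYpos]; norm_num
    have h2r : 4 * (M : ℝ) ^ 2 * (Y : ℝ) ^ 254 ^ M ≤ 2 * (r : ℝ) + 1 := by exact_mod_cast h2
    have hYE : 0 ≤ (Y : ℝ) ^ 254 ^ M := by positivity
    have hKt : (2 * (r : ℝ) + 1) * t * (t * (Y : ℝ) ^ 254 ^ M) ≤ 1 / 4 := by
      have h7 : (2 * (r : ℝ) + 1) * ((2 * (r : ℝ) + 1) * t * (t * (Y : ℝ) ^ 254 ^ M)) ≤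
          (2 * (r : ℝ) + 1) * (1 / 4) := by
        calc (2 * (r : ℝ) + 1) * ((2 * (r : ℝ) + 1) * t * (t * (Y : ℝ) ^ 254 ^ M))
            = ((2 * (r : ℝ) + 1) * t) ^ 2 * (Y : ℝ) ^ 254 ^ M := by ring
          _ ≤ (M : ℝ) ^ 2 * (Y : ℝ) ^ 254 ^ M := by gcongr
          _ ≤ (2 * (r : ℝ) + 1) * (1 / 4) := by linarith
      exact le_of_mul_le_mul_left h7 hRpos
    have hKB : (2 * (r : ℝ) + 1) * t * B ≤ 1 / 2 := by
      rw [hB, mul_add]
      have h8 : (2 * (r : ℝ) + 1) * t * (72000 * (Y : ℝ) ^ (-(1 / 126 : ℝ))) ≤ 1 / 4 := by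
        have h9 : 0 ≤ (Y : ℝ) ^ (-(1 / 126 : ℝ)) := by positivity
        calc (2 * (r : ℝ) + 1) * t * (72000 * (Y : ℝ) ^ (-(1 / 126 : ℝ)))
            ≤ (M : ℝ) * (72000 * (Y : ℝ) ^ (-(1 / 126 : ℝ))) := by gcongr
          _ = (Y : ℝ) ^ (-(1 / 126 : ℝ)) * (288000 * (M : ℝ)) / 4 := by ring
          _ ≤ 1 / 4 := by linarith
      linarith
    have h10 : ((M : ℝ) + 1) * ((2 * (r : ℝ) + 1) * (t * B)) ≤ ((M : ℝ) + 1) * (1 / 2) := by
      refine mul_le_mul_of_nonneg_left ?_ (by positivity)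
      calc (2 * (r : ℝ) + 1) * (t * B) = (2 * (r : ℝ) + 1) * t * B := by ring
        _ ≤ 1 / 2 := hKB
    linarith

theorem f7_pow_le_exp (n : ℕ) : (27 / 10 : ℝ) ^ n ≤ Real.exp n := by
  have h1 : (27 / 10 : ℝ) ≤ Real.exp 1 := by
    have := Real.exp_one_gt_d9
    linarith
  calc (27 / 10 : ℝ) ^ n ≤ Real.exp 1 ^ n := by gcongr
    _ = Real.exp n := by rw [← Real.exp_nat_mul, mul_one]

theorem f7_exp (M : ℕ) (hM : 1 ≤ M) :
    4 * (M : ℝ) ^ 2 * ((288000 * (M : ℝ)) ^ 126) ^ 254 ^ M ≤ Real.exp (Real.exp (15 * M)) := by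
  have hMr : (1 : ℝ) ≤ (M : ℝ) := by exact_mod_cast hM
  have hM0 : (0 : ℝ) ≤ (M : ℝ) := by linarith
  have hMe : (M : ℝ) ≤ Real.exp M := by
    have := Real.add_one_le_exp (M : ℝ)
    linarith
  have h13 : (288000 : ℝ) ≤ Real.exp 13 := by
    have := f7_pow_le_exp 13
    norm_num at this
    linarith
  have h8 : (1778 : ℝ) ≤ Real.exp 8 := by
    have := f7_pow_le_exp 8
    norm_num at this
    linarith
  have h6 : (254 : ℝ) ≤ Real.exp 6 := by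
    have := f7_pow_le_exp 6
    norm_num at this
    linarith
  have h2 : (4 : ℝ) ≤ Real.exp 2 := by
    have := f7_pow_le_exp 2
    norm_num at this
    linarith
  have hlog : 288000 * (M : ℝ) ≤ Real.exp (14 * M) := by
    calc 288000 * (M : ℝ) ≤ Real.exp 13 * Real.exp M := by gcongr
      _ = Real.exp (13 + M) := (Real.exp_add _ _).symm
      _ ≤ Real.exp (14 * M) := Real.exp_le_exp.2 (by linarith)
  have h4 : 4 * (M : ℝ) ^ 2 ≤ Real.exp (4 * M) := by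
    calc 4 * (M : ℝ) ^ 2 ≤ Real.exp 2 * (Real.exp M) ^ 2 := by gcongr
      _ = Real.exp (2 + 2 * M) := by
        rw [← Real.exp_nat_mul, ← Real.exp_add]
        norm_num
      _ ≤ Real.exp (4 * M) := Real.exp_le_exp.2 (by linarith)
  have h5 : ((288000 * (M : ℝ)) ^ 126) ^ 254 ^ M ≤ Real.exp (14 * M * 126 * (254 : ℝ) ^ M) := by
    rw [← pow_mul]
    calc (288000 * (M : ℝ)) ^ (126 * 254 ^ M) ≤ (Real.exp (14 * M)) ^ (126 * 254 ^ M) := by gcongr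
      _ = Real.exp (14 * M * 126 * (254 : ℝ) ^ M) := by
        rw [← Real.exp_nat_mul]
        congr 1
        push_cast
        ring
  have h254 : (1 : ℝ) ≤ (254 : ℝ) ^ M := one_le_pow₀ (by norm_num)
  have h7 : (254 : ℝ) ^ M ≤ Real.exp (6 * M) := by
    calc (254 : ℝ) ^ M ≤ (Real.exp 6) ^ M := by gcongr
      _ = Real.exp (6 * M) := by rw [← Real.exp_nat_mul, mul_comm]
  calc 4 * (M : ℝ) ^ 2 * ((288000 * (M : ℝ)) ^ 126) ^ 254 ^ M
      ≤ Real.exp (4 * M) * Real.exp (14 * M * 126 * (254 : ℝ) ^ M) := by gcongr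
    _ = Real.exp (4 * M + 14 * M * 126 * (254 : ℝ) ^ M) := (Real.exp_add _ _).symm
    _ ≤ Real.exp (Real.exp (15 * M)) := by
      refine Real.exp_le_exp.2 ?_
      calc 4 * (M : ℝ) + 14 * M * 126 * (254 : ℝ) ^ M ≤ 1778 * M * (254 : ℝ) ^ M := by nlinarith
        _ ≤ Real.exp 8 * Real.exp M * Real.exp (6 * M) := by gcongr
        _ = Real.exp (8 + M + 6 * M) := by rw [Real.exp_add, Real.exp_add]
        _ ≤ Real.exp (15 * M) := Real.exp_le_exp.2 (by linarith)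

theorem p0_lower {r H : ℕ} (hr : 2 ≤ r) (hH : 0 < H) :
    ENNReal.ofReal (Real.log (Real.log ((r : ℝ) + 1)) / 60) ≤ (2 * (r : ENNReal) + 1) * p0 r H := by
  have hrr : (2 : ℝ) ≤ (r : ℝ) := by exact_mod_cast hr
  set L : ℝ := Real.log (Real.log ((r : ℝ) + 1)) with hL
  have hlogpos : 0 < Real.log ((r : ℝ) + 1) := Real.log_pos (by linarith)
  have hone : (1 : ENNReal) ≤ (2 * (r : ENNReal) + 1) * p0 r H := by
    have := main_ineq (r := r) (H := H) (M := 0) hH (fun _ => 0) (by simp)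
    simpa [ent] using this
  rcases lt_or_ge L 15 with hlt | hge
  · refine le_trans ?_ hone
    rw [← ENNReal.ofReal_one]
    exact ENNReal.ofReal_le_ofReal (by linarith)
  · set M : ℕ := ⌊L / 15⌋₊ with hMdef
    have hM1 : 1 ≤ M := by
      rw [hMdef, Nat.one_le_floor_iff]
      linarith
    have hMle : (M : ℝ) ≤ L / 15 := Nat.floor_le (by linarith)
    have hMlt : L / 15 < (M : ℝ) + 1 := Nat.lt_floor_add_one _
    have hMr : (1 : ℝ) ≤ (M : ℝ) := by exact_mod_cast hM1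
    have hcast : (((288000 * M) ^ 126 : ℕ) : ℝ) = (288000 * (M : ℝ)) ^ 126 := by push_cast; ring
    have hY6 : 6 ≤ (288000 * M) ^ 126 := by
      calc 6 ≤ 288000 * M := by omega
        _ ≤ (288000 * M) ^ 126 := Nat.le_self_pow (by norm_num) _
    have hY1 : 288000 * (M : ℝ) ≤ (((288000 * M) ^ 126 : ℕ) : ℝ) ^ (1 / 126 : ℝ) := by
      rw [hcast, ← Real.rpow_natCast, ← Real.rpow_mul (by positivity)]
      norm_num
    have hexp : Real.exp (Real.exp (15 * M)) ≤ (r : ℝ) + 1 := by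
      have h1 : Real.exp (15 * M) ≤ Real.log ((r : ℝ) + 1) := by
        rw [← Real.le_log_iff_exp_le hlogpos]
        linarith
      rwa [← Real.le_log_iff_exp_le (by linarith)]
    have h2 : 4 * M ^ 2 * ((288000 * M) ^ 126) ^ 254 ^ M ≤ 2 * r + 1 := by
      have h3 : 4 * (M : ℝ) ^ 2 * ((288000 * (M : ℝ)) ^ 126) ^ 254 ^ M ≤ 2 * (r : ℝ) + 1 := by
        refine (f7_exp M hM1).trans (hexp.trans ?_)
        linarith
      exact_mod_cast h3
    refine le_trans (ENNReal.ofReal_le_ofReal ?_) (p0_M hH hM1 hY6 hY1 h2)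
    linarith

end Pool.Agent.GRP
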