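import Pool.Agent.GRP.Defs

/-! # GRP : definitions for part F (crossing strands of a double slab on the cylinder) -/

namespace Pool.Agent.GRP

open Pool.Agent.GRW MeasureTheory Filter Topology

/-- the trail from `up x` is in the rows `-H, ..., H - 1` at the times `1, ..., N` and in row `H` at time `N + 1` -/
def ReachAt (ω : Env) (H : ℕ) (x : ℤ) (N : ℕ) : Prop :=
  (∀ i, 0 < i → i ≤ N → -(H : ℤ) ≤ (orb ω (up x) i).1.2 ∧ (orb ω (up x) i).1.2 < H) ∧
    (orb ω (up x) (N + 1)).1.2 = H

/-- `m` excursions above and below the level, then the trail reaches row `H` -/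
def Chain (ω : Env) (H : ℕ) : ℕ → ℤ → Prop
  | 0, x => ∃ x', Hit ω H x x'
  | m + 1, x => ∃ v x₁, Ret ω H x v ∧ LRet ω H v x₁ ∧ Chain ω H m x₁

/-- the same with a fixed map `g` in the place of the excursions below the level -/
def GChain (g : ℤ → ℤ) (ω : Env) (H : ℕ) : ℕ → ℤ → Prop
  | 0, x => ∃ x', Hit ω H x x'
  | m + 1, x => ∃ v, Ret ω H x v ∧ GChain g ω H m (g v)

/-- probability that the trail from `up 0` reaches row `H` before row `-1`, in the periodised environment -/
noncomputable def tt (r H : ℕ) : ENNReal := P {ω | ∃ x', Hit (per r ω) H 0 x'}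

/-- probability that the trail from `up 0` reaches row `H` inside the double slab, in the periodised environment -/
noncomputable def p0 (r H : ℕ) : ENNReal := P {ω | ∃ N, ReachAt (per r ω) H 0 N}

/-- the entropy sum `∑_{j < M} ∏_{i < j} (2 d_i + 1) (t + lat d_j)`, recursively -/
noncomputable def ent (r H : ℕ) : ℕ → (ℕ → ℕ) → ENNReal
  | 0, _ => 0
  | M + 1, d => tt r H + lat (d 0) + (2 * (d 0 : ENNReal) + 1) * ent r H M (fun i => d (i + 1))

/-- the trail from `up 0` stays in the rows `0, ..., h - 1` until it is in a column `> c` -/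
def Rt (h : ℕ) (c : ℤ) : Set Env :=
  {ω | ∃ n, 0 < n ∧ (∀ i, 0 < i → i ≤ n → 0 ≤ (orb ω (up 0) i).1.2 ∧ (orb ω (up 0) i).1.2 < h) ∧
    c < (orb ω (up 0) n).1.1}

end Pool.Agent.GRP
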